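import Pool.Agent.Helper85.FRM.Step
import Pool.Agent.Helper36.AM.St

/-! FRT: statements. Rows (ROW_j), input of the layer step (INPJ), towers of labels with reduced frames; the theorem FRT. -/

set_option autoImplicit false

namespace Pool.Agent.Helper85.FRM

open Finset Filter Topology Pool.Agent.Helper69.RK Pool.Agent.Helper31.EC Pool.Agent.Helper31.EC.Sp
open Pool.Agent.Helper40.EL Pool.Agent.Helper89.LX Pool.Agent.Helper3.LF Pool.Agent.Helper84.MT Pool.Agent.Helper36.AM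

noncomputable section

variable {S : Sp} {M : ℕ} {E : ℕ → ℕ} {ι : Type}

/-- a function which is known to the base and to the partition `W` -/
def Knw (S : Sp) (W : ∀ k, Setoid (S.F k).Ω) {α : Type} (f : ∀ k, (S.F k).Ω → α) : Prop :=
  ∀ᶠ k in UF, ∀ ω ω', (S.F k).μ ω ≠ 0 → (S.F k).μ ω' ≠ 0 → (S.F k).Z ω ω' → W k ω ω' → f k ω = f k ω'

/-- `W` is determined by `V` and the coordinates `X_l`, `l < j`, up to errors `K 2 ^ (-ε n)` -/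
def Det (V W : ∀ k, Setoid (S.F k).Ω) (X : ∀ k, (S.F k).Ω → Fin M → ℝ) (j : Fin M) (ε : ℝ) : Prop :=
  ∀ C : ∀ k, Setoid (S.F k).Ω, (∃ (K : ℕ → ℝ) (A : ∀ k, (S.F k).Ω → Prop), S.Sub K ∧ S.Typ A ∧ ∀ᶠ k in UF, ∀ ω ω',
    (S.F k).μ ω ≠ 0 → (S.F k).μ ω' ≠ 0 → A k ω → A k ω' → (S.F k).Z ω ω' → V k ω ω' → C k ω ω' →
      ∀ l : Fin M, l < j → |X k ω l - X k ω' l| ≤ K k * S.dl ε k) →
    Nul S (fun k => h (fc (W k) : FL (S.F k)) (fc (V k ⊓ C k)))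

/-- ROW_j at the window `c`: a label without leak at the window `c` knows a polynomial `p (x_0, .., x_j)` with
`|p (Q)| = O(1)` and `|d_j p (Q)| ≥ 2 ^ (θ n)`, typically -/
def RowP (s : MSys S M E ι) (c : ℝ) (j : Fin M) (θ : ℝ) : Prop :=
  ∃ (D : ℕ) (l : Lab S) (p : ∀ k, (l.sp.F k).Ω → MvPolynomial (Fin M) ℝ), s.DMc c l ∧
    (∀ k ω, (p k ω).totalDegree ≤ D) ∧ (∀ k ω, ∀ a ∈ (p k ω).vars, a ≤ j) ∧ Knw l.sp l.V p ∧
    ∃ K : ℕ → ℝ, S.Sub K ∧ Sp.Typ (S := l.sp) fun k ω =>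
      |MvPolynomial.eval ((l.pj.vv s.Q).v k ω) (p k ω)| ≤ K k ∧
      2 ^ (θ * (S.F k).n) ≤ K k * |MvPolynomial.eval ((l.pj.vv s.Q).v k ω) (MvPolynomial.pderiv j (p k ω))|

/-- the partition of the space by the cells of level one of the coordinates `x_i`, `i < j` -/
def pre (Q : S.VV M) (j : ℕ) : Part S := fun k => fc (Setoid.ker fun ω (i : Fin M) => if i.val < j then Q.cellv 1 k ω i else 0)

/-- INPJ = LG + NES (helper63): from exact frames of the layers `< j` at the windows `sg i`, known to `V i`, over which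
the point has the entropy of the frame, and from rows of the layer `j`, to the input of the layer step -/
def INPJ : Prop := ∀ (M : ℕ) (w : Fin M → ℝ) (d m D : ℕ) (sg : ℕ → ℝ) (j : Fin M) (ε : ℝ), (∀ l, 1 ≤ w l) →
  (∀ l, w l ≤ d) → sg 0 = 0 → Monotone sg → 0 < ε → (∀ i, i < m → ε < sg (i + 1) - sg i) → (∀ l, w l * sg m + ε < 1) →
  ∀ (S : Sp) (Q : S.VV M) (V : ℕ → ∀ k, Setoid (S.F k).Ω) (P : ℕ → ∀ k, (S.F k).Ω → Fin M → MvPolynomial (Fin M) ℝ)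
    (A : ∀ k, (S.F k).Ω → Prop) (p : ℕ → ∀ k, (S.F k).Ω → MvPolynomial (Fin M) ℝ),
  (∀ i k, V (i + 1) k ≤ V i k) → (∀ i k ω, Fr w j.val (P i k ω)) → (∀ k ω l, P 0 k ω l = 0) →
  (∀ i, i ≤ m → Knw S (V i) (P i)) → S.Typ A →
  (∀ η : ℝ, 0 < η → ∀ᶠ k in UF, ∀ ω, (S.F k).μ ω ≠ 0 → A k ω →
    Sta (2 ^ (S.F k).n) w sg m j.val (2 ^ (η * (S.F k).n)) (fun i => P i k ω) (Q.v k ω)) →
  (∀ i, 1 ≤ i → i ≤ m → Tendsto (fun k => h (pre Q j.val k) (fc (V i k)) / (S.F k).n) UF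
    (𝓝 (∑ l : Fin M, if l < j then 1 - w l * sg i else 0))) →
  (∀ i k ω, (p i k ω).totalDegree ≤ D) → (∀ i k ω, ∀ a ∈ (p i k ω).vars, a ≤ j) →
  (∀ i, 1 ≤ i → i ≤ m → Knw S (V i) (p i)) →
  (∀ i, 1 ≤ i → i ≤ m → ∃ K : ℕ → ℝ, S.Sub K ∧ S.Typ fun k ω => |MvPolynomial.eval (Q.v k ω) (p i k ω)| ≤ K k ∧
    2 ^ (w j * sg i * (S.F k).n) ≤ K k * |MvPolynomial.eval (Q.v k ω) (MvPolynomial.pderiv j (p i k ω))|) →
  ∃ (W : ℕ → ∀ k, Setoid (S.F k).Ω) (G : ℕ → ∀ k, (S.F k).Ω → MvPolynomial (Fin M) ℝ),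
    (∀ i, i ≤ m → Det (V i) (W i) (fun k ω => co (2 ^ (S.F k).n) w (sg i) (P i k ω) (Q.v k ω)) j ε) ∧
    (∀ i, i ≤ m → Knw S (fun k => V i k ⊓ W i k) (G i)) ∧
    ∃ K : ℕ → ℝ, S.Sub K ∧ S.Typ fun k ω =>
      Inp (2 ^ (S.F k).n) w sg m j (fun i => P i k ω) (Q.v k ω) (fun i => G i k ω) ε (K k)

/-! ### towers -/

/-- a TOWER at a finite level: an extension with partitions (labels of the windows `0, 1, ..`), frames, a good event -/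
structure TwF (F : FSp) (M : ℕ) where
  T : FSp
  p : FPj T F
  hn : T.n = F.n
  V : ℕ → Setoid T.Ω
  P : ℕ → T.Ω → Fin M → MvPolynomial (Fin M) ℝ
  A : T.Ω → Prop

/-- the label of the window `i` -/
def TwF.lab {F : FSp} (t : TwF F M) (i : ℕ) : FLab F := ⟨t.T, t.p, t.hn, t.V i⟩

/-- QUALITY of a tower with the windows `sg i`, `i ≤ m`, and frames of the layers `< J`, up to `η` -/
structure TwF.Ok [Countable ι] (s : MSys S M E ι) (w : Fin M → ℝ) (sg : ℕ → ℝ) (m J : ℕ) (η : ℝ) (k : ℕ)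
    (t : TwF (S.F k) M) : Prop where
  leak : ∀ i, 1 ≤ i → i ≤ m → ∀ a, (t.lab i).leak (s.cnd (sg i) a k) ≤ η * (S.F k).n
  info : ∀ i, 1 ≤ i → i ≤ m → (s.kap (sg i)).info - η ≤ (t.lab i).info / (S.F k).n
  anti : ∀ i, t.V (i + 1) ≤ t.V i
  fr : ∀ i ω, Fr w J (t.P i ω)
  zero : ∀ ω l, t.P 0 ω l = 0
  meas : ∀ i, i ≤ m → ∀ ω ω', t.T.μ ω ≠ 0 → t.T.μ ω' ≠ 0 → t.T.Z ω ω' → t.V i ω ω' → t.P i ω = t.P i ω'
  typ : t.T.pb (fun ω => ¬ t.A ω) ≤ η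
  sta : ∀ ω, t.T.μ ω ≠ 0 → t.A ω → Sta (2 ^ (S.F k).n) w sg m J (2 ^ (η * (S.F k).n)) (fun i => t.P i ω)
    (s.Q.v k (t.p.π ω))

/-- exact towers -/
def TwOk [Countable ι] (s : MSys S M E ι) (w : Fin M → ℝ) (sg : ℕ → ℝ) (m J : ℕ) (t : ∀ k, TwF (S.F k) M) : Prop :=
  ∀ η : ℝ, 0 < η → ∀ᶠ k in UF, TwF.Ok s w sg m J η k (t k)

/-- [FAM] finite families of extensions: common extension; leaks of joins -/
def FAMP : Prop := ∀ (F : FSp) (N : ℕ) (L : Fin N → FLab F), ∃ (U : FSp) (p : FPj U F) (hn : U.n = F.n)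
  (q : ∀ a, FPj U (L a).T), (∀ a w, U.μ w ≠ 0 → (L a).p.π ((q a).π w) = p.π w) ∧
    ∀ (W : ∀ a, Setoid (L a).T.Ω) (V : Setoid U.Ω), (∀ w w', V w w' ↔ ∀ a, W a ((q a).π w) ((q a).π w')) →
      (∀ x : FL F, (FLab.mk U p hn V).leak x ≤ ∑ a, (FLab.mk (L a).T (L a).p (L a).hn (W a)).leak x) ∧
      ∀ a, (FLab.mk (L a).T (L a).p (L a).hn (W a)).info ≤ (FLab.mk U p hn V).info

/-- [FIN] from an exact tower with all layers to the frame of a label `kappa_c` -/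
def FINP : Prop := ∀ (S : Sp) (M : ℕ) (E : ℕ → ℕ) (ι : Type) (_ : Finite ι) (s : MSys S M E ι) (w : Fin M → ℝ) (c : ℝ),
  (∀ i, 1 ≤ w i) → 0 < c → (∀ i, w i * c ≤ 1) → ∀ t : ∀ k, TwF (S.F k) M,
    TwOk s w (fun i => i * c) 1 M t → ∃ (l : Lab S) (_ : Frm s.Q l fun j => w j * c), s.IsKap c l

/-- FRT -/
def FRTP : Prop := ∀ (S : Sp) (M : ℕ) (E : ℕ → ℕ) (ι : Type) (_ : Finite ι) (s : MSys S M E ι) (w : Fin M → ℝ) (c : ℝ),
  (∀ i, 1 ≤ w i) → 0 < c → (∀ i, w i * c < 1) →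
  (∀ c' : ℝ, 0 < c' → c' ≤ c → ∀ j : Fin M, ∀ l : Lab S, s.IsKap c' l →
    Tendsto (fun k => h ((l k).p.map (pre s.Q j.val k)) (l k).v / (S.F k).n) UF
      (𝓝 (∑ i : Fin M, if i < j then 1 - w i * c' else 0))) →
  (∀ c' : ℝ, 0 < c' → c' ≤ c → ∀ j : Fin M, RowP s c' j (w j * c')) →
  ∃ (l : Lab S) (_ : Frm s.Q l fun j => w j * c), s.IsKap c l

end

end Pool.Agent.Helper85.FRM
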