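import Pool.Agent.Helper85.FRM.Frt
import Pool.Agent.Helper48.ROW.Main
import Pool.Agent.Helper7.FIN.Finp
import Pool.Agent.Helper93.FRM.Fam

/-! FRT: boxes with frames for a system and for a class of systems with exact numbers (field `box` of `Hom` and `Pre`). -/

set_option autoImplicit false

namespace Pool.Agent.Helper85.FRM

open Finset Filter Topology Pool.Agent.Helper69.RK Pool.Agent.Helper31.EC Pool.Agent.Helper31.EC.Sp
open Pool.Agent.Helper40.EL Pool.Agent.Helper89.LX Pool.Agent.Helper3.LF Pool.Agent.Helper84.MT Pool.Agent.Helper36.AM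
open Pool.Agent.Helper48.ROW (NumE VolE rowP)

noncomputable section

/-- FRT from INPJ -/
theorem frt_inpj (hI : INPJ) : FRTP := frt_of Pool.Agent.Helper93.FRM.famp hI Pool.Agent.Helper7.FIN.finp

/-- BOXES WITH FRAMES of one system: numbers for the labels `kappa_c'` of the system, `c' ≤ c`; numbers and volumes on
all events of all extensions -/
theorem box_sys (hI : INPJ) {M g r D : ℕ} (hD : 1 ≤ D) (hst : ∀ d, d < M → STm D d (lin g) (Fin r)) {S : Sp}
    (s : MSys S M (lin g) (Fin r)) {w : Fin M → ℝ} (hw : ∀ i, 1 ≤ w i) {c : ℝ} (hc : 0 < c) (hwc : ∀ i, w i * c < 1)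
    (hnum : ∀ c' : ℝ, 0 < c' → c' ≤ c → ∀ j : Fin M, ∀ l : Lab S, s.IsKap c' l →
      Tendsto (fun k => h ((l k).p.map (pre s.Q j.val k)) (l k).v / (S.F k).n) UF
        (𝓝 (∑ i : Fin M, if i < j then 1 - w i * c' else 0)))
    (hN : ∀ c' : ℝ, 0 < c' → c' ≤ c → NumE s c' w) (hV : ∀ c' : ℝ, 0 < c' → c' ≤ c → VolE s D c' w) :
    ∃ (l : Lab S) (_ : Frm s.Q l fun j => w j * c), s.IsKap c l := by
  apply frt_inpj hI S M (lin g) (Fin r) inferInstance s w c hw hc hwc hnum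
  intro c' h0 h1 j
  refine rowP hD hst h0.le ?_ (hN c' h0 h1) (hV c' h0 h1) j
  have h2 := hwc j
  have h3 := hw j
  nlinarith

/-- BOXES WITH FRAMES for a class of systems closed under events of extensions, with exact numbers and volumes -/
theorem box_class (hI : INPJ) {M g r D : ℕ} (hD : 1 ≤ D) (hst : ∀ d, d < M → STm D d (lin g) (Fin r))
    {w : Fin M → ℝ} (hw : ∀ i, 1 ≤ w i) (CC : ∀ S : Sp, MSys S M (lin g) (Fin r) → Prop)
    (him : ∀ S s, CC S s → ∀ (T : Sp) (p : Pj T S) (A : ∀ k, (T.F k).Ω → Prop) (hA : 0 < ul (T.pr A)),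
      CC (Sp.im p A) (s.im p A hA))
    (hnum : ∀ S s, CC S s → ∀ c : ℝ, 0 < c → (∀ i, w i * c < 1) → ∀ l : Lab S, s.IsKap c l → ∀ j : Fin M,
      Tendsto (fun k => h ((l k).p.map (pre s.Q j.val k)) (l k).v / (S.F k).n) UF
        (𝓝 (∑ i : Fin M, if i < j then 1 - w i * c else 0)))
    (hvol : ∀ S s, CC S s → ∀ c : ℝ, 0 < c → (∀ i, w i * c < 1) → s.vol D c ≤ ∑ i : Fin M, (1 - w i * c))
    (S : Sp) (s : MSys S M (lin g) (Fin r)) (hs : CC S s) (c : ℝ) (hc : 0 < c) (hwc : ∀ i, w i * c < 1) :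
    ∃ (l : Lab S) (_ : Frm s.Q l fun j => w j * c), s.IsKap c l := by
  have hwc' : ∀ c' : ℝ, 0 < c' → c' ≤ c → ∀ i, w i * c' < 1 := fun c' _ h1 i =>
    lt_of_le_of_lt (mul_le_mul_of_nonneg_left h1 (by linarith [hw i])) (hwc i)
  refine box_sys hI hD hst s hw hc hwc (fun c' h0 h1 j l hl => hnum S s hs c' h0 (hwc' c' h0 h1) l hl j)
    (fun c' h0 h1 T p A hA l hl j => ?_) (fun c' h0 h1 T p A hA => hvol _ _ (him S s hs T p A hA) c' h0 (hwc' c' h0 h1))
  exact hnum _ _ (him S s hs T p A hA) c' h0 (hwc' c' h0 h1) l hl j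

end

end Pool.Agent.Helper85.FRM
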