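import Pool.Agent.Helper85.FRM.Odt

/-! FRT, families of towers: joins of the partitions of finitely many towers over one amalgam; the base of the induction. -/

set_option autoImplicit false

namespace Pool.Agent.Helper85.FRM

open Finset Filter Topology Pool.Agent.Helper69.RK Pool.Agent.Helper31.EC Pool.Agent.Helper31.EC.Sp
open Pool.Agent.Helper40.EL Pool.Agent.Helper89.LX Pool.Agent.Helper3.LF Pool.Agent.Helper84.MT Pool.Agent.Helper36.AM
open Pool.Agent.Helper66.MT (cndB cndB_eq)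

noncomputable section

variable {S : Sp} {M : ℕ} {E : ℕ → ℕ} {ι : Type}

theorem nul_sum {β : Type*} (t : Finset β) {f : β → ℕ → ℝ} (h : ∀ a ∈ t, Nul S (f a)) :
    Nul S (fun k => ∑ a ∈ t, f a k) := by
  classical
  induction t using Finset.induction_on with
  | empty =>
    simp only [Finset.sum_empty]
    exact Nul_zero S
  | insert a t ha ih =>
    simp only [Finset.sum_insert ha]
    exact (h a (Finset.mem_insert_self a t)).add (ih fun b hb => h b (Finset.mem_insert_of_mem hb))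

theorem nul_ev {f : ℕ → ℝ} (h : Nul S f) {η : ℝ} (hη : 0 < η) : ∀ᶠ k in UF, f k ≤ η * (S.F k).n := by
  filter_upwards [h.eventually (gt_mem_nhds hη)] with k hk
  have hn := (S.F k).pos
  rw [div_lt_iff₀ hn] at hk
  exact hk.le

/-- labels of the window `c` with the information of `kappa_c` are labels `kappa_c` -/
theorem isKap_of [Countable ι] {s : MSys S M E ι} {c : ℝ} {L : Lab S} (hL : s.DMc c L)
    (h : ∀ η : ℝ, 0 < η → ∀ᶠ k in UF, (s.kap c).info - η ≤ (L k).info / (S.F k).n) : s.IsKap c L := by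
  refine ⟨hL, fun l' hl' => ((s.kap_isKap c).2 l' hl').trans ?_⟩
  refine le_of_forall_pos_le_add fun η hη => ?_
  have h1 : (s.kap c).info - η ≤ L.info :=
    const_le_ul (Lab.DMf.ub hL (i := none) (pcd_Bd s.Q)) (h η hη)
  linarith

/-- a label with a polynomial as a tower -/
def rowTw {F : FSp} (l : FLab F) (p : l.T.Ω → MvPolynomial (Fin M) ℝ) : TwF F M where
  T := l.T
  p := l.p
  hn := l.hn
  V := fun _ => l.V
  P := fun _ ω _ => p ω
  A := fun _ => True

section
variable {X : ℕ → ∀ k, TwF (S.F k) M} {mf : ℕ} (Am : Ama (fun (a : Fin (mf + 1)) k => (X a.val k).lab 0))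
  (cc : ℕ → ℕ → Prop)

/-- the join of the partitions of number `i` of the towers `a` with `cc i a` -/
def Vf (i k : ℕ) : Setoid (Am.U k).Ω := Am.J (fun a k => (X a.val k).V i) (fun a => cc i a.val) k

theorem Vf_anti (hc : ∀ i a, cc i a → cc (i + 1) a) (hX : ∀ a k i, a ≤ mf → (X a k).V (i + 1) ≤ (X a k).V i)
    (i k : ℕ) : Vf Am cc (i + 1) k ≤ Vf Am cc i k := fun _ _ h a ha =>
  hX a.val k i (by have := a.isLt; omega) (h a (hc i a.val ha))

theorem Vf_nul (i : ℕ) (A : Part S)
    (h : ∀ a, a ≤ mf → cc i a → Nul S (fun k => ((X a k).lab i).leak (A k))) :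
    Nul S (fun k => (Am.lab (Vf Am cc i) k).leak (A k)) := by
  classical
  have h1 : Nul S (fun k => ∑ a : Fin (mf + 1), if cc i a.val then ((X a.val k).lab i).leak (A k) else 0) := by
    apply nul_sum
    intro a _
    by_cases ha : cc i a.val
    · simp only [if_pos ha]
      exact h a.val (by have := a.isLt; omega) ha
    · simp only [if_neg ha]
      exact Nul_zero S
  refine h1.of_le (Eventually.of_forall fun k => FLab.leak_nonneg _ _) (Eventually.of_forall fun k => ?_)
  exact Am.leak_J (fun a k => (X a.val k).V i) (fun a => cc i a.val) k (A k)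
    (fun a => if cc i a.val then ((X a.val k).lab i).leak (A k) else 0) (fun a => by
      split_ifs
      · exact FLab.leak_nonneg _ _
      · exact le_rfl) (fun a ha => by
      rw [if_pos ha]
      exact le_rfl)

theorem Vf_info {i a : ℕ} (ha : a ≤ mf) (hc : cc i a) (k : ℕ) :
    ((X a k).lab i).info ≤ (Am.lab (Vf Am cc i) k).info :=
  Am.info_J (fun a k => (X a.val k).V i) (c := fun a => cc i a.val) (a := ⟨a, by omega⟩) hc k

/-- the space of the amalgam -/
def Ama.sp {N : ℕ} {L : Fin N → Lab S} (Am : Ama L) : Sp := (Am.lab fun _ => ⊤).sp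

/-- its projection -/
def Ama.pj {N : ℕ} {L : Fin N → Lab S} (Am : Ama L) : Pj Am.sp S := (Am.lab fun _ => ⊤).pj

theorem Ama.n_eq {N : ℕ} {L : Fin N → Lab S} (Am : Ama L) (k : ℕ) : (Am.sp.F k).n = (S.F k).n := Am.hn k

theorem Ama.Sub_iff {N : ℕ} {L : Fin N → Lab S} (Am : Ama L) {K : ℕ → ℝ} : Am.sp.Sub K ↔ S.Sub K := sp_Sub _

theorem Ama.dl_eq {N : ℕ} {L : Fin N → Lab S} (Am : Ama L) (r : ℝ) (k : ℕ) : Am.sp.dl r k = S.dl r k := sp_dl _ r k

/-- typical events of a component are typical in the amalgam -/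
theorem Ama.typ {N : ℕ} {L : Fin N → Lab S} (Am : Ama L) (a : Fin N) {B : ∀ k, (L a k).T.Ω → Prop}
    (h : Tendsto (fun k => (L a k).T.pb (fun ω => ¬ B k ω)) UF (𝓝 0)) :
    Am.sp.Typ (fun k ω => B k ((Am.q k a).π ω)) := by
  refine h.congr fun k => ?_
  exact (pb_push (Am.q k a) (fun ω => ¬ B k ω)).symm

end

/-- BASE of the induction: no layers -/
theorem tw_base (hF : FAMP) [Finite ι] (s : MSys S M E ι) (w : Fin M → ℝ) {sg : ℕ → ℝ} (hs : Monotone sg) (m : ℕ) :
    ∃ t : ∀ k, TwF (S.F k) M, TwOk s w sg m 0 t := by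
  set X : ℕ → ∀ k, TwF (S.F k) M := fun a k => rowTw (s.kap (sg a) k) (fun _ => 0) with hX
  obtain ⟨Am⟩ := exists_ama hF (fun (a : Fin (m + 1)) k => (X a.val k).lab 0)
  set cc : ℕ → ℕ → Prop := fun i a => 1 ≤ a ∧ a ≤ i with hcc
  refine ⟨fun k => ⟨Am.U k, Am.p k, Am.hn k, fun i => Vf Am cc i k, fun _ _ => 0, fun _ => True⟩, fun η hη => ?_⟩
  have h1 : ∀ᶠ k in UF, ∀ (i : Fin (m + 1)) (a : Option ι), 1 ≤ i.val →
      (Am.lab (Vf Am cc i.val) k).leak (s.cnd (sg i.val) a k) ≤ η * (S.F k).n := by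
    rw [Filter.eventually_all]
    intro i
    rw [Filter.eventually_all]
    intro a
    by_cases hi : 1 ≤ i.val
    · have h2 := nul_ev (Vf_nul Am cc i.val (s.cnd (sg i.val) a) fun b _ hb =>
        MSys.DMc.mono (hs hb.2) (s.kap_isKap (sg b)).1 a) hη
      filter_upwards [h2] with k hk _ using hk
    · exact Eventually.of_forall fun k h => absurd h hi
  have h2 : ∀ᶠ k in UF, ∀ i : Fin (m + 1), (s.kap (sg i.val)).info - η ≤ (s.kap (sg i.val) k).info / (S.F k).n := by
    rw [Filter.eventually_all]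
    intro i
    have h3 : Tendsto (fun k => (s.kap (sg i.val) k).info / (S.F k).n) UF (𝓝 (s.kap (sg i.val)).info) :=
      ul_tendsto (Lab.DMf.ub (s.kap_isKap (sg i.val)).1 (i := none) (pcd_Bd s.Q))
    filter_upwards [h3.eventually (lt_mem_nhds (show (s.kap (sg i.val)).info - η < (s.kap (sg i.val)).info by linarith))]
      with k hk using hk.le
  filter_upwards [h1, h2] with k g1 g2
  refine ⟨fun i hi him a => g1 ⟨i, by omega⟩ a hi, fun i hi him => (g2 ⟨i, by omega⟩).trans ?_, fun i => ?_,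
    fun i ω => Fr_zero w 0, fun _ _ => rfl, fun _ _ _ _ _ _ _ _ => rfl, ?_, fun ω hω _ => ?_⟩
  · exact div_le_div_of_nonneg_right (Vf_info Am cc him ⟨hi, le_rfl⟩ k) (S.F k).pos.le
  · exact Vf_anti Am cc (fun i a h => ⟨h.1, h.2.trans (Nat.le_succ i)⟩) (fun _ _ _ _ => le_rfl) i k
  · have h3 : (Am.U k).pb (fun ω => ¬ True) ≤ 0 := by
      refine (FSp.pb_mono (Am.U k) (E' := fun _ => False) (fun ω _ h => h trivial)).trans (le_of_eq ?_)
      unfold FSp.pb mass res
      apply Finset.sum_eq_zero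
      intro ω _
      simp
    exact h3.trans hη.le
  · exact ⟨fun _ _ => Fr_zero w 0, fun _ _ _ _ l hl => absurd hl (Nat.not_lt_zero _),
      fun _ _ l hl => absurd hl (Nat.not_lt_zero _), fun _ _ l hl => absurd hl (Nat.not_lt_zero _)⟩

end

end Pool.Agent.Helper85.FRM
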