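import Pool.Agent.Helper85.FRM.Lstp

/-! FRT: the induction over the layers. -/

set_option autoImplicit false

namespace Pool.Agent.Helper85.FRM

open Finset Filter Topology Pool.Agent.Helper69.RK Pool.Agent.Helper31.EC Pool.Agent.Helper31.EC.Sp
open Pool.Agent.Helper40.EL Pool.Agent.Helper89.LX Pool.Agent.Helper3.LF Pool.Agent.Helper84.MT Pool.Agent.Helper36.AM

noncomputable section

variable {S : Sp} {M : ℕ} {E : ℕ → ℕ} {ι : Type}

/-- EXACT TOWERS for all numbers of windows and all numbers of layers -/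
theorem exists_tower (hF : FAMP) (hI : INPJ) [Finite ι] (s : MSys S M E ι) {w : Fin M → ℝ} (hw : ∀ i, 1 ≤ w i) {c : ℝ}
    (hc : 0 < c) (hwc : ∀ i, w i * c < 1)
    (hnum : ∀ c' : ℝ, 0 < c' → c' ≤ c → ∀ j : Fin M, ∀ l : Lab S, s.IsKap c' l →
      Tendsto (fun k => h ((l k).p.map (pre s.Q j.val k)) (l k).v / (S.F k).n) UF
        (𝓝 (∑ i : Fin M, if i < j then 1 - w i * c' else 0)))
    (hrow : ∀ c' : ℝ, 0 < c' → c' ≤ c → ∀ j : Fin M, RowP s c' j (w j * c')) (J : ℕ) (hJ : J ≤ M) :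
    ∀ m : ℕ, 1 ≤ m → ∃ t : ∀ k, TwF (S.F k) M, TwOk s w (fun i => (i : ℝ) * (c / m)) m J t := by
  induction J with
  | zero =>
    intro m hm
    apply tw_base hF s w
    apply monotone_nat_of_le_succ
    intro i
    have hm0 : (0 : ℝ) < m := by exact_mod_cast hm
    have : 0 < c / m := div_pos hc hm0
    push_cast
    nlinarith
  | succ J ih =>
    intro m hm
    apply TwOk.diag
    intro u
    set j : Fin M := ⟨J, by omega⟩ with hj
    obtain ⟨d, hd⟩ : ∃ d : ℕ, ∀ l, w l ≤ d := by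
      obtain ⟨d, hd⟩ := exists_nat_ge (∑ l, w l)
      refine ⟨d, fun l => le_trans ?_ hd⟩
      exact Finset.single_le_sum (f := w) (fun l _ => by linarith [hw l]) (Finset.mem_univ l)
    obtain ⟨g, hg0, hg⟩ : ∃ g : ℝ, 0 < g ∧ ∀ l, w l * c + g < 1 := by
      have h1 : (Finset.univ : Finset (Fin M)).Nonempty := ⟨j, Finset.mem_univ j⟩
      obtain ⟨l0, _, h2⟩ := Finset.exists_max_image Finset.univ (fun l => w l * c) h1
      refine ⟨(1 - w l0 * c) / 2, by linarith [hwc l0], fun l => ?_⟩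
      have h3 := h2 l (Finset.mem_univ l)
      linarith [hwc l0]
    set η : ℝ := 1 / ((u : ℝ) + 1) with hη
    have hη0 : 0 < η := by positivity
    have hm0 : (0 : ℝ) < m := by exact_mod_cast hm
    obtain ⟨N, hN⟩ := exists_nat_ge (4 * d * c / η + c / g + 1)
    have hN1 : (1 : ℝ) ≤ N := by
      have h1 : 0 ≤ 4 * d * c / η := by positivity
      have h2 : 0 ≤ c / g := by positivity
      linarith
    have hN1' : 1 ≤ N := by exact_mod_cast hN1
    have hmN : 1 ≤ m * N := Nat.mul_pos hm hN1'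
    have hmN0 : (0 : ℝ) < ((m * N : ℕ) : ℝ) := by exact_mod_cast hmN
    have hle : c / ((m * N : ℕ) : ℝ) ≤ c / N := by
      apply div_le_div_of_nonneg_left hc.le (by linarith)
      push_cast
      have : (1 : ℝ) ≤ m := by exact_mod_cast hm
      nlinarith
    have hδη : 4 * d * (c / ((m * N : ℕ) : ℝ)) ≤ η := by
      have h1 : 4 * (d : ℝ) * (c / ((m * N : ℕ) : ℝ)) ≤ 4 * d * (c / N) :=
        mul_le_mul_of_nonneg_left hle (by positivity)
      refine h1.trans ?_
      rw [← mul_div_assoc, div_le_iff₀ (by linarith)]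
      have h2 : 4 * d * c / η ≤ N := by
        have h3 : 0 ≤ c / g := by positivity
        linarith
      rw [div_le_iff₀ hη0] at h2
      linarith
    have hδg : c / ((m * N : ℕ) : ℝ) ≤ g := by
      refine hle.trans ?_
      rw [div_le_iff₀ (by linarith)]
      have h2 : c / g ≤ N := by
        have h3 : 0 ≤ 4 * d * c / η := by positivity
        linarith
      rw [div_le_iff₀ hg0] at h2
      linarith
    obtain ⟨t, ht⟩ := ih (by omega) (m * N) hmN
    set sg : ℕ → ℝ := fun i => (i : ℝ) * (c / ((m * N : ℕ) : ℝ)) with hsg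
    have hsgc : ∀ i, 1 ≤ i → i ≤ m * N → 0 < sg i ∧ sg i ≤ c := by
      intro i h1 h2
      have h3 : (1 : ℝ) ≤ i := by exact_mod_cast h1
      have h4 : (i : ℝ) ≤ ((m * N : ℕ) : ℝ) := by exact_mod_cast h2
      have h5 : 0 < c / ((m * N : ℕ) : ℝ) := div_pos hc hmN0
      refine ⟨by positivity, ?_⟩
      calc (i : ℝ) * (c / ((m * N : ℕ) : ℝ)) ≤ ((m * N : ℕ) : ℝ) * (c / ((m * N : ℕ) : ℝ)) :=
            mul_le_mul_of_nonneg_right h4 h5.le
        _ = c := by field_simp
    obtain ⟨D, X, hX⟩ := exists_stp (j := j) ht fun i h1 h2 => hrow (sg i) (hsgc i h1 h2).1 (hsgc i h1 h2).2 j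
    obtain ⟨t', ht'⟩ := fine_step hX hF hI hw hd hc hmN (fun i => rfl) hη0 hδη (fun l => by linarith [hg l])
      (fun i h1 h2 l hl => hnum (sg i) (hsgc i h1 h2).1 (hsgc i h1 h2).2 j l hl)
    refine ⟨fun k => (t' k).sub fun i => i * N, ?_⟩
    filter_upwards [ht'] with k hk
    refine hk.sub (fun a b hab => Nat.mul_le_mul_right N hab) le_rfl (Nat.zero_mul N) (fun i hi => Nat.mul_pos hi hN1')
      fun i => ?_
    show (i : ℝ) * (c / m) = ((i * N : ℕ) : ℝ) * (c / ((m * N : ℕ) : ℝ))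
    push_cast
    field_simp

/-- FRT from its parts -/
theorem frt_of (hF : FAMP) (hI : INPJ) (hN : FINP) : FRTP := by
  intro S M E ι hι s w c hw hc hwc hnum hrow
  obtain ⟨t, ht⟩ := exists_tower hF hI s hw hc hwc hnum hrow M le_rfl 1 le_rfl
  have h1 : (fun i : ℕ => (i : ℝ) * (c / ((1 : ℕ) : ℝ))) = fun i : ℕ => (i : ℝ) * c := by
    funext i
    rw [Nat.cast_one, div_one]
  rw [h1] at ht
  exact hN S M E ι hι s w c hw hc (fun i => (hwc i).le) t ht

end

end Pool.Agent.Helper85.FRM
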