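import Pool.Agent.Helper85.FRM.Fmt

/-! FRT, the data of one layer step: the exact tower and the rows over one amalgam; hypotheses of INPJ. -/

set_option autoImplicit false

namespace Pool.Agent.Helper85.FRM

open Finset Filter Topology Pool.Agent.Helper69.RK Pool.Agent.Helper31.EC Pool.Agent.Helper31.EC.Sp
open Pool.Agent.Helper40.EL Pool.Agent.Helper89.LX Pool.Agent.Helper3.LF Pool.Agent.Helper84.MT Pool.Agent.Helper36.AM
open Pool.Agent.Helper66.MT (cndB cndB_eq)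

noncomputable section

variable {S : Sp} {M : ℕ} {E : ℕ → ℕ} {ι : Type}

/-- rows as towers -/
structure RowT (s : MSys S M E ι) (c : ℝ) (j : Fin M) (θ : ℝ) (D : ℕ) (x : ∀ k, TwF (S.F k) M) : Prop where
  dm : s.DMc c (fun k => (x k).lab 0)
  cst : ∀ k i, (x k).V i = (x k).V 0
  deg : ∀ k ω, ((x k).P 0 ω j).totalDegree ≤ D
  vars : ∀ k ω, ∀ a ∈ ((x k).P 0 ω j).vars, a ≤ j
  knw : ∀ᶠ k in UF, ∀ ω ω', (x k).T.μ ω ≠ 0 → (x k).T.μ ω' ≠ 0 → (x k).T.Z ω ω' → (x k).V 0 ω ω' →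
    (x k).P 0 ω j = (x k).P 0 ω' j
  bd : ∃ K : ℕ → ℝ, S.Sub K ∧ Tendsto (fun k => (x k).T.pb (fun ω => ¬
    (|MvPolynomial.eval (s.Q.v k ((x k).p.π ω)) ((x k).P 0 ω j)| ≤ K k ∧
      2 ^ (θ * (S.F k).n) ≤ K k * |MvPolynomial.eval (s.Q.v k ((x k).p.π ω)) (MvPolynomial.pderiv j ((x k).P 0 ω j))|)))
    UF (𝓝 0)

theorem exists_rowT {s : MSys S M E ι} {c : ℝ} {j : Fin M} {θ : ℝ} (h : RowP s c j θ) :
    ∃ (D : ℕ) (x : ∀ k, TwF (S.F k) M), RowT s c j θ D x := by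
  obtain ⟨D, l, p, h1, h2, h3, h4, K, hK, h5⟩ := h
  exact ⟨D, fun k => rowTw (l k) (p k), h1, fun _ _ => rfl, h2, h3, h4, K, hK, h5⟩

theorem RowT.mono {s : MSys S M E ι} {c : ℝ} {j : Fin M} {θ : ℝ} {D D' : ℕ} {x : ∀ k, TwF (S.F k) M}
    (h : RowT s c j θ D x) (hD : D ≤ D') : RowT s c j θ D' x :=
  ⟨h.dm, h.cst, fun k ω => (h.deg k ω).trans hD, h.vars, h.knw, h.bd⟩

/-- the towers of one layer step: number `0` is the exact tower of the layers `< j`, number `i` is the row of the window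
`sg i` -/
structure Stp [Countable ι] (s : MSys S M E ι) (w : Fin M → ℝ) (sg : ℕ → ℝ) (m D : ℕ) (j : Fin M)
    (X : ℕ → ∀ k, TwF (S.F k) M) : Prop where
  tw : TwOk s w sg m j.val (X 0)
  str : ∀ k, (X 0 k).Str w m j.val
  row : ∀ i, 1 ≤ i → i ≤ m → RowT s (sg i) j (w j * sg i) D (X i)

theorem exists_stp [Countable ι] {s : MSys S M E ι} {w : Fin M → ℝ} {sg : ℕ → ℝ} {m : ℕ} {j : Fin M}
    {t : ∀ k, TwF (S.F k) M} (ht : TwOk s w sg m j.val t)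
    (hr : ∀ i, 1 ≤ i → i ≤ m → RowP s (sg i) j (w j * sg i)) :
    ∃ (D : ℕ) (X : ℕ → ∀ k, TwF (S.F k) M), Stp s w sg m D j X := by
  classical
  obtain ⟨t', ht', hs⟩ := ht.clean
  have h1 : ∀ i : ℕ, ∃ (D : ℕ) (x : ∀ k, TwF (S.F k) M), 1 ≤ i → i ≤ m → RowT s (sg i) j (w j * sg i) D x := by
    intro i
    by_cases hi : 1 ≤ i ∧ i ≤ m
    · obtain ⟨D, x, hx⟩ := exists_rowT (hr i hi.1 hi.2)
      exact ⟨D, x, fun _ _ => hx⟩
    · exact ⟨0, t', fun a b => absurd ⟨a, b⟩ hi⟩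
  choose D x hx using h1
  refine ⟨(Finset.range (m + 1)).sup D, fun i => if i = 0 then t' else x i, ?_, ?_, ?_⟩
  · rw [if_pos rfl]
    exact ht'
  · intro k
    rw [if_pos rfl]
    exact hs k
  · intro i h1 h2
    rw [if_neg (by omega)]
    exact (hx i h1 h2).mono (Finset.le_sup (f := D) (Finset.mem_range.mpr (by omega)))

section
variable {m : ℕ} {X : ℕ → ∀ k, TwF (S.F k) M} (Am : Ama (fun (a : Fin (m + 1)) k => (X a.val k).lab 0))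

/-- the projections -/
def qf (i : ℕ) (hi : i ≤ m) (k : ℕ) : FPj (Am.U k) (X i k).T := Am.q k ⟨i, Nat.lt_succ_of_le hi⟩

theorem qf_cm (i : ℕ) (hi : i ≤ m) (k : ℕ) (ω : (Am.U k).Ω) (hω : (Am.U k).μ ω ≠ 0) :
    (X i k).p.π ((qf Am i hi k).π ω) = (Am.p k).π ω := Am.cm k ⟨i, Nat.lt_succ_of_le hi⟩ ω hω

/-- the partitions: all towers of numbers `≤ i` -/
def Vg (i k : ℕ) : Setoid (Am.U k).Ω := Vf Am (fun i a => a ≤ i) i k

/-- frames -/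
def Pg (i k : ℕ) (ω : (Am.U k).Ω) : Fin M → MvPolynomial (Fin M) ℝ :=
  (X 0 k).P i ((qf Am 0 (Nat.zero_le m) k).π ω)

/-- the good event -/
def Ag (k : ℕ) (ω : (Am.U k).Ω) : Prop := (X 0 k).A ((qf Am 0 (Nat.zero_le m) k).π ω)

/-- rows -/
def pg (j : Fin M) (i k : ℕ) (ω : (Am.U k).Ω) : MvPolynomial (Fin M) ℝ :=
  if h : i ≤ m then (X i k).P 0 ((qf Am i h k).π ω) j else 0

theorem Vg_V {i a k : ℕ} (ha : a ≤ i) (ham : a ≤ m) {ω ω' : (Am.U k).Ω} (h : Vg Am i k ω ω') :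
    (X a k).V i ((qf Am a ham k).π ω) ((qf Am a ham k).π ω') := h ⟨a, Nat.lt_succ_of_le ham⟩ ha

/-- the label of a sequence of partitions -/
def Lg (i : ℕ) : Lab S := Am.lab (fun k => Vg Am i k)

variable [Countable ι] {s : MSys S M E ι} {w : Fin M → ℝ} {sg : ℕ → ℝ} {D : ℕ} {j : Fin M}
  (H : Stp s w sg m D j X)

include H

theorem Vg_anti (i k : ℕ) : Vg Am (i + 1) k ≤ Vg Am i k := by
  apply Vf_anti Am (fun i a => a ≤ i) (fun i a h => Nat.le_succ_of_le h)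
  intro a k i ha
  rcases Nat.eq_zero_or_pos a with h0 | h0
  · subst h0
    exact (H.str k).anti i
  · rw [(H.row a h0 ha).cst k (i + 1), (H.row a h0 ha).cst k i]

theorem Lg_DMc (hs : Monotone sg) {i : ℕ} (h1 : 1 ≤ i) (hi : i ≤ m) : s.DMc (sg i) (Lg Am i) := by
  intro κ
  apply Vf_nul Am (fun i a => a ≤ i) i (s.cnd (sg i) κ)
  intro a ha hai
  rcases Nat.eq_zero_or_pos a with h0 | h0
  · subst h0
    show Tendsto _ _ _
    rw [Metric.tendsto_nhds]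
    intro ε hε
    filter_upwards [H.tw (ε / 2) (by linarith)] with k hk
    have hn := (S.F k).pos
    have h2 := hk.leak i h1 hi κ
    rw [Real.dist_eq, sub_zero, abs_of_nonneg (div_nonneg (FLab.leak_nonneg _ _) hn.le), div_lt_iff₀ hn]
    nlinarith
  · have h2 := MSys.DMc.mono (hs hai) (H.row a h0 ha).dm κ
    have h3 : (fun k => ((X a k).lab i).leak (s.cnd (sg i) κ k)) =
        fun k => ((X a k).lab 0).leak (s.cnd (sg i) κ k) := by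
      funext k
      have h4 : (X a k).lab i = (X a k).lab 0 := by
        unfold TwF.lab
        rw [(H.row a h0 ha).cst k i]
      rw [h4]
    rw [h3]
    exact h2

theorem Lg_info {i : ℕ} (h1 : 1 ≤ i) (hi : i ≤ m) (η : ℝ) (hη : 0 < η) :
    ∀ᶠ k in UF, (s.kap (sg i)).info - η ≤ (Lg Am i k).info / (S.F k).n := by
  filter_upwards [H.tw η hη] with k hk
  refine (hk.info i h1 hi).trans (div_le_div_of_nonneg_right ?_ (S.F k).pos.le)
  exact Vf_info Am (fun i a => a ≤ i) (Nat.zero_le m) (Nat.zero_le i) k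

theorem Lg_kap (hs : Monotone sg) {i : ℕ} (h1 : 1 ≤ i) (hi : i ≤ m) : s.IsKap (sg i) (Lg Am i) :=
  isKap_of (Lg_DMc Am H hs h1 hi) (Lg_info Am H h1 hi)

theorem Pg_fr (i k : ℕ) (ω : (Am.U k).Ω) : Fr w j.val (Pg Am i k ω) := (H.str k).fr i _

theorem Pg_zero (k : ℕ) (ω : (Am.U k).Ω) (l : Fin M) : Pg Am 0 k ω l = 0 := (H.str k).zero _ l

theorem Pg_knw {i : ℕ} (hi : i ≤ m) {k : ℕ} {ω ω' : (Am.U k).Ω} (hω : (Am.U k).μ ω ≠ 0) (hω' : (Am.U k).μ ω' ≠ 0)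
    (hZ : (Am.U k).Z ω ω') (hV : Vg Am i k ω ω') : Pg Am i k ω = Pg Am i k ω' := by
  have hq := qf Am 0 (Nat.zero_le m) k
  exact (H.str k).meas i hi _ _ ((qf Am 0 (Nat.zero_le m) k).supp ω hω) ((qf Am 0 (Nat.zero_le m) k).supp ω' hω')
    (((qf Am 0 (Nat.zero_le m) k).hZ ω ω' hω hω').mp hZ) (Vg_V Am (Nat.zero_le i) (Nat.zero_le m) hV)

theorem Ag_typ : Am.sp.Typ (Ag Am) := Am.typ ⟨0, Nat.succ_pos m⟩ H.tw.typA

theorem Pg_sta (η : ℝ) (hη : 0 < η) : ∀ᶠ k in UF, ∀ ω, (Am.U k).μ ω ≠ 0 → Ag Am k ω →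
    Sta (2 ^ (S.F k).n) w sg m j.val (2 ^ (η * (S.F k).n)) (fun i => Pg Am i k ω) (s.Q.v k ((Am.p k).π ω)) := by
  filter_upwards [H.tw η hη] with k hk ω hω hA
  have h1 := hk.sta _ ((qf Am 0 (Nat.zero_le m) k).supp ω hω) hA
  rw [qf_cm Am 0 (Nat.zero_le m) k ω hω] at h1
  exact h1

theorem Pg_tame : ∃ K : ℕ → ℝ, S.Sub K ∧ (∀ k, 1 ≤ K k) ∧ ∀ᶠ k in UF, ∀ ω, (Am.U k).μ ω ≠ 0 → Ag Am k ω →
    Sta (2 ^ (S.F k).n) w sg m j.val (K k) (fun i => Pg Am i k ω) (s.Q.v k ((Am.p k).π ω)) := by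
  obtain ⟨K, hK, hK1, h1⟩ := tame_of_eta (S := S) (fun k B => ∀ ω, (Am.U k).μ ω ≠ 0 → Ag Am k ω →
    Sta (2 ^ (S.F k).n) w sg m j.val B (fun i => Pg Am i k ω) (s.Q.v k ((Am.p k).π ω))) (Pg_sta Am H)
  exact ⟨K, hK, hK1, h1⟩

theorem pg_deg (i k : ℕ) (ω : (Am.U k).Ω) : (pg Am j i k ω).totalDegree ≤ D := by
  unfold pg
  by_cases h : i ≤ m
  · rw [dif_pos h]
    rcases Nat.eq_zero_or_pos i with h0 | h0
    · subst h0
      rw [(H.str k).zero, MvPolynomial.totalDegree_zero]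
      exact Nat.zero_le D
    · exact (H.row i h0 h).deg k _
  · rw [dif_neg h, MvPolynomial.totalDegree_zero]
    exact Nat.zero_le D

theorem pg_vars (i k : ℕ) (ω : (Am.U k).Ω) : ∀ a ∈ (pg Am j i k ω).vars, a ≤ j := by
  unfold pg
  intro a ha
  by_cases h : i ≤ m
  · rw [dif_pos h] at ha
    rcases Nat.eq_zero_or_pos i with h0 | h0
    · subst h0
      rw [(H.str k).zero, MvPolynomial.vars_0] at ha
      exact absurd ha (Finset.notMem_empty _)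
    · exact (H.row i h0 h).vars k _ a ha
  · rw [dif_neg h, MvPolynomial.vars_0] at ha
    exact absurd ha (Finset.notMem_empty _)

theorem pg_knw {i : ℕ} (h1 : 1 ≤ i) (hi : i ≤ m) : Knw Am.sp (fun k => Vg Am i k) (pg Am j i) := by
  have h2 := (H.row i h1 hi).knw
  show ∀ᶠ k in UF, ∀ ω ω' : (Am.U k).Ω, (Am.U k).μ ω ≠ 0 → (Am.U k).μ ω' ≠ 0 → (Am.U k).Z ω ω' → Vg Am i k ω ω' →
    pg Am j i k ω = pg Am j i k ω'
  filter_upwards [h2] with k hk ω ω' hω hω' hZ hV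
  unfold pg
  rw [dif_pos hi, dif_pos hi]
  have h3 := Vg_V Am (le_refl i) hi hV
  rw [(H.row i h1 hi).cst k i] at h3
  exact hk _ _ ((qf Am i hi k).supp ω hω) ((qf Am i hi k).supp ω' hω') (((qf Am i hi k).hZ ω ω' hω hω').mp hZ) h3

theorem pg_bd {i : ℕ} (h1 : 1 ≤ i) (hi : i ≤ m) : ∃ K : ℕ → ℝ, S.Sub K ∧ Am.sp.Typ fun k (ω : (Am.U k).Ω) =>
    |MvPolynomial.eval (s.Q.v k ((Am.p k).π ω)) (pg Am j i k ω)| ≤ K k ∧
    2 ^ (w j * sg i * (S.F k).n) ≤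
      K k * |MvPolynomial.eval (s.Q.v k ((Am.p k).π ω)) (MvPolynomial.pderiv j (pg Am j i k ω))| := by
  obtain ⟨K, hK, hT⟩ := (H.row i h1 hi).bd
  refine ⟨K, hK, ?_⟩
  have h2 := Am.typ ⟨i, Nat.lt_succ_of_le hi⟩ (B := fun k ω =>
    (|MvPolynomial.eval (s.Q.v k ((X i k).p.π ω)) ((X i k).P 0 ω j)| ≤ K k ∧
      2 ^ (w j * sg i * (S.F k).n) ≤ K k * |MvPolynomial.eval (s.Q.v k ((X i k).p.π ω))
        (MvPolynomial.pderiv j ((X i k).P 0 ω j))|)) hT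
  refine h2.mono (Eventually.of_forall fun k ω hω h3 => ?_)
  have h4 := qf_cm Am i hi k ω hω
  have h5 : pg Am j i k ω = (X i k).P 0 ((qf Am i hi k).π ω) j := by
    unfold pg
    rw [dif_pos hi]
  rw [h5, ← h4]
  exact h3

end

end

end Pool.Agent.Helper85.FRM
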