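import Pool.Agent.Helper85.FRM.Tr

/-! FRT, step 3: the deterministic layer lemma LAY. -/

set_option autoImplicit false

namespace Pool.Agent.Helper85.FRM

open MvPolynomial Finset

variable {M : ℕ}

/-- abstract transitions of the layers below `j` between the windows `s 0 ≤ ... ≤ s m` -/
structure Trs (q : ℝ) (w : Fin M → ℝ) (s : ℕ → ℝ) (m : ℕ) (j : Fin M) (B : ℝ)
    (T : ℕ → ℕ → Fin M → MvPolynomial (Fin M) ℝ) : Prop where
  id : ∀ i, i ≤ m → ∀ a, a < j → T i i a = X a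
  comp : ∀ i l k, i ≤ l → l ≤ k → k ≤ m → ∀ a, a < j → bind₁ (T l k) (T i l a) = T i k a
  vars : ∀ i k, i ≤ k → k ≤ m → ∀ a, a < j → ∀ b ∈ (T i k a).vars, b ≤ a
  wd : ∀ i k, i ≤ k → k ≤ m → ∀ a, a < j → WD w (T i k a) (w a)
  nrm : ∀ i k, i ≤ k → k ≤ m → ∀ a, a < j → N q w (s k - s i) (T i k a) ≤ B

section
variable {q : ℝ} (hq : 1 ≤ q) {w : Fin M → ℝ} (hw : ∀ i, 1 ≤ w i) {s : ℕ → ℝ} {m : ℕ} {j : Fin M} {B : ℝ}
  {T : ℕ → ℕ → Fin M → MvPolynomial (Fin M) ℝ} (hT : Trs q w s m j B T)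
  {G : ℕ → MvPolynomial (Fin M) ℝ} (hGv : ∀ k, k ≤ m → ∀ a ∈ (G k).vars, a < j)

include hT in
theorem vars_bind_lt {i k : ℕ} (hik : i ≤ k) (hk : k ≤ m) {P : MvPolynomial (Fin M) ℝ} (hP : ∀ a ∈ P.vars, a < j) :
    ∀ a ∈ (bind₁ (T i k) P).vars, a < j := by
  classical
  intro a ha
  obtain ⟨b, hb, hab⟩ := Finset.mem_biUnion.mp (MvPolynomial.vars_bind₁ _ _ ha)
  exact lt_of_le_of_lt (hT.vars i k hik hk b (hP b hb) a hab) (hP b hb)

/-- the increments -/
noncomputable def inc (T : ℕ → ℕ → Fin M → MvPolynomial (Fin M) ℝ) (G : ℕ → MvPolynomial (Fin M) ℝ) (i : ℕ) :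
    MvPolynomial (Fin M) ℝ := G (i + 1) - bind₁ (T i (i + 1)) (G i)

theorem vars_sub_lt {P Q : MvPolynomial (Fin M) ℝ} (hP : ∀ a ∈ P.vars, a < j) (hQ : ∀ a ∈ Q.vars, a < j) :
    ∀ a ∈ (P - Q).vars, a < j := by
  classical
  intro a ha
  rcases Finset.mem_union.mp (MvPolynomial.vars_sub_subset _ ha) with h | h
  · exact hP a h
  · exact hQ a h

include hT hGv

theorem inc_vars {i : ℕ} (hi : i + 1 ≤ m) : ∀ a ∈ (inc T G i).vars, a < j := by
  unfold inc
  exact vars_sub_lt (hGv _ hi) (vars_bind_lt hT (Nat.le_succ i) hi (hGv i (by omega)))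

/-- telescoping -/
theorem tele (i k : ℕ) (hik : i ≤ k) (hk : k ≤ m) :
    G k - bind₁ (T i k) (G i) = ∑ l ∈ Finset.Ico i k, bind₁ (T (l + 1) k) (inc T G l) := by
  induction k, hik using Nat.le_induction with
  | base =>
    rw [Finset.Ico_self, Finset.sum_empty,
      bind_congr (T' := X) (G i) (fun a ha => hT.id i hk a (hGv i hk a ha)), bind_X, sub_self]
  | succ k hik ih =>
    have ih' := ih (by omega)
    rw [Finset.sum_Ico_succ_top hik]
    have h1 : bind₁ (T (k + 1) (k + 1)) (inc T G k) = inc T G k := by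
      rw [bind_congr (T' := X) (inc T G k) (fun a ha => hT.id (k + 1) hk a (inc_vars hT hGv hk a ha)), bind_X]
    have h2 : ∀ l ∈ Finset.Ico i k, bind₁ (T (l + 1) (k + 1)) (inc T G l) =
        bind₁ (T k (k + 1)) (bind₁ (T (l + 1) k) (inc T G l)) := by
      intro l hl
      rw [bind₁_bind₁]
      refine bind_congr _ fun a ha => ?_
      rw [Finset.mem_Ico] at hl
      exact (hT.comp (l + 1) k (k + 1) (by omega) (by omega) hk a (inc_vars hT hGv (by omega) a ha)).symm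
    rw [h1, Finset.sum_congr rfl h2, ← map_sum, ← ih', map_sub]
    have h3 : bind₁ (T k (k + 1)) (bind₁ (T i k) (G i)) = bind₁ (T i (k + 1)) (G i) := by
      rw [bind₁_bind₁]
      exact bind_congr _ fun a ha => hT.comp i k (k + 1) hik (by omega) hk a (hGv i (by omega) a ha)
    rw [h3]
    unfold inc
    ring

include hq hw

section
variable {e1 e2 : ℝ} (h0 : 0 ≤ e2) (hB2 : B ≤ q ^ e2) (hB1 : B ≤ q ^ (e1 - e2)) (h12 : e2 ≤ e1)
include h0 hB1 h12

theorem inc_hi {l k : ℕ} (hlk : l < k) (hk : k ≤ m) :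
    N q w (s k - s (l + 1) + e2) (bind₁ (T (l + 1) k) (inc T G l)) ≤ N q w e1 (inc T G l) := by
  have hq0 : (0 : ℝ) < q := by linarith
  refine N_bind hq w _ _ fun a ha => ?_
  have haj := inc_vars hT hGv (by omega) a ha
  rw [add_comm]
  refine (N_WD hq w (hT.wd (l + 1) k hlk hk a haj) h0).trans ?_
  have h1 := hT.nrm (l + 1) k hlk hk a haj
  refine (mul_le_mul_of_nonneg_left (h1.trans hB1) (Real.rpow_nonneg hq0.le _)).trans ?_
  rw [← Real.rpow_add hq0]
  refine Real.rpow_le_rpow_of_exponent_le hq ?_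
  nlinarith [hw a]

theorem inc_lo {l k : ℕ} (hlk : l < k) (hk : k ≤ m) :
    N q w (s k - s (l + 1)) (bind₁ (T (l + 1) k) (inc T G l)) ≤ N q w e1 (inc T G l) := by
  have hq0 : (0 : ℝ) < q := by linarith
  refine N_bind hq w _ _ fun a ha => ?_
  have haj := inc_vars hT hGv (by omega) a ha
  refine (hT.nrm (l + 1) k hlk hk a haj).trans (hB1.trans (Real.rpow_le_rpow_of_exponent_le hq ?_))
  nlinarith [hw a]

end

section
variable {e1 e2 d A : ℝ} (h0 : 0 ≤ e2) (hB2 : B ≤ q ^ e2) (hB1 : B ≤ q ^ (e1 - e2)) (h12 : e2 ≤ e1) (hA : 0 ≤ A)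
  (hs : Monotone s) (hs0 : s 0 = 0) (hd : ∀ i, s (i + 1) - s i ≤ d) (hG0 : G 0 = 0)
  (hf : ∀ i, i < m → N q w e1 (inc T G i) ≤ A * q ^ (-(w j * s i)))
include h0 hB1 h12 hA hs hs0 hd hG0 hf

/-- (C1) the high part of `G k` is invisible at window `s k` -/
theorem lay_hi {k : ℕ} (hk : k ≤ m) :
    N q w e2 (G k - lo w (w j) (G k)) ≤ k * (A * q ^ (w j * d)) * q ^ (-(w j * s k)) := by
  have hq0 : (0 : ℝ) < q := by linarith
  have hwj : 0 ≤ w j := by linarith [hw j]
  have h1 := tele hT hGv 0 k (Nat.zero_le k) hk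
  rw [hG0, map_zero, sub_zero] at h1
  have h2 : G k - lo w (w j) (G k) = ∑ l ∈ Finset.Ico 0 k, (bind₁ (T (l + 1) k) (inc T G l) -
      lo w (w j) (bind₁ (T (l + 1) k) (inc T G l))) := by
    rw [Finset.sum_sub_distrib, ← lo_sum, ← h1]
  rw [h2]
  refine (N_sum hq w e2 _ _).trans ?_
  have h3 : ∀ l ∈ Finset.Ico 0 k, N q w e2 (bind₁ (T (l + 1) k) (inc T G l) -
      lo w (w j) (bind₁ (T (l + 1) k) (inc T G l))) ≤ (A * q ^ (w j * d)) * q ^ (-(w j * s k)) := by
    intro l hl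
    rw [Finset.mem_Ico] at hl
    have hlk : l < k := hl.2
    have hsl : s (l + 1) ≤ s k := hs hlk
    refine (N_hi hq w (w j) (s k - s (l + 1)) e2 (by linarith) _).trans ?_
    have h4 := inc_hi hq hw hT hGv h0 hB1 h12 hlk hk
    have h5 := hf l (by omega)
    refine (mul_le_mul_of_nonneg_left (h4.trans h5) (Real.rpow_nonneg hq0.le _)).trans ?_
    rw [mul_left_comm, mul_assoc]
    refine mul_le_mul_of_nonneg_left ?_ hA
    rw [← Real.rpow_add hq0, ← Real.rpow_add hq0]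
    refine Real.rpow_le_rpow_of_exponent_le hq ?_
    nlinarith [hd l]
  refine (Finset.sum_le_sum h3).trans (le_of_eq ?_)
  rw [Finset.sum_const, Nat.card_Ico, Nat.sub_zero, nsmul_eq_mul]
  ring

/-- the low part of the increments -/
theorem lay_lo {i k : ℕ} (hik : i ≤ k) (hk : k ≤ m) :
    N q w (s k - s i) (lo w (w j) (G k - bind₁ (T i k) (G i))) ≤ (k - i : ℕ) * (A * q ^ (w j * d)) * q ^ (-(w j * s i)) := by
  have hq0 : (0 : ℝ) < q := by linarith
  have hwj : 0 ≤ w j := by linarith [hw j]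
  rw [tele hT hGv i k hik hk, lo_sum]
  refine (N_sum hq w _ _ _).trans ?_
  have h3 : ∀ l ∈ Finset.Ico i k, N q w (s k - s i) (lo w (w j) (bind₁ (T (l + 1) k) (inc T G l))) ≤
      (A * q ^ (w j * d)) * q ^ (-(w j * s i)) := by
    intro l hl
    rw [Finset.mem_Ico] at hl
    have hlk : l < k := hl.2
    have hsl : s i ≤ s (l + 1) := hs (by omega)
    have e3 : s k - s i = (s (l + 1) - s i) + (s k - s (l + 1)) := by ring
    rw [e3]
    refine (N_lo hq w (w j) (s (l + 1) - s i) (s k - s (l + 1)) (by linarith) _).trans ?_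
    have h4 := inc_lo hq hw hT hGv h0 hB1 h12 hlk hk
    have h5 := hf l (by omega)
    refine (mul_le_mul_of_nonneg_left (h4.trans h5) (Real.rpow_nonneg hq0.le _)).trans ?_
    rw [mul_left_comm, mul_assoc]
    refine mul_le_mul_of_nonneg_left ?_ hA
    rw [← Real.rpow_add hq0, ← Real.rpow_add hq0]
    refine Real.rpow_le_rpow_of_exponent_le hq ?_
    nlinarith [hd l]
  refine (Finset.sum_le_sum h3).trans (le_of_eq ?_)
  rw [Finset.sum_const, Nat.card_Ico, nsmul_eq_mul]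
  ring

/-- (C2) the frame is tame in the unscaled variables -/
theorem lay_tame {k : ℕ} (hk : k ≤ m) : N q w (s k) (lo w (w j) (G k)) ≤ k * (A * q ^ (w j * d)) := by
  have h1 := lay_lo hq hw hT hGv h0 hB1 h12 hA hs hs0 hd hG0 hf (Nat.zero_le k) hk
  rw [hG0, map_zero, sub_zero, hs0, sub_zero, mul_zero, neg_zero, Real.rpow_zero, mul_one, Nat.sub_zero] at h1
  exact h1

include hB2

/-- (C3) the new transitions -/
theorem lay_tr {i k : ℕ} (hik : i ≤ k) (hk : k ≤ m) :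
    N q w (s k - s i) (C (q ^ (w j * s i)) * (lo w (w j) (G k) - bind₁ (T i k) (lo w (w j) (G i))) +
      C (q ^ (-(w j * (s k - s i)))) * X j) ≤ 1 + k * (A * q ^ (w j * d)) := by
  have hq0 : (0 : ℝ) < q := by linarith
  have hwj : 0 ≤ w j := by linarith [hw j]
  have hi : i ≤ m := hik.trans hk
  have hnn : ∀ x : ℝ, 0 ≤ q ^ x := fun x => Real.rpow_nonneg hq0.le x
  -- the low part is closed under the transitions
  have hlow : ∀ a ∈ (lo w (w j) (G k) - bind₁ (T i k) (lo w (w j) (G i))).support, wd w a < w j := by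
    classical
    intro a ha
    rcases Finset.mem_union.mp (MvPolynomial.support_sub _ _ _ ha) with h | h
    · exact (mem_lo h).1
    · obtain ⟨b, hb, hab⟩ := wd_bind (w := w) (T i k) _
        (fun c hc => hT.wd i k hik hk c (hGv i hi c (lo_vars w (w j) _ hc))) h
      exact lt_of_le_of_lt hab (mem_lo hb).1
  have h1 : lo w (w j) (G k) - bind₁ (T i k) (lo w (w j) (G i)) =
      lo w (w j) (G k - bind₁ (T i k) (G i)) + lo w (w j) (bind₁ (T i k) (G i - lo w (w j) (G i))) := by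
    conv_lhs => rw [← lo_eq_self hlow]
    rw [← lo_add, map_sub, lo_sub, lo_add, lo_sub, lo_sub, lo_eq_self (fun a ha => (mem_lo ha).1)]
    ring
  have h2 := lay_lo hq hw hT hGv h0 hB1 h12 hA hs hs0 hd hG0 hf hik hk
  have h3 : N q w (s k - s i) (lo w (w j) (bind₁ (T i k) (G i - lo w (w j) (G i)))) ≤
      i * (A * q ^ (w j * d)) * q ^ (-(w j * s i)) := by
    refine (N_lo_le hq w (w j) _ _).trans ((N_bind hq w (r := e2) _ _ fun a ha => ?_).trans
      (lay_hi hq hw hT hGv h0 hB1 h12 hA hs hs0 hd hG0 hf hi))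
    have haj : a < j := hGv i hi a (hi_vars w (w j) _ ha)
    refine (hT.nrm i k hik hk a haj).trans (hB2.trans (Real.rpow_le_rpow_of_exponent_le hq ?_))
    nlinarith [hw a]
  have h4 : N q w (s k - s i) (lo w (w j) (G k) - bind₁ (T i k) (lo w (w j) (G i))) ≤
      k * (A * q ^ (w j * d)) * q ^ (-(w j * s i)) := by
    rw [h1]
    refine (N_add hq w _ _ _).trans ((add_le_add h2 h3).trans (le_of_eq ?_))
    rw [Nat.cast_sub hik]
    ring
  have h5 : N q w (s k - s i) (C (q ^ (-(w j * (s k - s i)))) * X j) ≤ 1 := by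
    refine (N_C_mul hq w _ _ _).trans (le_of_eq ?_)
    rw [N_X, abs_of_nonneg (hnn _), ← Real.rpow_add hq0]
    have : -(w j * (s k - s i)) + (s k - s i) * w j = 0 := by ring
    rw [this, Real.rpow_zero]
  have h6 : N q w (s k - s i) (C (q ^ (w j * s i)) * (lo w (w j) (G k) - bind₁ (T i k) (lo w (w j) (G i)))) ≤
      k * (A * q ^ (w j * d)) := by
    refine (N_C_mul hq w _ _ _).trans ?_
    rw [abs_of_nonneg (hnn _)]
    refine (mul_le_mul_of_nonneg_left h4 (hnn _)).trans (le_of_eq ?_)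
    have : q ^ (w j * s i) * q ^ (-(w j * s i)) = 1 := by
      rw [← Real.rpow_add hq0, add_neg_cancel, Real.rpow_zero]
    calc q ^ (w j * s i) * (k * (A * q ^ (w j * d)) * q ^ (-(w j * s i)))
        = k * (A * q ^ (w j * d)) * (q ^ (w j * s i) * q ^ (-(w j * s i))) := by ring
      _ = k * (A * q ^ (w j * d)) := by rw [this, mul_one]
  refine (N_add hq w _ _ _).trans ?_
  linarith

end

end

end Pool.Agent.Helper85.FRM
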