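import Pool.Agent.Helper85.FRM.Tr
import Pool.Agent.Helper77.WDG.Nrm

/-! FRT, step 5: Lipschitz bounds for the coordinates of a frame and for transitions; the coordinates as polynomials. -/

set_option autoImplicit false

namespace Pool.Agent.Helper85.FRM

open MvPolynomial Finset
open Pool.Agent.Helper77.WDG (prod_sub_le deg_le_wt sum_le_totalDegree totalDegree_bind_le mem_vars_of_support)

section
variable {σ : Type*} [Fintype σ]

theorem deg_le_wd {w : σ → ℝ} (hw : ∀ i, 1 ≤ w i) (a : σ →₀ ℕ) : ((∑ i ∈ a.support, a i : ℕ) : ℝ) ≤ wd w a := by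
  have h := deg_le_wt hw a
  exact h

theorem totalDegree_le_of_WD {w : σ → ℝ} (hw : ∀ i, 1 ≤ w i) {P : MvPolynomial σ ℝ} {B : ℝ} {d : ℕ} (hP : WD w P B)
    (hd : B ≤ d) : P.totalDegree ≤ d := by
  unfold MvPolynomial.totalDegree
  refine Finset.sup_le fun a ha => ?_
  have h1 := (deg_le_wd hw a).trans ((hP a ha).trans hd)
  exact_mod_cast h1

theorem wi_le_wd {w : σ → ℝ} (hw : ∀ i, 1 ≤ w i) {a : σ →₀ ℕ} {i : σ} (hi : a i ≠ 0) : w i ≤ wd w a := by
  unfold wd
  have h1 : (a i : ℝ) * w i ≤ ∑ l, (a l : ℝ) * w l :=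
    Finset.single_le_sum (f := fun l => (a l : ℝ) * w l)
      (fun l _ => mul_nonneg (Nat.cast_nonneg _) (by linarith [hw l])) (Finset.mem_univ i)
  have h3 : (1 : ℝ) ≤ a i := by exact_mod_cast Nat.one_le_iff_ne_zero.mpr hi
  nlinarith [hw i]

variable {q : ℝ} (hq : 1 ≤ q) (w : σ → ℝ) (hw : ∀ i, 1 ≤ w i)
include hq hw

/-- variation of a polynomial: differences measured in the unscaled variables -/
theorem lipP {s : ℝ} (hs : 0 ≤ s) {R D : ℝ} (hR : 1 ≤ R) (hD : 0 ≤ D) {d : ℕ} {P : MvPolynomial σ ℝ}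
    (hd : P.totalDegree ≤ d) {x x' : σ → ℝ} (hx : ∀ i ∈ P.vars, |x i| ≤ R) (hx' : ∀ i ∈ P.vars, |x' i| ≤ R)
    (hxx : ∀ i ∈ P.vars, |x i - x' i| ≤ q ^ (s * w i) * D) :
    |eval x P - eval x' P| ≤ N q w s P * (d * R ^ d * D) := by
  have hq0 : (0 : ℝ) < q := by linarith
  have hR0 : (0 : ℝ) ≤ R := by linarith
  rw [MvPolynomial.eval_eq, MvPolynomial.eval_eq, ← Finset.sum_sub_distrib, N_eq hq, Finset.sum_mul]
  refine (Finset.abs_sum_le_sum_abs _ _).trans (Finset.sum_le_sum fun a ha => ?_)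
  rw [← mul_sub, abs_mul, mul_assoc]
  refine mul_le_mul_of_nonneg_left ?_ (abs_nonneg _)
  have hv : ∀ i ∈ a.support, i ∈ P.vars := fun i hi => mem_vars_of_support ha (Finsupp.mem_support_iff.1 hi)
  have h1 := prod_sub_le a.support (T := R) (δ := q ^ (s * wd w a) * D) hR (m := fun i => a i)
    (fun i hi => hx i (hv i hi)) (fun i hi => hx' i (hv i hi)) (fun i hi => (hxx i (hv i hi)).trans
      (mul_le_mul_of_nonneg_right (Real.rpow_le_rpow_of_exponent_le hq
        (mul_le_mul_of_nonneg_left (wi_le_wd hw (Finsupp.mem_support_iff.1 hi)) hs)) hD))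
  refine h1.trans ?_
  have h2 : ∑ i ∈ a.support, a i ≤ d := (sum_le_totalDegree ha).trans hd
  have h3 : (∑ i ∈ a.support, (a i : ℝ)) ≤ d := by exact_mod_cast h2
  have h4 : R ^ (∑ i ∈ a.support, a i) ≤ R ^ d := pow_le_pow_right₀ hR h2
  have h5 : (∑ i ∈ a.support, (a i : ℝ)) * R ^ (∑ i ∈ a.support, a i) ≤ d * R ^ d :=
    mul_le_mul h3 h4 (pow_nonneg hR0 _) (Nat.cast_nonneg _)
  have h6 : 0 ≤ q ^ (s * wd w a) * D := mul_nonneg (Real.rpow_nonneg hq0.le _) hD
  calc _ ≤ (d * R ^ d) * (q ^ (s * wd w a) * D) := mul_le_mul_of_nonneg_right h5 h6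
    _ = q ^ (s * wd w a) * (d * R ^ d * D) := by ring

/-- variation of a polynomial with gains `q ^ (-s)` -/
theorem varP {s : ℝ} (hs : 0 ≤ s) {R : ℝ} (hR : 1 ≤ R) {d : ℕ} {P : MvPolynomial σ ℝ}
    (hd : P.totalDegree ≤ d) {x x' : σ → ℝ} (hx : ∀ i ∈ P.vars, |x i| ≤ R) (hx' : ∀ i ∈ P.vars, |x' i| ≤ R) :
    |eval x P - eval x' P| ≤ N q w s P * (d * R ^ d * (2 * R * q ^ (-s))) := by
  have hq0 : (0 : ℝ) < q := by linarith
  have hR0 : (0 : ℝ) ≤ R := by linarith
  refine lipP hq w hw hs hR (by positivity) hd hx hx' fun i hi => ?_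
  have h1 : |x i - x' i| ≤ 2 * R := by
    have := abs_sub (x i) (x' i)
    linarith [hx i hi, hx' i hi]
  have h2 : 1 ≤ q ^ (s * w i) * q ^ (-s) := by
    rw [← Real.rpow_add hq0]
    refine Real.one_le_rpow hq ?_
    nlinarith [hw i]
  calc |x i - x' i| ≤ 2 * R * 1 := by linarith
    _ ≤ 2 * R * (q ^ (s * w i) * q ^ (-s)) := mul_le_mul_of_nonneg_left h2 (by linarith)
    _ = q ^ (s * w i) * (2 * R * q ^ (-s)) := by ring

end

variable {M : ℕ} {q : ℝ} {w : Fin M → ℝ}

theorem Fr.deg {J : ℕ} {P : Fin M → MvPolynomial (Fin M) ℝ} (h : Fr w J P) (hw : ∀ i, 1 ≤ w i) {d : ℕ}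
    (hd : ∀ l, w l ≤ d) (l : Fin M) (hl : l.val < J) : (P l).totalDegree ≤ d :=
  totalDegree_le_of_WD hw (fun a ha => (h.wd l hl a ha).le) (hd l)

/-- the Lipschitz constant of the coordinates -/
noncomputable def Lc (d : ℕ) (B : ℝ) : ℝ := 1 + B * (d * (B + 1) ^ d)

theorem Lc_one {d : ℕ} {B : ℝ} (hB : 1 ≤ B) : 1 ≤ Lc d B := by
  unfold Lc
  have : 0 ≤ B * (d * (B + 1) ^ d) := by positivity
  linarith

/-- LIPSCHITZ bound of the coordinates of a frame -/
theorem co_lip (hq : 1 ≤ q) (hw : ∀ i, 1 ≤ w i) {s : ℝ} (hs : 0 ≤ s) {J : ℕ} {P : Fin M → MvPolynomial (Fin M) ℝ}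
    (hP : Fr w J P) {B : ℝ} (hB : 1 ≤ B) {d : ℕ} (hd : ∀ l, w l ≤ d) (hn : ∀ l : Fin M, l.val < J → N q w s (P l) ≤ B)
    {x x' : Fin M → ℝ} (hy : ∀ l : Fin M, l.val < J → |co q w s P x l| ≤ B) {ρ : ℝ} (hρ : 0 ≤ ρ)
    (hx : ∀ l : Fin M, l.val < J → |x l - x' l| ≤ ρ)
    (h1 : ∀ l : Fin M, l.val < J → q ^ (w l * s) * (Lc d B ^ (l.val + 1) * ρ) ≤ 1) (l : Fin M) (hl : l.val < J) :
    |co q w s P x l - co q w s P x' l| ≤ q ^ (w l * s) * (Lc d B ^ (l.val + 1) * ρ) := by
  have hq0 : (0 : ℝ) < q := by linarith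
  have hL1 : 1 ≤ Lc d B := Lc_one hB
  induction l using WellFoundedLT.induction with
  | ind l ih =>
    rw [co_eq s x (hP.vars l hl), co_eq s x' (hP.vars l hl), ← mul_sub, abs_mul,
      abs_of_nonneg (Real.rpow_nonneg hq0.le _)]
    refine mul_le_mul_of_nonneg_left ?_ (Real.rpow_nonneg hq0.le _)
    have hlt : ∀ i ∈ (P l).vars, i.val < J := fun i hi => lt_trans (hP.vars l hl i hi) hl
    have h2 := lipP hq w hw hs (R := B + 1) (D := Lc d B ^ l.val * ρ) (by linarith) (by positivity)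
      (hP.deg hw hd l hl) (x := co q w s P x) (x' := co q w s P x')
      (fun i hi => (hy i (hlt i hi)).trans (by linarith)) (fun i hi => by
        have h3 := ih i (hP.vars l hl i hi) (hlt i hi)
        have h4 := h1 i (hlt i hi)
        have h5 := hy i (hlt i hi)
        have h6 : |co q w s P x' i| ≤ |co q w s P x i| + |co q w s P x i - co q w s P x' i| := by
          have := abs_sub (co q w s P x i) (co q w s P x i - co q w s P x' i)
          rwa [sub_sub_cancel] at this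
        linarith) (fun i hi => by
        have h3 := ih i (hP.vars l hl i hi) (hlt i hi)
        refine h3.trans ?_
        rw [mul_comm (w i) s]
        refine mul_le_mul_of_nonneg_left ?_ (Real.rpow_nonneg hq0.le _)
        refine mul_le_mul_of_nonneg_right ?_ hρ
        refine pow_le_pow_right₀ hL1 ?_
        exact hP.vars l hl i hi)
    have h3 := hn l hl
    have h4 : N q w s (P l) * (d * (B + 1) ^ d * (Lc d B ^ l.val * ρ)) ≤
        B * (d * (B + 1) ^ d * (Lc d B ^ l.val * ρ)) := mul_le_mul_of_nonneg_right h3 (by positivity)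
    have h5 := hx l hl
    have e1 : x l - eval (co q w s P x) (P l) - (x' l - eval (co q w s P x') (P l)) =
        (x l - x' l) - (eval (co q w s P x) (P l) - eval (co q w s P x') (P l)) := by ring
    rw [e1]
    refine (abs_sub _ _).trans ?_
    have e2 : Lc d B ^ (l.val + 1) * ρ = Lc d B ^ l.val * ρ + B * (d * (B + 1) ^ d * (Lc d B ^ l.val * ρ)) := by
      rw [pow_succ]
      unfold Lc
      ring
    have h6 : ρ ≤ Lc d B ^ l.val * ρ := le_mul_of_one_le_left hρ (one_le_pow₀ hL1)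
    linarith

/-- the coordinates as polynomials of the point -/
noncomputable def cop (q : ℝ) (w : Fin M → ℝ) (a : ℝ) (P : Fin M → MvPolynomial (Fin M) ℝ) (l : Fin M) :
    MvPolynomial (Fin M) ℝ :=
  C (q ^ (w l * a)) * (X l - bind₁ (fun m => if _h : m < l then cop q w a P m else 0) (P l))
termination_by l

theorem eval_cop (a : ℝ) (P : Fin M → MvPolynomial (Fin M) ℝ) (x : Fin M → ℝ) (l : Fin M) :
    eval x (cop q w a P l) = co q w a P x l := by
  induction l using WellFoundedLT.induction with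
  | ind l ih =>
    rw [cop, co, map_mul, map_sub, eval_C, eval_X, eval_bind]
    congr 2
    refine eval_congr _ fun i _ => ?_
    by_cases hi : i < l
    · rw [dif_pos hi, dif_pos hi]
      exact ih i hi
    · rw [dif_neg hi, dif_neg hi, map_zero]

theorem deg_cop (hw : ∀ i, 1 ≤ w i) (a : ℝ) {J : ℕ} {P : Fin M → MvPolynomial (Fin M) ℝ} (hP : Fr w J P) {d : ℕ}
    (hd : ∀ l, w l ≤ d) (l : Fin M) (hl : l.val < J) : (cop q w a P l).totalDegree ≤ (d + 1) ^ (l.val + 1) := by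
  induction l using WellFoundedLT.induction with
  | ind l ih =>
    rw [cop]
    refine (MvPolynomial.totalDegree_mul _ _).trans ?_
    rw [MvPolynomial.totalDegree_C, zero_add]
    refine (MvPolynomial.totalDegree_sub _ _).trans (max_le ?_ ?_)
    · rw [MvPolynomial.totalDegree_X]
      exact Nat.one_le_pow _ _ (Nat.succ_pos d)
    · refine (totalDegree_bind_le (E := (d + 1) ^ l.val) (hP.deg hw hd l hl) _ fun i hi => ?_).trans ?_
      · rw [dif_pos (hP.vars l hl i hi)]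
        refine (ih i (hP.vars l hl i hi) (lt_trans (hP.vars l hl i hi) hl)).trans ?_
        exact Nat.pow_le_pow_right (Nat.succ_pos d) (hP.vars l hl i hi)
      · rw [pow_succ, mul_comm]
        exact Nat.mul_le_mul_left _ (Nat.le_succ d)

end Pool.Agent.Helper85.FRM
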