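import Pool.Agent.Helper85.FRM.Fst

/-! FRT, the layer step on a fine grid. -/

set_option autoImplicit false

namespace Pool.Agent.Helper85.FRM

open Finset Filter Topology Pool.Agent.Helper69.RK Pool.Agent.Helper31.EC Pool.Agent.Helper31.EC.Sp
open Pool.Agent.Helper40.EL Pool.Agent.Helper89.LX Pool.Agent.Helper3.LF Pool.Agent.Helper84.MT Pool.Agent.Helper36.AM
open Pool.Agent.Helper66.MT (cndB cndB_eq)
open Pool.Agent.Helper59.LF (fadd fadd_leak)

noncomputable section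

variable {S : Sp} {M : ℕ} {E : ℕ → ℕ} {ι : Type}

/-- replace by zero what is not a frame -/
def cln (w : Fin M → ℝ) (J : ℕ) (P : Fin M → MvPolynomial (Fin M) ℝ) : Fin M → MvPolynomial (Fin M) ℝ :=
  open Classical in if Fr w J P then P else 0

theorem cln_fr (w : Fin M → ℝ) (J : ℕ) (P : Fin M → MvPolynomial (Fin M) ℝ) : Fr w J (cln w J P) := by
  unfold cln
  split_ifs with h
  · exact h
  · exact Fr_zero w J

theorem cln_eq {w : Fin M → ℝ} {J : ℕ} {P : Fin M → MvPolynomial (Fin M) ℝ} (h : Fr w J P) : cln w J P = P := by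
  unfold cln
  rw [if_pos h]

theorem cln_zero (w : Fin M → ℝ) (J : ℕ) : cln w J (0 : Fin M → MvPolynomial (Fin M) ℝ) = 0 := cln_eq (Fr_zero w J)

section
variable {m : ℕ} {X : ℕ → ∀ k, TwF (S.F k) M} (Am : Ama (fun (a : Fin (m + 1)) k => (X a.val k).lab 0))
  [Countable ι] {s : MSys S M E ι} {w : Fin M → ℝ} {sg : ℕ → ℝ} {D : ℕ} {j : Fin M}
  (H : Stp s w sg m D j X)

/-- the conclusion of INPJ for the data of the layer step -/
structure Out (s : MSys S M E ι) (w : Fin M → ℝ) (sg : ℕ → ℝ) (j : Fin M) (ε : ℝ)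
    (W : ℕ → ∀ k, Setoid (Am.U k).Ω) (G : ℕ → ∀ k, (Am.U k).Ω → MvPolynomial (Fin M) ℝ) : Prop where
  det : ∀ i, i ≤ m → Det (S := Am.sp) (fun k => Vg Am i k) (W i)
    (fun k ω => co (2 ^ (S.F k).n) w (sg i) (Pg Am i k ω) (s.Q.v k ((Am.p k).π ω))) j ε
  knw : ∀ i, i ≤ m → Knw Am.sp (fun k => Vg Am i k ⊓ W i k) (G i)
  inp : ∃ K : ℕ → ℝ, S.Sub K ∧ Am.sp.Typ fun k (ω : (Am.U k).Ω) =>
      Inp (2 ^ (S.F k).n) w sg m j (fun i => Pg Am i k ω) (s.Q.v k ((Am.p k).π ω)) (fun i => G i k ω) ε (K k)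

include H

theorem exists_out (hI : INPJ) (hw : ∀ l, 1 ≤ w l) {d : ℕ} (hd : ∀ l, w l ≤ d) (hsg0 : sg 0 = 0) (hs : Monotone sg)
    {ε : ℝ} (hε : 0 < ε) (hst : ∀ i, i < m → ε < sg (i + 1) - sg i) (hws : ∀ l, w l * sg m + ε < 1)
    (hnum : ∀ i, 1 ≤ i → i ≤ m → ∀ l : Lab S, s.IsKap (sg i) l →
      Tendsto (fun k => h ((l k).p.map (pre s.Q j.val k)) (l k).v / (S.F k).n) UF
        (𝓝 (∑ l : Fin M, if l < j then 1 - w l * sg i else 0))) :
    ∃ (W : ℕ → ∀ k, Setoid (Am.U k).Ω) (G : ℕ → ∀ k, (Am.U k).Ω → MvPolynomial (Fin M) ℝ), Out Am s w sg j ε W G := by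
  have h1 := hI M w d m D sg j ε hw hd hsg0 hs hε hst hws Am.sp (Am.pj.vv s.Q) (fun i k => Vg Am i k)
    (fun i k ω => Pg Am i k ω) (Ag Am) (pg Am j) (Vg_anti Am H) (Pg_fr Am H) (Pg_zero Am H)
    (fun i hi => Eventually.of_forall fun k ω ω' a b c e => Pg_knw Am H hi a b c e) (Ag_typ Am H) (by
      intro η hη
      have h2 := Pg_sta Am H η hη
      show ∀ᶠ k in UF, ∀ ω : (Am.U k).Ω, (Am.U k).μ ω ≠ 0 → Ag Am k ω →
        Sta (2 ^ (Am.U k).n) w sg m j.val (2 ^ (η * (Am.U k).n)) (fun i => Pg Am i k ω) (s.Q.v k ((Am.p k).π ω))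
      simp only [Am.hn]
      exact h2) (by
      intro i h2 h3
      have h4 := hnum i h2 h3 _ (Lg_kap Am H hs h2 h3)
      refine h4.congr fun k => ?_
      have e1 : (Lg Am i k).p.map (pre s.Q j.val k) = pre (S := Am.sp) (Am.pj.vv s.Q) j.val k := by
        unfold pre
        rw [FPj.map_fc]
        congr 1
        have e2 : ∀ ω : (Am.U k).Ω, (Am.pj.vv s.Q).cellv 1 k ω = s.Q.cellv 1 k ((Am.p k).π ω) := by
          intro ω
          unfold Sp.VV.cellv
          rw [Am.dl_eq]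
          rfl
        ext ω ω'
        show ((fun i : Fin M => if i.val < j.val then s.Q.cellv 1 k ((Am.p k).π ω) i else 0) =
          fun i : Fin M => if i.val < j.val then s.Q.cellv 1 k ((Am.p k).π ω') i else 0) ↔
          ((fun i : Fin M => if i.val < j.val then (Am.pj.vv s.Q).cellv 1 k ω i else 0) =
          fun i : Fin M => if i.val < j.val then (Am.pj.vv s.Q).cellv 1 k ω' i else 0)
        have e3 : ∀ ω : (Am.U k).Ω, (fun i : Fin M => if i.val < j.val then s.Q.cellv 1 k ((Am.p k).π ω) i else 0) =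
            fun i : Fin M => if i.val < j.val then (Am.pj.vv s.Q).cellv 1 k ω i else 0 := fun ω =>
          congrArg (fun (z : Fin M → ℤ) (i : Fin M) => if i.val < j.val then z i else 0) (e2 ω).symm
        exact Eq.congr (e3 ω) (e3 ω')
      rw [e1, Am.n_eq]
      rfl) (pg_deg Am H) (pg_vars Am H) (fun i a b => pg_knw Am H a b) (by
      intro i h2 h3
      obtain ⟨K, hK, hT⟩ := pg_bd Am H h2 h3
      refine ⟨K, Am.Sub_iff.mpr hK, ?_⟩
      refine hT.mono (Eventually.of_forall fun k ω hω h4 => ?_)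
      show |MvPolynomial.eval (s.Q.v k ((Am.p k).π ω)) (pg Am j i k ω)| ≤ K k ∧
        2 ^ (w j * sg i * (Am.U k).n) ≤
          K k * |MvPolynomial.eval (s.Q.v k ((Am.p k).π ω)) (MvPolynomial.pderiv j (pg Am j i k ω))|
      rw [Am.hn]
      exact h4)
  obtain ⟨W, G, a1, a2, K, hK, a3⟩ := h1
  refine ⟨W, G, ⟨?_, a2, K, Am.Sub_iff.mp hK, ?_⟩⟩
  · intro i hi
    have h2 := a1 i hi
    have h3 : (fun (k : ℕ) (ω : (Am.U k).Ω) => co (2 ^ (Am.U k).n) w (sg i) (Pg Am i k ω) (s.Q.v k ((Am.p k).π ω))) =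
        fun k ω => co (2 ^ (S.F k).n) w (sg i) (Pg Am i k ω) (s.Q.v k ((Am.p k).π ω)) := by
      funext k ω
      rw [Am.hn]
    exact Eq.mp (congrArg (fun f => Det (S := Am.sp) (fun k => Vg Am i k) (W i) f j ε) h3) h2
  · refine a3.mono (Eventually.of_forall fun k ω hω h4 => ?_)
    have h5 : Inp (2 ^ (Am.U k).n) w sg m j (fun i => Pg Am i k ω) (s.Q.v k ((Am.p k).π ω)) (fun i => G i k ω) ε (K k) :=
      h4
    rw [Am.hn] at h5
    exact h5

omit H in
/-- the partitions `W a`, `1 ≤ a < i` -/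
def Wm (W : ℕ → ∀ k, Setoid (Am.U k).Ω) (i k : ℕ) : Setoid (Am.U k).Ω where
  r := fun ω ω' => ∀ a, 1 ≤ a → a < i → W a k ω ω'
  iseqv := ⟨fun _ a _ _ => (W a k).refl _, fun h a h1 h2 => (W a k).symm (h a h1 h2),
    fun h h' a h1 h2 => (W a k).trans (h a h1 h2) (h' a h1 h2)⟩

omit H in
/-- the partitions of the next tower -/
def Vn (W : ℕ → ∀ k, Setoid (Am.U k).Ω) (i k : ℕ) : Setoid (Am.U k).Ω := Vg Am i k ⊓ Wm Am W i k

omit H in
theorem nul_sp {f : ℕ → ℝ} : Nul Am.sp f ↔ Nul S f := by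
  unfold Nul
  have h1 : (fun k => f k / (Am.sp.F k).n) = fun k => f k / (S.F k).n := by
    funext k
    rw [Am.n_eq]
  rw [h1]

theorem Vg_anti' {i a k : ℕ} (h : a ≤ i) : Vg Am i k ≤ Vg Am a k :=
  V_anti (V := fun i => Vg Am i k) (fun i => Vg_anti Am H i k) h

theorem step_leak (hw : ∀ l, 1 ≤ w l) {d : ℕ} (hd : ∀ l, w l ≤ d) (hsg0 : sg 0 = 0) (hs : Monotone sg)
    {ε : ℝ} (hε : 0 < ε) (hgap : ∀ a i, a < i → i ≤ m → sg a + ε ≤ sg i) (hws : ∀ l, w l * sg m + ε < 1)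
    {W : ℕ → ∀ k, Setoid (Am.U k).Ω} {G : ℕ → ∀ k, (Am.U k).Ω → MvPolynomial (Fin M) ℝ}
    (O : Out Am s w sg j ε W G) {i : ℕ} (h1 : 1 ≤ i) (hi : i ≤ m) (κ : Option ι) :
    Nul S (fun k => (FLab.mk (Am.U k) (Am.p k) (Am.hn k) (Vn Am W i k)).leak (s.cnd (sg i) κ k)) := by
  set C : ∀ k, Setoid (Am.U k).Ω := fun k => Vg Am i k ⊓ Setoid.comap (Am.p k).π (cndB s (sg i) κ k) with hC
  obtain ⟨K, hK, hK1, hKs⟩ := Pg_tame Am H
  have key : ∀ a, 1 ≤ a → a < i → PLe (S := Am.sp) (fun k => fc (W a k)) (fun k => fc (C k)) := by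
    intro a ha hai
    have ham : a ≤ m := by omega
    have hsa : 0 ≤ sg a := by
      rw [← hsg0]
      exact hs (Nat.zero_le a)
    obtain ⟨K', A', hK', hA', h2⟩ := co_win s hw hd (Lg Am a) hsa (Lg_DMc Am H hs ha ham) hε (hgap a i hai hi) j
      (fun l => by
        have h3 := hws l
        have h4 : w l * sg a ≤ w l * sg m := mul_le_mul_of_nonneg_left (hs ham) (by linarith [hw l])
        linarith) (fun k ω => Pg Am a k ω) (fun k ω => Pg_fr Am H a k ω)
      (Eventually.of_forall fun k ω ω' e1 e2 e3 e4 => Pg_knw Am H ham e1 e2 e3 e4) hK hK1 (Ag_typ Am H) (by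
        filter_upwards [hKs] with k hk ω hω hA l hl
        have h5 := hk ω hω hA
        exact ⟨h5.pn a ham l hl, h5.yn a ham l hl⟩) κ
    have h6 := O.det a ham C ⟨K', A', Am.Sub_iff.mpr hK', hA', by
      filter_upwards [h2] with k hk ω ω' e1 e2 e3 e4 e5 e6 e7 l hl
      rw [Am.dl_eq]
      exact hk ω ω' e1 e2 e3 e4 e5 e6 e7.2 l hl⟩
    have h7 : (fun k => h (fc (W a k) : FL (Am.U k)) (fc (Vg Am a k ⊓ C k))) =
        fun k => h (fc (W a k) : FL (Am.U k)) (fc (C k)) := by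
      funext k
      have h8 : Vg Am a k ⊓ C k = C k := inf_eq_right.mpr (inf_le_left.trans (Vg_anti' Am H hai.le))
      rw [h8]
    exact Eq.mp (congrArg (fun f => Nul Am.sp f) h7) h6
  have hP : ∀ i', i' ≤ i → PLe (S := Am.sp) (fun k => fc (Wm Am W i' k)) (fun k => fc (C k)) := by
    intro i'
    induction i' with
    | zero =>
      intro _
      exact PLe_of_le (S := Am.sp) fun k => fc_mono fun _ _ _ a _ ha => absurd ha (Nat.not_lt_zero a)
    | succ i' ih =>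
      intro hi'
      rcases Nat.eq_zero_or_pos i' with h0 | h0
      · subst h0
        exact PLe_of_le (S := Am.sp) fun k => fc_mono fun _ _ _ a ha1 ha => absurd ha (by omega)
      · refine PLe.trans (PLe_of_le (S := Am.sp) fun k => ?_) (PLe.sup_le (ih (by omega)) (key i' h0 (by omega)))
        show fc (Wm Am W (i' + 1) k) ≤ fc (Wm Am W i' k ⊓ W i' k)
        apply fc_mono
        intro ω ω' h2 a ha1 ha
        rcases Nat.lt_or_ge a i' with h3 | h3
        · exact h2.1 a ha1 h3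
        · have h4 : a = i' := by omega
          rw [h4]
          exact h2.2
  have h2 : Nul S (fun k => h (fc (Wm Am W i k) : FL (Am.U k)) (fc (C k))) := (nul_sp Am).mp (hP i le_rfl)
  have h3 := Lg_DMc Am H hs h1 hi κ
  refine (h3.add h2).of_le (Eventually.of_forall fun k => FLab.leak_nonneg _ _) (Eventually.of_forall fun k => ?_)
  have h4 := fadd_leak (Lg Am i k) (Wm Am W i k) (s.cnd (sg i) κ k)
  have h5 : (Lg Am i k).v ⊔ (Lg Am i k).p.map (s.cnd (sg i) κ k) = fc (C k) := by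
    have h6 : s.cnd (sg i) κ k = fc (cndB s (sg i) κ k) := by
      have := congrFun (congrFun (cndB_eq s (sg i)) κ) k
      exact this.symm
    rw [h6]
    rfl
  rw [h5] at h4
  exact h4

omit H in
/-- the layer polynomials, zero at the window `0` -/
def Gn (G : ℕ → ∀ k, (Am.U k).Ω → MvPolynomial (Fin M) ℝ) (k : ℕ) (ω : (Am.U k).Ω) (i : ℕ) :
    MvPolynomial (Fin M) ℝ := if i = 0 then 0 else G i k ω

omit H in
/-- the frames of the next tower -/
def Pn (w : Fin M → ℝ) (sg : ℕ → ℝ) (j : Fin M) (G : ℕ → ∀ k, (Am.U k).Ω → MvPolynomial (Fin M) ℝ) (k i : ℕ)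
    (ω : (Am.U k).Ω) : Fin M → MvPolynomial (Fin M) ℝ :=
  cln w (j.val + 1) (nxt (2 ^ (S.F k).n) w sg (fun i => Pg Am i k ω) 1 (Gn Am G k ω) j i)

omit H in
/-- the next tower -/
def Tn (w : Fin M → ℝ) (sg : ℕ → ℝ) (j : Fin M) (W : ℕ → ∀ k, Setoid (Am.U k).Ω)
    (G : ℕ → ∀ k, (Am.U k).Ω → MvPolynomial (Fin M) ℝ) (A : ∀ k, (Am.U k).Ω → Prop) (k : ℕ) : TwF (S.F k) M where
  T := Am.U k
  p := Am.p k
  hn := Am.hn k
  V := fun i => Vn Am W i k
  P := Pn Am w sg j G k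
  A := A k

theorem Pn_zero (G : ℕ → ∀ k, (Am.U k).Ω → MvPolynomial (Fin M) ℝ) (k : ℕ) (ω : (Am.U k).Ω) (l : Fin M) :
    Pn Am w sg j G k 0 ω l = 0 := by
  have h1 : nxt (2 ^ (S.F k).n) w sg (fun i => Pg Am i k ω) 1 (Gn Am G k ω) j 0 = 0 := by
    have h2 : shG (2 ^ (S.F k).n) w sg (fun i => Pg Am i k ω) 1 (Gn Am G k ω) 0 = 0 := shG_zero (by
      unfold Gn
      rw [if_pos rfl]) (Nat.zero_le 1)
    funext l
    unfold nxt
    by_cases hl : l = j
    · rw [hl, Function.update_self, h2, lo_zero]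
      rfl
    · rw [Function.update_of_ne hl]
      exact Pg_zero Am H k ω l
  unfold Pn
  rw [h1, cln_zero]
  rfl

theorem Pn_meas {ε : ℝ} {W : ℕ → ∀ k, Setoid (Am.U k).Ω} {G : ℕ → ∀ k, (Am.U k).Ω → MvPolynomial (Fin M) ℝ}
    (O : Out Am s w sg j ε W G) {i : ℕ} (hi : i ≤ m) : ∀ᶠ k in UF, ∀ ω ω', (Am.U k).μ ω ≠ 0 → (Am.U k).μ ω' ≠ 0 →
      (Am.U k).Z ω ω' → Vn Am W i k ω ω' → Pn Am w sg j G k i ω = Pn Am w sg j G k i ω' := by
  have h1 := O.knw (i - 1) (by omega)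
  filter_upwards [h1] with k hk ω ω' hω hω' hZ hV
  have e1 : Pg Am i k ω = Pg Am i k ω' := Pg_knw Am H hi hω hω' hZ hV.1
  have hV' : Vg Am (i - 1) k ω ω' := Vg_anti' Am H (Nat.sub_le i 1) hV.1
  have e2 : Pg Am (i - 1) k ω = Pg Am (i - 1) k ω' := Pg_knw Am H (by omega) hω hω' hZ hV'
  have e3 : Gn Am G k ω (i - 1) = Gn Am G k ω' (i - 1) := by
    unfold Gn
    by_cases h0 : i - 1 = 0
    · rw [if_pos h0, if_pos h0]
    · rw [if_neg h0, if_neg h0]
      exact hk ω ω' hω hω' hZ ⟨hV', hV.2 (i - 1) (by omega) (by omega)⟩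
  unfold Pn nxt shG trg
  simp only [e1, e2, e3]

/-- THE LAYER STEP on a fine grid -/
theorem fine_step [Finite ι] (hF : FAMP) (hI : INPJ) (hw : ∀ l, 1 ≤ w l) {d : ℕ} (hd : ∀ l, w l ≤ d) {c : ℝ} (hc : 0 < c)
    (hm : 1 ≤ m) (hsg : ∀ i, sg i = i * (c / m)) {η : ℝ} (hη : 0 < η) (hδη : 4 * d * (c / m) ≤ η)
    (hws : ∀ l, w l * c + c / m < 1)
    (hnum : ∀ i, 1 ≤ i → i ≤ m → ∀ l : Lab S, s.IsKap (sg i) l →
      Tendsto (fun k => h ((l k).p.map (pre s.Q j.val k)) (l k).v / (S.F k).n) UF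
        (𝓝 (∑ l : Fin M, if l < j then 1 - w l * sg i else 0))) :
    ∃ t : ∀ k, TwF (S.F k) M, ∀ᶠ k in UF, TwF.Ok s w sg m (j.val + 1) η k (t k) := by
  obtain ⟨Am⟩ := exists_ama hF (fun (a : Fin (m + 1)) k => (X a.val k).lab 0)
  have hm0 : (0 : ℝ) < m := by exact_mod_cast hm
  set δ : ℝ := c / m with hδ
  have hδ0 : 0 < δ := div_pos hc hm0
  have hd1 : (1 : ℝ) ≤ d := (hw j).trans (hd j)
  have hsg0 : sg 0 = 0 := by
    rw [hsg, Nat.cast_zero, zero_mul]
  have hstep : ∀ i, sg (i + 1) - sg i = δ := by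
    intro i
    rw [hsg, hsg]
    push_cast
    ring
  have hs : Monotone sg := monotone_nat_of_le_succ fun i => by linarith [hstep i]
  have hsgm : sg m = c := by
    rw [hsg, hδ]
    field_simp
  set ε : ℝ := δ / (4 * d) with hε'
  have hε : 0 < ε := by positivity
  have hεδ : ε < δ := by
    rw [hε', div_lt_iff₀ (by linarith)]
    nlinarith
  have hεd : ε * d = δ / 4 := by
    rw [hε']
    field_simp
  have hwsε : ∀ l, w l * sg m + ε < 1 := fun l => by
    rw [hsgm]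
    linarith [hws l]
  have hgap : ∀ a i, a < i → i ≤ m → sg a + ε ≤ sg i := by
    intro a i hai _
    have h1 : sg (a + 1) ≤ sg i := hs hai
    linarith [hstep a]
  obtain ⟨W, G, O⟩ := exists_out Am H hI hw hd hsg0 hs hε (fun i _ => by rw [hstep i]; exact hεδ) hwsε hnum
  obtain ⟨K1, hK1, hT1⟩ := O.inp
  obtain ⟨K0, hK0, hK01, hS0⟩ := Pg_tame Am H
  -- the good event
  set A' : ∀ k, (Am.U k).Ω → Prop := fun k ω => Ag Am k ω ∧
    Inp (2 ^ (S.F k).n) w sg m j (fun i => Pg Am i k ω) (s.Q.v k ((Am.p k).π ω)) (fun i => G i k ω) ε (K1 k) with hA'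
  have hTA : Am.sp.Typ A' := typ_and (Ag_typ Am H) hT1
  refine ⟨Tn Am w sg j W G A', ?_⟩
  -- leaks
  have hl : ∀ᶠ k in UF, ∀ (i : Fin (m + 1)) (a : Option ι), 1 ≤ i.val →
      ((Tn Am w sg j W G A' k).lab i.val).leak (s.cnd (sg i.val) a k) ≤ η * (S.F k).n := by
    rw [Filter.eventually_all]
    intro i
    rw [Filter.eventually_all]
    intro a
    by_cases hi : 1 ≤ i.val
    · have h2 := nul_ev (step_leak Am H hw hd hsg0 hs hε hgap hwsε O hi (by have := i.isLt; omega) a) hη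
      filter_upwards [h2] with k hk _ using hk
    · exact Eventually.of_forall fun k h => absurd h hi
  have hi' : ∀ᶠ k in UF, ∀ i : Fin (m + 1), 1 ≤ i.val →
      (s.kap (sg i.val)).info - η ≤ ((Tn Am w sg j W G A' k).lab i.val).info / (S.F k).n := by
    rw [Filter.eventually_all]
    intro i
    by_cases hi : 1 ≤ i.val
    · filter_upwards [Lg_info Am H hi (by have := i.isLt; omega) η hη] with k hk _
      refine hk.trans (div_le_div_of_nonneg_right ?_ (S.F k).pos.le)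
      exact Pool.Agent.Helper59.LF.fadd_info_ge (Lg Am i.val k) (Wm Am W i.val k)
    · exact Eventually.of_forall fun k h => absurd h hi
  have hmeas : ∀ᶠ k in UF, ∀ i : Fin (m + 1), ∀ ω ω', (Am.U k).μ ω ≠ 0 → (Am.U k).μ ω' ≠ 0 →
      (Am.U k).Z ω ω' → Vn Am W i.val k ω ω' → Pn Am w sg j G k i.val ω = Pn Am w sg j G k i.val ω' := by
    rw [Filter.eventually_all]
    intro i
    exact Pn_meas Am H O (by have := i.isLt; omega)
  have hTA' : Tendsto (fun k => (Am.U k).pb (fun ω => ¬ A' k ω)) UF (𝓝 0) := hTA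
  have hKη : S.Sub (fun k => K0 k + (1 + (m + 1) * K1 k)) := hK0.add ((S.Sub_const zero_le_one).add
    ((S.Sub_const (by positivity : (0 : ℝ) ≤ (m : ℝ) + 1)).mul hK1))
  filter_upwards [hl, hi', hmeas, hTA'.eventually (gt_mem_nhds hη), hS0, hK0.eventually_le (show 0 < δ / 8 by linarith),
    hK1.1, hKη.eventually_le (show 0 < η / 2 by linarith), hK0.1] with k g1 g2 g3 g4 g5 g6 g7 g8 g9
  have hn := (S.F k).pos
  have hq1 : (1 : ℝ) ≤ 2 ^ (S.F k).n := Real.one_le_rpow (by norm_num) hn.le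
  refine ⟨fun i h1 h2 a => g1 ⟨i, by omega⟩ a h1, fun i h1 h2 => g2 ⟨i, by omega⟩ h1, fun i => ?_, fun i ω => ?_,
    fun ω l => Pn_zero Am H G k ω l, fun i h2 => g3 ⟨i, by omega⟩, g4.le, fun ω hω hA => ?_⟩
  · intro ω ω' h1
    exact ⟨Vg_anti Am H i k h1.1, fun a ha1 ha => h1.2 a ha1 (Nat.lt_succ_of_lt ha)⟩
  · exact cln_fr _ _ _
  · have hSt := g5 ω hω hA.1
    have hIn := hA.2
    have hIn' : Inp (2 ^ (S.F k).n) w sg m j (fun i => Pg Am i k ω) (s.Q.v k ((Am.p k).π ω)) (Gn Am G k ω) ε (K1 k) := by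
      have h1 : Gn Am G k ω = fun i => G i k ω := by
        funext i
        unfold Gn
        by_cases h0 : i = 0
        · rw [if_pos h0, h0]
          exact hIn.zero.symm
        · rw [if_neg h0]
      rw [h1]
      exact hIn
    have hB1 : K0 k ≤ ((2 : ℝ) ^ (S.F k).n) ^ (δ / 8) := by
      rw [two_pow_eq]
      linarith
    have h8 := layer hq1 hw hs hsg0 (d := δ) (fun i => (hstep i).le) hSt hIn' 1 (b := δ / 8) (W := d) hε.le
      (by linarith) hB1 hd g7 (fun k' => by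
        rw [hstep]
        have e1 : (2 : ℝ) * ((2 : ℝ) ^ (S.F k).n) ^ (-(δ - 2 * (δ / 8))) * K0 k ≤
            ((2 : ℝ) ^ (S.F k).n) ^ (-(δ - 2 * (δ / 8))) * (((2 : ℝ) ^ (S.F k).n) ^ (δ / 8) * ((2 : ℝ) ^ (S.F k).n) ^ (δ / 8)) := by
          have h9 : (2 : ℝ) ≤ ((2 : ℝ) ^ (S.F k).n) ^ (δ / 8) := by
            rw [two_pow_eq]
            linarith
          have h10 : 2 * K0 k ≤ ((2 : ℝ) ^ (S.F k).n) ^ (δ / 8) * ((2 : ℝ) ^ (S.F k).n) ^ (δ / 8) :=
            mul_le_mul h9 hB1 g9 (by linarith)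
          calc _ = ((2 : ℝ) ^ (S.F k).n) ^ (-(δ - 2 * (δ / 8))) * (2 * K0 k) := by ring
            _ ≤ _ := mul_le_mul_of_nonneg_left h10 (by positivity)
        refine e1.trans ?_
        have hq0 : (0 : ℝ) < 2 ^ (S.F k).n := by linarith
        rw [← Real.rpow_add hq0, ← Real.rpow_add hq0]
        apply Real.rpow_le_rpow_of_exponent_le hq1
        have : -ε * d = -(δ / 4) := by
          rw [← hεd]
          ring
        linarith) (B' := 2 ^ (η * (S.F k).n)) (by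
        have h9 : (2 : ℝ) ^ (η / 2 * (S.F k).n) ≤ 2 ^ (η * (S.F k).n) :=
          Real.rpow_le_rpow_of_exponent_le (by norm_num) (by nlinarith)
        have h10 : 0 ≤ (m + 1) * K1 k := by positivity
        linarith) (by
        have h9 : ((2 : ℝ) ^ (S.F k).n) ^ (w j * (((1 : ℕ) + 1) * δ)) ≤ 2 ^ (η / 2 * (S.F k).n) := by
          rw [two_pow_eq]
          apply Real.rpow_le_rpow_of_exponent_le (by norm_num)
          apply mul_le_mul_of_nonneg_right _ hn.le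
          have h10 := hd j
          push_cast
          nlinarith
        have h10 : (1 : ℝ) ≤ 2 ^ (η / 2 * (S.F k).n) := Real.one_le_rpow (by norm_num) (by positivity)
        have h11 : 0 ≤ (m + 1) * K1 k := by positivity
        have h12 : (m + 1) * (K1 k * ((2 : ℝ) ^ (S.F k).n) ^ (w j * (((1 : ℕ) + 1) * δ))) ≤
            (m + 1) * K1 k * 2 ^ (η / 2 * (S.F k).n) := by
          rw [← mul_assoc]
          exact mul_le_mul_of_nonneg_left h9 h11
        have h13 : (1 : ℝ) + (m + 1) * K1 k ≤ 2 ^ (η / 2 * (S.F k).n) := by linarith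
        have h14 : (2 : ℝ) ^ (η / 2 * (S.F k).n) * 2 ^ (η / 2 * (S.F k).n) = 2 ^ (η * (S.F k).n) := by
          rw [← Real.rpow_add (by norm_num)]
          congr 1
          ring
        calc _ ≤ 1 * 2 ^ (η / 2 * (S.F k).n) + (m + 1) * K1 k * 2 ^ (η / 2 * (S.F k).n) := by linarith
          _ = (1 + (m + 1) * K1 k) * 2 ^ (η / 2 * (S.F k).n) := by ring
          _ ≤ 2 ^ (η / 2 * (S.F k).n) * 2 ^ (η / 2 * (S.F k).n) := mul_le_mul_of_nonneg_right h13 (by positivity)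
          _ = _ := h14) (fun k' => by
        rw [hstep]
        linarith)
    exact h8.congr fun i hi => (cln_eq (h8.fr i hi)).symm

end

end

end Pool.Agent.Helper85.FRM
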