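import Mathlib

/-! FRT (reduced triangular frames), step 1: the majorant norm `maj v P = Σ |coeff a P| v^a`, weighted degrees. -/

set_option autoImplicit false

namespace Pool.Agent.Helper85.FRM

open MvPolynomial Finset

variable {σ : Type*} [Fintype σ]

/-- MAJORANT NORM at the point `v` -/
noncomputable def maj (v : σ → ℝ) (P : MvPolynomial σ ℝ) : ℝ := ∑ a ∈ P.support, |P.coeff a| * ∏ i, v i ^ a i

theorem maj_eq (v : σ → ℝ) (P : MvPolynomial σ ℝ) (s : Finset (σ →₀ ℕ)) (hs : P.support ⊆ s) :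
    maj v P = ∑ a ∈ s, |P.coeff a| * ∏ i, v i ^ a i := by
  unfold maj
  refine Finset.sum_subset hs fun _ _ ha => ?_
  rw [MvPolynomial.notMem_support_iff.mp ha, abs_zero, zero_mul]

theorem maj_nonneg {v : σ → ℝ} (hv : ∀ i, 0 ≤ v i) (P : MvPolynomial σ ℝ) : 0 ≤ maj v P :=
  Finset.sum_nonneg fun a _ => mul_nonneg (abs_nonneg _) (Finset.prod_nonneg fun i _ => pow_nonneg (hv i) _)

theorem maj_zero (v : σ → ℝ) : maj v 0 = 0 := by
  unfold maj
  rw [MvPolynomial.support_zero, Finset.sum_empty]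

theorem maj_add {v : σ → ℝ} (hv : ∀ i, 0 ≤ v i) (P Q : MvPolynomial σ ℝ) : maj v (P + Q) ≤ maj v P + maj v Q := by
  classical
  rw [maj_eq v (P + Q) (P.support ∪ Q.support) (MvPolynomial.support_add), maj_eq v P (P.support ∪ Q.support)
    Finset.subset_union_left, maj_eq v Q (P.support ∪ Q.support) Finset.subset_union_right, ← Finset.sum_add_distrib]
  refine Finset.sum_le_sum fun a _ => ?_
  rw [MvPolynomial.coeff_add, ← add_mul]
  exact mul_le_mul_of_nonneg_right (abs_add_le _ _) (Finset.prod_nonneg fun i _ => pow_nonneg (hv i) _)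

theorem maj_neg (v : σ → ℝ) (P : MvPolynomial σ ℝ) : maj v (-P) = maj v P := by
  unfold maj
  rw [MvPolynomial.support_neg]
  refine Finset.sum_congr rfl fun a _ => ?_
  rw [MvPolynomial.coeff_neg, abs_neg]

theorem maj_sub {v : σ → ℝ} (hv : ∀ i, 0 ≤ v i) (P Q : MvPolynomial σ ℝ) : maj v (P - Q) ≤ maj v P + maj v Q := by
  rw [sub_eq_add_neg, ← maj_neg v Q]
  exact maj_add hv P (-Q)

theorem maj_sum {v : σ → ℝ} (hv : ∀ i, 0 ≤ v i) {β : Type*} (s : Finset β) (f : β → MvPolynomial σ ℝ) :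
    maj v (∑ b ∈ s, f b) ≤ ∑ b ∈ s, maj v (f b) := by
  classical
  induction s using Finset.induction_on with
  | empty => rw [Finset.sum_empty, Finset.sum_empty, maj_zero]
  | insert b s hb ih =>
    rw [Finset.sum_insert hb, Finset.sum_insert hb]
    exact (maj_add hv _ _).trans (by linarith)

theorem maj_monomial (v : σ → ℝ) (a : σ →₀ ℕ) (c : ℝ) : maj v (monomial a c) = |c| * ∏ i, v i ^ a i := by
  classical
  rw [maj_eq v _ {a} (MvPolynomial.support_monomial_subset), Finset.sum_singleton, MvPolynomial.coeff_monomial,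
    if_pos rfl]

theorem maj_C (v : σ → ℝ) (c : ℝ) : maj v (C c) = |c| := by
  rw [C_apply, maj_monomial]
  simp

theorem maj_X (v : σ → ℝ) (i : σ) : maj v (X i) = v i := by
  classical
  unfold X
  rw [maj_monomial, abs_one, one_mul, Finset.prod_eq_single i]
  · rw [Finsupp.single_eq_same, pow_one]
  · intro j _ hj
    rw [Finsupp.single_eq_of_ne hj, pow_zero]
  · intro h
    exact absurd (Finset.mem_univ i) h

theorem maj_mul {v : σ → ℝ} (hv : ∀ i, 0 ≤ v i) (P Q : MvPolynomial σ ℝ) : maj v (P * Q) ≤ maj v P * maj v Q := by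
  classical
  have h1 : P * Q = ∑ a ∈ P.support, ∑ b ∈ Q.support, monomial (a + b) (P.coeff a * Q.coeff b) := by
    conv_lhs => rw [P.as_sum, Q.as_sum]
    rw [Finset.sum_mul_sum]
    simp only [MvPolynomial.monomial_mul]
  rw [h1]
  refine (maj_sum hv _ _).trans ((Finset.sum_le_sum fun a _ => maj_sum hv _ _).trans (le_of_eq ?_))
  unfold maj
  rw [Finset.sum_mul_sum]
  refine Finset.sum_congr rfl fun a _ => Finset.sum_congr rfl fun b _ => ?_
  have h2 := maj_monomial v (a + b) (P.coeff a * Q.coeff b)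
  unfold maj at h2
  rw [h2, abs_mul]
  have h3 : ∏ i, v i ^ (a + b) i = (∏ i, v i ^ a i) * ∏ i, v i ^ b i := by
    rw [← Finset.prod_mul_distrib]
    refine Finset.prod_congr rfl fun i _ => ?_
    rw [Finsupp.add_apply, pow_add]
  rw [h3]
  ring

theorem maj_C_mul {v : σ → ℝ} (hv : ∀ i, 0 ≤ v i) (c : ℝ) (P : MvPolynomial σ ℝ) : maj v (C c * P) ≤ |c| * maj v P := by
  have := maj_mul hv (C c) P
  rwa [maj_C] at this

theorem maj_one (v : σ → ℝ) : maj v 1 = 1 := by
  rw [← C_1, maj_C, abs_one]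

theorem maj_pow {v : σ → ℝ} (hv : ∀ i, 0 ≤ v i) (P : MvPolynomial σ ℝ) (n : ℕ) : maj v (P ^ n) ≤ maj v P ^ n := by
  induction n with
  | zero => rw [pow_zero, pow_zero, maj_one]
  | succ n ih =>
    rw [pow_succ, pow_succ]
    exact (maj_mul hv _ _).trans (mul_le_mul_of_nonneg_right ih (maj_nonneg hv _))

theorem maj_prod {v : σ → ℝ} (hv : ∀ i, 0 ≤ v i) {β : Type*} (s : Finset β) (f : β → MvPolynomial σ ℝ) :
    maj v (∏ b ∈ s, f b) ≤ ∏ b ∈ s, maj v (f b) := by
  classical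
  induction s using Finset.induction_on with
  | empty => rw [Finset.prod_empty, Finset.prod_empty, maj_one]
  | insert b s hb ih =>
    rw [Finset.prod_insert hb, Finset.prod_insert hb]
    exact (maj_mul hv _ _).trans (mul_le_mul_of_nonneg_left ih (maj_nonneg hv _))

theorem exp_zero_of_notMem {P : MvPolynomial σ ℝ} {a : σ →₀ ℕ} (ha : a ∈ P.support) {i : σ} (hi : i ∉ P.vars) : a i = 0 := by
  by_contra h
  exact hi ((MvPolynomial.mem_vars_iff_mem_support i).mpr ⟨a, ha, Finsupp.mem_support_iff.mpr h⟩)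

/-- monotone in the point; only the variables of `P` matter -/
theorem maj_mono {v v' : σ → ℝ} (P : MvPolynomial σ ℝ) (h0 : ∀ i ∈ P.vars, 0 ≤ v i) (h : ∀ i ∈ P.vars, v i ≤ v' i) :
    maj v P ≤ maj v' P := by
  refine Finset.sum_le_sum fun a ha => mul_le_mul_of_nonneg_left ?_ (abs_nonneg _)
  refine Finset.prod_le_prod (fun i _ => ?_) fun i _ => ?_
  · by_cases hi : i ∈ P.vars
    · exact pow_nonneg (h0 i hi) _
    · rw [exp_zero_of_notMem ha hi, pow_zero]
      exact zero_le_one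
  · by_cases hi : i ∈ P.vars
    · exact pow_le_pow_left₀ (h0 i hi) (h i hi) _
    · rw [exp_zero_of_notMem ha hi, pow_zero, pow_zero]

theorem bind_eq (T : σ → MvPolynomial σ ℝ) (P : MvPolynomial σ ℝ) :
    bind₁ T P = ∑ a ∈ P.support, C (P.coeff a) * ∏ i, T i ^ a i := by
  rw [bind₁, aeval_def, eval₂_eq']
  rfl

/-- COMPOSITION -/
theorem maj_bind {v : σ → ℝ} (hv : ∀ i, 0 ≤ v i) (T : σ → MvPolynomial σ ℝ) (P : MvPolynomial σ ℝ) (u : σ → ℝ)
    (hu : ∀ i ∈ P.vars, maj v (T i) ≤ u i) : maj v (bind₁ T P) ≤ maj u P := by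
  rw [bind_eq]
  refine (maj_sum hv _ _).trans (Finset.sum_le_sum fun a ha => ?_)
  refine (maj_C_mul hv _ _).trans (mul_le_mul_of_nonneg_left ?_ (abs_nonneg _))
  refine (maj_prod hv _ _).trans (Finset.prod_le_prod (fun i _ => maj_nonneg hv _) fun i _ => ?_)
  refine (maj_pow hv _ _).trans ?_
  by_cases hi : i ∈ P.vars
  · exact pow_le_pow_left₀ (maj_nonneg hv _) (hu i hi) _
  · rw [exp_zero_of_notMem ha hi, pow_zero, pow_zero]

theorem eval_le_maj {v : σ → ℝ} (P : MvPolynomial σ ℝ) (x : σ → ℝ) (hx : ∀ i ∈ P.vars, |x i| ≤ v i) :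
    |eval x P| ≤ maj v P := by
  rw [eval_eq']
  refine (Finset.abs_sum_le_sum_abs _ _).trans (Finset.sum_le_sum fun a ha => ?_)
  rw [abs_mul, Finset.abs_prod]
  refine mul_le_mul_of_nonneg_left (Finset.prod_le_prod (fun i _ => abs_nonneg _) fun i _ => ?_) (abs_nonneg _)
  rw [abs_pow]
  by_cases hi : i ∈ P.vars
  · exact pow_le_pow_left₀ (abs_nonneg _) (hx i hi) _
  · rw [exp_zero_of_notMem ha hi, pow_zero, pow_zero]

theorem coeff_le_maj {v : σ → ℝ} (hv : ∀ i, 0 ≤ v i) (P : MvPolynomial σ ℝ) (a : σ →₀ ℕ) :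
    |P.coeff a| * ∏ i, v i ^ a i ≤ maj v P := by
  by_cases ha : a ∈ P.support
  · exact Finset.single_le_sum (f := fun a => |P.coeff a| * ∏ i, v i ^ a i)
      (fun a _ => mul_nonneg (abs_nonneg _) (Finset.prod_nonneg fun i _ => pow_nonneg (hv i) _)) ha
  · rw [MvPolynomial.notMem_support_iff.mp ha, abs_zero, zero_mul]
    exact maj_nonneg hv P

/-! ### weighted degree -/

/-- weighted degree of a monomial -/
def wd (w : σ → ℝ) (a : σ →₀ ℕ) : ℝ := ∑ i, (a i : ℝ) * w i

theorem wd_add (w : σ → ℝ) (a b : σ →₀ ℕ) : wd w (a + b) = wd w a + wd w b := by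
  unfold wd
  rw [← Finset.sum_add_distrib]
  refine Finset.sum_congr rfl fun i _ => ?_
  rw [Finsupp.add_apply]
  push_cast
  ring

theorem wd_zero (w : σ → ℝ) : wd w 0 = 0 := by
  unfold wd
  simp

/-- all monomials of `P` have weighted degree at most `B` -/
def WD (w : σ → ℝ) (P : MvPolynomial σ ℝ) (B : ℝ) : Prop := ∀ a ∈ P.support, wd w a ≤ B

theorem WD.mul {w : σ → ℝ} {P Q : MvPolynomial σ ℝ} {A B : ℝ} (hP : WD w P A) (hQ : WD w Q B) : WD w (P * Q) (A + B) := by
  classical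
  intro a ha
  obtain ⟨b, hb, c, hc, rfl⟩ := Finset.mem_add.mp (MvPolynomial.support_mul P Q ha)
  rw [wd_add]
  exact add_le_add (hP b hb) (hQ c hc)

theorem WD.add {w : σ → ℝ} {P Q : MvPolynomial σ ℝ} {A : ℝ} (hP : WD w P A) (hQ : WD w Q A) : WD w (P + Q) A := by
  classical
  intro a ha
  rcases Finset.mem_union.mp (MvPolynomial.support_add ha) with h | h
  · exact hP a h
  · exact hQ a h

theorem WD.neg {w : σ → ℝ} {P : MvPolynomial σ ℝ} {A : ℝ} (hP : WD w P A) : WD w (-P) A := by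
  intro a ha
  rw [MvPolynomial.support_neg] at ha
  exact hP a ha

theorem WD.sub {w : σ → ℝ} {P Q : MvPolynomial σ ℝ} {A : ℝ} (hP : WD w P A) (hQ : WD w Q A) : WD w (P - Q) A := by
  rw [sub_eq_add_neg]
  exact hP.add hQ.neg

theorem WD.C (w : σ → ℝ) (c : ℝ) : WD w (MvPolynomial.C c) 0 := by
  classical
  intro a ha
  rw [MvPolynomial.C_apply] at ha
  have := MvPolynomial.support_monomial_subset ha
  rw [Finset.mem_singleton] at this
  rw [this, wd_zero]

theorem WD.mono {w : σ → ℝ} {P : MvPolynomial σ ℝ} {A B : ℝ} (hP : WD w P A) (h : A ≤ B) : WD w P B :=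
  fun a ha => (hP a ha).trans h

theorem WD.C_mul {w : σ → ℝ} {P : MvPolynomial σ ℝ} {A : ℝ} (c : ℝ) (hP : WD w P A) : WD w (MvPolynomial.C c * P) A := by
  have := (WD.C w c).mul hP
  rwa [zero_add] at this

theorem WD.X [DecidableEq σ] (w : σ → ℝ) (i : σ) : WD w (MvPolynomial.X i : MvPolynomial σ ℝ) (w i) := by
  intro a ha
  unfold MvPolynomial.X at ha
  have := MvPolynomial.support_monomial_subset ha
  rw [Finset.mem_singleton] at this
  rw [this]
  unfold wd
  rw [Finset.sum_eq_single i]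
  · rw [Finsupp.single_eq_same, Nat.cast_one, one_mul]
  · intro j _ hj
    rw [Finsupp.single_eq_of_ne hj, Nat.cast_zero, zero_mul]
  · intro h
    exact absurd (Finset.mem_univ i) h

theorem WD.pow {w : σ → ℝ} {P : MvPolynomial σ ℝ} {A : ℝ} (hP : WD w P A) (n : ℕ) : WD w (P ^ n) (n * A) := by
  induction n with
  | zero =>
    rw [pow_zero, Nat.cast_zero, zero_mul, ← MvPolynomial.C_1]
    exact WD.C w 1
  | succ n ih =>
    rw [pow_succ]
    have := ih.mul hP
    have e1 : ((n + 1 : ℕ) : ℝ) * A = n * A + A := by push_cast; ring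
    rw [e1]
    exact this

theorem WD.prod {w : σ → ℝ} {β : Type*} (s : Finset β) (f : β → MvPolynomial σ ℝ) (A : β → ℝ)
    (h : ∀ b ∈ s, WD w (f b) (A b)) : WD w (∏ b ∈ s, f b) (∑ b ∈ s, A b) := by
  classical
  induction s using Finset.induction_on with
  | empty =>
    rw [Finset.prod_empty, Finset.sum_empty, ← MvPolynomial.C_1]
    exact WD.C w 1
  | insert b s hb ih =>
    rw [Finset.prod_insert hb, Finset.sum_insert hb]
    exact (h b (Finset.mem_insert_self b s)).mul (ih fun b' hb' => h b' (Finset.mem_insert_of_mem hb'))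

/-- weighted degree of a composition -/
theorem wd_bind {w : σ → ℝ} (T : σ → MvPolynomial σ ℝ) (P : MvPolynomial σ ℝ) (hT : ∀ i ∈ P.vars, WD w (T i) (w i))
    {b : σ →₀ ℕ} (hb : b ∈ (bind₁ T P).support) : ∃ a ∈ P.support, wd w b ≤ wd w a := by
  classical
  rw [bind_eq] at hb
  obtain ⟨a, ha, hab⟩ := Finset.mem_biUnion.mp (MvPolynomial.support_sum hb)
  refine ⟨a, ha, ?_⟩
  have h1 : WD w (∏ i, T i ^ a i) (wd w a) := by
    unfold wd
    refine WD.prod _ _ _ fun i _ => ?_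
    by_cases hi : i ∈ P.vars
    · exact (hT i hi).pow _
    · rw [exp_zero_of_notMem ha hi, pow_zero, Nat.cast_zero, zero_mul, ← MvPolynomial.C_1]
      exact WD.C w 1
  exact (h1.C_mul _) b hab

theorem WD.bind {w : σ → ℝ} {T : σ → MvPolynomial σ ℝ} {P : MvPolynomial σ ℝ} {B : ℝ} (hP : WD w P B)
    (hT : ∀ i ∈ P.vars, WD w (T i) (w i)) : WD w (bind₁ T P) B := by
  intro b hb
  obtain ⟨a, ha, hab⟩ := wd_bind T P hT hb
  exact hab.trans (hP a ha)

/-! ### low and high parts -/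

open Classical in
/-- monomials of weighted degree less than `W` -/
noncomputable def lo (w : σ → ℝ) (W : ℝ) (P : MvPolynomial σ ℝ) : MvPolynomial σ ℝ :=
  ∑ a ∈ P.support.filter (fun a => wd w a < W), monomial a (P.coeff a)

open Classical in
theorem coeff_lo (w : σ → ℝ) (W : ℝ) (P : MvPolynomial σ ℝ) (b : σ →₀ ℕ) :
    (lo w W P).coeff b = if wd w b < W then P.coeff b else 0 := by
  unfold lo
  rw [MvPolynomial.coeff_sum]
  simp only [MvPolynomial.coeff_monomial]
  rw [Finset.sum_ite_eq' (P.support.filter fun a => wd w a < W) b]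
  by_cases h : wd w b < W
  · rw [if_pos h]
    by_cases hb : b ∈ P.support
    · rw [if_pos (Finset.mem_filter.mpr ⟨hb, h⟩)]
    · rw [if_neg (fun h' => hb (Finset.mem_filter.mp h').1), MvPolynomial.notMem_support_iff.mp hb]
  · rw [if_neg h]
    exact if_neg (fun h' : b ∈ P.support.filter (fun a => wd w a < W) => h (Finset.mem_filter.mp h').2)

theorem mem_lo {w : σ → ℝ} {W : ℝ} {P : MvPolynomial σ ℝ} {b : σ →₀ ℕ} (hb : b ∈ (lo w W P).support) :
    wd w b < W ∧ b ∈ P.support := by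
  classical
  rw [MvPolynomial.mem_support_iff, coeff_lo] at hb
  by_cases h : wd w b < W
  · rw [if_pos h] at hb
    exact ⟨h, MvPolynomial.mem_support_iff.mpr hb⟩
  · rw [if_neg h] at hb
    exact absurd rfl hb

theorem mem_hi {w : σ → ℝ} {W : ℝ} {P : MvPolynomial σ ℝ} {b : σ →₀ ℕ} (hb : b ∈ (P - lo w W P).support) :
    W ≤ wd w b ∧ b ∈ P.support := by
  classical
  rw [MvPolynomial.mem_support_iff, MvPolynomial.coeff_sub, coeff_lo] at hb
  by_cases h : wd w b < W
  · rw [if_pos h, sub_self] at hb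
    exact absurd rfl hb
  · rw [if_neg h, sub_zero] at hb
    exact ⟨not_lt.mp h, MvPolynomial.mem_support_iff.mpr hb⟩

theorem lo_add (w : σ → ℝ) (W : ℝ) (P Q : MvPolynomial σ ℝ) : lo w W (P + Q) = lo w W P + lo w W Q := by
  classical
  ext b
  rw [MvPolynomial.coeff_add, coeff_lo, coeff_lo, coeff_lo, MvPolynomial.coeff_add]
  split_ifs
  · rfl
  · rw [add_zero]

theorem lo_sub (w : σ → ℝ) (W : ℝ) (P Q : MvPolynomial σ ℝ) : lo w W (P - Q) = lo w W P - lo w W Q := by
  classical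
  ext b
  rw [MvPolynomial.coeff_sub, coeff_lo, coeff_lo, coeff_lo, MvPolynomial.coeff_sub]
  split_ifs
  · rfl
  · rw [sub_zero]

theorem lo_zero (w : σ → ℝ) (W : ℝ) : lo w W 0 = 0 := by
  classical
  ext b
  rw [coeff_lo, MvPolynomial.coeff_zero, ite_self]

theorem lo_sum (w : σ → ℝ) (W : ℝ) {β : Type*} (s : Finset β) (f : β → MvPolynomial σ ℝ) :
    lo w W (∑ b ∈ s, f b) = ∑ b ∈ s, lo w W (f b) := by
  classical
  induction s using Finset.induction_on with
  | empty => rw [Finset.sum_empty, Finset.sum_empty, lo_zero]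
  | insert b s hb ih => rw [Finset.sum_insert hb, Finset.sum_insert hb, lo_add, ih]

theorem lo_eq_self {w : σ → ℝ} {W : ℝ} {P : MvPolynomial σ ℝ} (h : ∀ a ∈ P.support, wd w a < W) : lo w W P = P := by
  classical
  ext b
  rw [coeff_lo]
  by_cases hb : b ∈ P.support
  · rw [if_pos (h b hb)]
  · rw [MvPolynomial.notMem_support_iff.mp hb, ite_self]

theorem lo_vars (w : σ → ℝ) (W : ℝ) (P : MvPolynomial σ ℝ) : (lo w W P).vars ⊆ P.vars := by
  classical
  intro i hi
  obtain ⟨a, ha, hia⟩ := (MvPolynomial.mem_vars_iff_mem_support i).mp hi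
  exact (MvPolynomial.mem_vars_iff_mem_support i).mpr ⟨a, (mem_lo ha).2, hia⟩

theorem hi_vars (w : σ → ℝ) (W : ℝ) (P : MvPolynomial σ ℝ) : (P - lo w W P).vars ⊆ P.vars := by
  classical
  intro i hi
  obtain ⟨a, ha, hia⟩ := (MvPolynomial.mem_vars_iff_mem_support i).mp hi
  exact (MvPolynomial.mem_vars_iff_mem_support i).mpr ⟨a, (mem_hi ha).2, hia⟩

/-! ### the norms `N s` -/

/-- the weighted norm, base `q`, scale `s` -/
noncomputable def N (q : ℝ) (w : σ → ℝ) (s : ℝ) (P : MvPolynomial σ ℝ) : ℝ := maj (fun i => q ^ (s * w i)) P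

section
variable {q : ℝ} (hq : 1 ≤ q) (w : σ → ℝ)
include hq

theorem pv (s : ℝ) (i : σ) : 0 ≤ q ^ (s * w i) := Real.rpow_nonneg (by linarith) _

theorem prod_pv (s : ℝ) (a : σ →₀ ℕ) : ∏ i, (q ^ (s * w i)) ^ a i = q ^ (s * wd w a) := by
  unfold wd
  rw [Finset.mul_sum, Real.rpow_sum_of_pos (by linarith)]
  refine Finset.prod_congr rfl fun i _ => ?_
  rw [← Real.rpow_mul_natCast (by linarith)]
  congr 1
  ring

theorem N_eq (s : ℝ) (P : MvPolynomial σ ℝ) : N q w s P = ∑ a ∈ P.support, |P.coeff a| * q ^ (s * wd w a) := by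
  unfold N maj
  refine Finset.sum_congr rfl fun a _ => ?_
  rw [prod_pv hq]

theorem N_nonneg (s : ℝ) (P : MvPolynomial σ ℝ) : 0 ≤ N q w s P := maj_nonneg (pv hq w s) P

/-- the high part gains -/
theorem N_hi (W s r : ℝ) (hs : 0 ≤ s) (P : MvPolynomial σ ℝ) :
    N q w r (P - lo w W P) ≤ q ^ (-(W * s)) * N q w (s + r) P := by
  classical
  rw [N_eq hq, N_eq hq, Finset.mul_sum]
  have hsub : (P - lo w W P).support ⊆ P.support := fun a ha => (mem_hi ha).2
  refine (Finset.sum_le_sum (g := fun a => q ^ (-(W * s)) * (|P.coeff a| * q ^ ((s + r) * wd w a))) fun a ha => ?_).trans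
    (Finset.sum_le_sum_of_subset_of_nonneg hsub fun a _ _ => ?_)
  · have h1 := (mem_hi ha).1
    have h2 : (P - lo w W P).coeff a = P.coeff a := by
      rw [MvPolynomial.coeff_sub, coeff_lo, if_neg (not_lt.mpr h1), sub_zero]
    rw [h2, mul_left_comm]
    refine mul_le_mul_of_nonneg_left ?_ (abs_nonneg _)
    rw [← Real.rpow_add (by linarith)]
    refine Real.rpow_le_rpow_of_exponent_le hq ?_
    nlinarith
  · have := Real.rpow_nonneg (show (0 : ℝ) ≤ q by linarith)
    exact mul_nonneg (this _) (mul_nonneg (abs_nonneg _) (this _))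

/-- the low part -/
theorem N_lo (W s r : ℝ) (hs : 0 ≤ s) (P : MvPolynomial σ ℝ) :
    N q w (s + r) (lo w W P) ≤ q ^ (W * s) * N q w r P := by
  classical
  rw [N_eq hq, N_eq hq, Finset.mul_sum]
  have hsub : (lo w W P).support ⊆ P.support := fun a ha => (mem_lo ha).2
  refine (Finset.sum_le_sum (g := fun a => q ^ (W * s) * (|P.coeff a| * q ^ (r * wd w a))) fun a ha => ?_).trans
    (Finset.sum_le_sum_of_subset_of_nonneg hsub fun a _ _ => ?_)
  · have h1 := (mem_lo ha).1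
    have h2 : (lo w W P).coeff a = P.coeff a := by
      rw [coeff_lo, if_pos h1]
    rw [h2, mul_left_comm]
    refine mul_le_mul_of_nonneg_left ?_ (abs_nonneg _)
    rw [← Real.rpow_add (by linarith)]
    refine Real.rpow_le_rpow_of_exponent_le hq ?_
    nlinarith
  · have := Real.rpow_nonneg (show (0 : ℝ) ≤ q by linarith)
    exact mul_nonneg (this _) (mul_nonneg (abs_nonneg _) (this _))

theorem N_lo_le (W r : ℝ) (P : MvPolynomial σ ℝ) : N q w r (lo w W P) ≤ N q w r P := by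
  have := N_lo hq w W 0 r le_rfl P
  rwa [zero_add, mul_zero, Real.rpow_zero, one_mul] at this

theorem N_WD {P : MvPolynomial σ ℝ} {B : ℝ} (hP : WD w P B) {s r : ℝ} (hs : 0 ≤ s) :
    N q w (s + r) P ≤ q ^ (B * s) * N q w r P := by
  rw [N_eq hq, N_eq hq, Finset.mul_sum]
  refine Finset.sum_le_sum fun a ha => ?_
  rw [mul_left_comm]
  refine mul_le_mul_of_nonneg_left ?_ (abs_nonneg _)
  rw [← Real.rpow_add (by linarith)]
  refine Real.rpow_le_rpow_of_exponent_le hq ?_
  have := hP a ha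
  nlinarith

/-- composition -/
theorem N_bind {s r : ℝ} (T : σ → MvPolynomial σ ℝ) (P : MvPolynomial σ ℝ)
    (hT : ∀ i ∈ P.vars, N q w s (T i) ≤ q ^ (r * w i)) : N q w s (bind₁ T P) ≤ N q w r P :=
  maj_bind (pv hq w s) T P _ hT

theorem N_add (s : ℝ) (P Q : MvPolynomial σ ℝ) : N q w s (P + Q) ≤ N q w s P + N q w s Q := maj_add (pv hq w s) P Q

theorem N_sub (s : ℝ) (P Q : MvPolynomial σ ℝ) : N q w s (P - Q) ≤ N q w s P + N q w s Q := maj_sub (pv hq w s) P Q

theorem N_sum (s : ℝ) {β : Type*} (t : Finset β) (f : β → MvPolynomial σ ℝ) :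
    N q w s (∑ b ∈ t, f b) ≤ ∑ b ∈ t, N q w s (f b) := maj_sum (pv hq w s) t f

theorem N_C_mul (s c : ℝ) (P : MvPolynomial σ ℝ) : N q w s (C c * P) ≤ |c| * N q w s P := maj_C_mul (pv hq w s) c P

end

theorem N_X (q : ℝ) (w : σ → ℝ) (s : ℝ) (i : σ) : N q w s (X i) = q ^ (s * w i) := maj_X _ i

end Pool.Agent.Helper85.FRM
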