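import Pool.Agent.Helper85.FRM.Twr
import Pool.Agent.Helper85.FRM.Lip
import Pool.Agent.Helper66.MT.Win
import Pool.Agent.Helper66.MT.Spd
import Pool.Agent.Helper63.MT.Imu

/-! FRT, the condition of the leak: the coordinates of a frame of the window `c`, known to a label without leak at the
window `c`, vary by at most `K 2 ^ (-ε n)` on the typical part of the atoms of the conditions of the windows `≥ c + ε`. -/

set_option autoImplicit false

namespace Pool.Agent.Helper85.FRM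

open Finset Filter Topology Pool.Agent.Helper69.RK Pool.Agent.Helper31.EC Pool.Agent.Helper31.EC.Sp
open Pool.Agent.Helper40.EL Pool.Agent.Helper89.LX Pool.Agent.Helper3.LF Pool.Agent.Helper84.MT Pool.Agent.Helper36.AM
open Pool.Agent.Helper66.MT (cndB cndB_eq win_var abs_sub_lt_of_floor_eq)
open Pool.Agent.Helper63.MT (sub_all)

noncomputable section

/-- coordinates at near points -/
theorem co_near {M : ℕ} {q : ℝ} {w : Fin M → ℝ} (hq : 1 ≤ q) (hw : ∀ i, 1 ≤ w i) {s : ℝ} (hs : 0 ≤ s) {J : ℕ}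
    {P : Fin M → MvPolynomial (Fin M) ℝ} (hP : Fr w J P) {B : ℝ} (hB : 1 ≤ B) {d : ℕ} (hd : ∀ l, w l ≤ d)
    (hn : ∀ l : Fin M, l.val < J → N q w s (P l) ≤ B) {x x' : Fin M → ℝ}
    (hy : ∀ l : Fin M, l.val < J → |co q w s P x l| ≤ B) {ρ : ℝ} (hρ : 0 ≤ ρ)
    (hx : ∀ l : Fin M, l.val < J → |x l - x' l| ≤ ρ) {δ : ℝ}
    (h1 : ∀ l : Fin M, l.val < J → q ^ (w l * s) * (Lc d B ^ M * ρ) ≤ δ) (hδ : δ ≤ 1) (l : Fin M) (hl : l.val < J) :
    |co q w s P x l - co q w s P x' l| ≤ δ := by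
  have hq0 : (0 : ℝ) < q := by linarith
  have h2 : ∀ l : Fin M, l.val < J → q ^ (w l * s) * (Lc d B ^ (l.val + 1) * ρ) ≤ δ := fun l hl => by
    refine le_trans (mul_le_mul_of_nonneg_left ?_ (Real.rpow_nonneg hq0.le _)) (h1 l hl)
    refine mul_le_mul_of_nonneg_right ?_ hρ
    exact pow_le_pow_right₀ (Lc_one hB) l.isLt
  exact (co_lip hq hw hs hP hB hd hn hy hρ hx (fun l hl => (h2 l hl).trans hδ) l hl).trans (h2 l hl)

variable {S : Sp} {M : ℕ} {E : ℕ → ℕ} {ι : Type}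

theorem two_pow_eq (n y : ℝ) : ((2 : ℝ) ^ n) ^ y = 2 ^ (y * n) := by
  rw [← Real.rpow_mul (by norm_num), mul_comm]

theorem Sub_Lc (d : ℕ) {K : ℕ → ℝ} (hK : S.Sub K) : S.Sub (fun k => Lc d (K k)) := by
  unfold Lc
  exact (S.Sub_const zero_le_one).add (hK.mul ((S.Sub_const (Nat.cast_nonneg d)).mul
    (Sub_pow' (hK.add (S.Sub_const zero_le_one)) d)))

/-- the coordinates as functions of the point -/
theorem co_mem {q : ℝ} {w : Fin M → ℝ} (hw : ∀ i, 1 ≤ w i) (a : ℝ) {J : ℕ} {P : Fin M → MvPolynomial (Fin M) ℝ}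
    (hP : Fr w J P) {d : ℕ} (hd : ∀ l, w l ≤ d) (l : Fin M) (hl : l.val < J) :
    (fun p => co q w a P p l) ∈ polyAl M 1 ((d + 1) ^ M) := by
  refine ⟨cop q w a P l, ?_, ?_⟩
  · rw [one_mul]
    exact (deg_cop hw a hP hd l hl).trans (Nat.pow_le_pow_right (Nat.succ_pos d) l.isLt)
  · funext p
    exact (eval_cop a P p l).symm

/-- VARIATION OF THE COORDINATES on the atoms of a condition -/
theorem co_win (s : MSys S M E ι) {w : Fin M → ℝ} (hw : ∀ i, 1 ≤ w i) {d : ℕ} (hd : ∀ l, w l ≤ d) (L : Lab S)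
    {c b ε : ℝ} (hc : 0 ≤ c) (hL : s.DMc c L) (hε : 0 < ε) (hcb : c + ε ≤ b) (j : Fin M)
    (hwc : ∀ l, w l * c + ε ≤ 1) (P : ∀ k, (L k).T.Ω → Fin M → MvPolynomial (Fin M) ℝ)
    (hP : ∀ k ω, Fr w j.val (P k ω)) (hPm : Knw L.sp L.V P) {K : ℕ → ℝ} (hK : S.Sub K) (hK1 : ∀ k, 1 ≤ K k)
    {A : ∀ k, (L k).T.Ω → Prop} (hA : Typ (S := L.sp) A)
    (hN : ∀ᶠ k in UF, ∀ ω, (L k).T.μ ω ≠ 0 → A k ω → ∀ l : Fin M, l.val < j.val →
      N (2 ^ (S.F k).n) w c (P k ω l) ≤ K k ∧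
        |co (2 ^ (S.F k).n) w c (P k ω) (s.Q.v k ((L k).p.π ω)) l| ≤ K k) (κ : Option ι) :
    ∃ (K' : ℕ → ℝ) (A' : ∀ k, (L k).T.Ω → Prop), S.Sub K' ∧ Typ (S := L.sp) A' ∧ ∀ᶠ k in UF, ∀ ω ω',
      (L k).T.μ ω ≠ 0 → (L k).T.μ ω' ≠ 0 → A' k ω → A' k ω' → (L k).T.Z ω ω' → (L k).V ω ω' →
        cndB s b κ k ((L k).p.π ω) ((L k).p.π ω') → ∀ l : Fin M, l < j →
          |co (2 ^ (S.F k).n) w c (P k ω) (s.Q.v k ((L k).p.π ω)) l -
            co (2 ^ (S.F k).n) w c (P k ω') (s.Q.v k ((L k).p.π ω')) l| ≤ K' k * S.dl ε k := by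
  have hq1 : ∀ k, (1 : ℝ) ≤ 2 ^ (S.F k).n := fun k => Real.one_le_rpow (by norm_num) (S.F k).pos.le
  have hwl : ∀ (l : Fin M) k, ((2 : ℝ) ^ (S.F k).n) ^ (w l * c) * S.dl 1 k ≤ S.dl ε k := by
    intro l k
    rw [two_pow_eq]
    unfold Sp.dl
    rw [← Real.rpow_add (by norm_num)]
    apply Real.rpow_le_rpow_of_exponent_le (by norm_num)
    have h1 := mul_le_mul_of_nonneg_right (hwc l) (S.F k).pos.le
    nlinarith
  have hLc := Sub_pow' (Sub_Lc d hK) M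
  have hdl1 : ∀ k, S.dl 1 k ≤ S.dl ε k := by
    intro k
    have h1 : ε ≤ 1 := by
      by_cases hM : Nonempty (Fin M)
      · have h2 := hwc hM.some
        have h3 := hw hM.some
        nlinarith
      · exact absurd ⟨j⟩ hM
    exact S.dl_anti h1 k
  -- a bound for the coordinates at near points
  have near : ∀ K2 : ℕ → ℝ, S.Sub K2 → ∀ᶠ k in UF, ∀ ω, (L k).T.μ ω ≠ 0 → A k ω → ∀ x' : Fin M → ℝ,
      (∀ l, |s.Q.v k ((L k).p.π ω) l - x' l| ≤ K2 k * S.dl 1 k) → ∀ l : Fin M, l < j →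
        |co (2 ^ (S.F k).n) w c (P k ω) (s.Q.v k ((L k).p.π ω)) l - co (2 ^ (S.F k).n) w c (P k ω) x' l| ≤
          Lc d (K k) ^ M * K2 k * S.dl ε k ∧
        |co (2 ^ (S.F k).n) w c (P k ω) (s.Q.v k ((L k).p.π ω)) l - co (2 ^ (S.F k).n) w c (P k ω) x' l| ≤ 1 := by
    intro K2 hK2
    filter_upwards [hN, hK2.1, (hLc.mul hK2).eventually_le hε, hLc.1] with k h1 h2 h3 h4 ω hω hA x' hx l hl
    have hd0 : 0 < S.dl ε k := S.dl_pos ε k
    have hδ : Lc d (K k) ^ M * K2 k * S.dl ε k ≤ 1 := by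
      have h5 : Lc d (K k) ^ M * K2 k * S.dl ε k ≤ 2 ^ (ε * (S.F k).n) * S.dl ε k :=
        mul_le_mul_of_nonneg_right (by linarith) hd0.le
      refine h5.trans (le_of_eq ?_)
      unfold Sp.dl
      rw [← Real.rpow_add (by norm_num), add_neg_cancel, Real.rpow_zero]
    have h6 := co_near (hq1 k) hw hc (hP k ω) (hK1 k) hd (fun l hl => (h1 ω hω hA l hl).1)
      (fun l hl => (h1 ω hω hA l hl).2) (ρ := K2 k * S.dl 1 k) (mul_nonneg h2 (S.dl_pos 1 k).le)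
      (fun l _ => hx l) (δ := Lc d (K k) ^ M * K2 k * S.dl ε k) (fun l _ => by
        have h7 := mul_le_mul_of_nonneg_left (hwl l k) (mul_nonneg h4 h2)
        calc _ = Lc d (K k) ^ M * K2 k * (((2 : ℝ) ^ (S.F k).n) ^ (w l * c) * S.dl 1 k) := by ring
          _ ≤ _ := h7) hδ l hl
    exact ⟨h6, h6.trans hδ⟩
  rcases κ with _ | i
  · -- the point
    refine ⟨fun k => Lc d (K k) ^ M * 1, A, hLc.mul (S.Sub_const zero_le_one), hA, ?_⟩
    filter_upwards [near (fun _ => 1) (S.Sub_const zero_le_one), hPm] with k h1 h2 ω ω' hω hω' hAω hAω' hZ hV hr l hl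
    have h3 : P k ω = P k ω' := h2 ω ω' hω hω' hZ hV
    rw [← h3]
    refine (h1 ω hω hAω (s.Q.v k ((L k).p.π ω')) (fun l => ?_) l hl).1
    rw [one_mul]
    exact abs_sub_le_of_floor_eq (S.dl_pos 1 k) (congrFun hr l)
  · -- a window of a leaf
    have hc1 : c < 1 := by
      have h2 := hwc j
      have h3 := hw j
      nlinarith
    set lf := s.lf i with hlf
    obtain ⟨K2, hK2, hpt⟩ := lf.pt
    obtain ⟨K3, hK3, hseg⟩ := lf.seg ((d + 1) ^ M)
    have hT : ∀ l : Fin M, ∃ K' : ℕ → ℝ, S.Sub K' ∧ Typ (S := L.sp) (fun k ω => l < j → ∀ y : Fin lf.e → ℝ,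
        (∀ i, |y i - lf.Y.v k ((L k).p.π ω) i| < S.dl c k) →
          |co (2 ^ (S.F k).n) w c (P k ω) (lf.F k ((L k).p.π ω) y) l| ≤
            K' k * |co (2 ^ (S.F k).n) w c (P k ω) (lf.F k ((L k).p.π ω) (lf.Y.v k ((L k).p.π ω))) l|) := by
      intro l
      by_cases hl : l < j
      · obtain ⟨K', hK', hT⟩ := typ_pol lf hc hc1 L (hL (some i)) (D := (d + 1) ^ M)
          (fun k ω p => co (2 ^ (S.F k).n) w c (P k ω) p l)
          (Eventually.of_forall fun k ω _ => co_mem hw c (hP k ω) hd l hl) (κ := fun _ => 1)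
          (S.Sub_const zero_le_one) (by
            filter_upwards [hPm] with k hk ω ω' hω hω' hZ hV _ _ p
            rw [hk ω ω' hω hω' hZ hV, one_mul])
        exact ⟨K', hK', hT.mono (Eventually.of_forall fun k ω _ h _ => h)⟩
      · exact ⟨fun _ => 0, S.Sub_const le_rfl, hA.mono (Eventually.of_forall fun k ω _ _ h => absurd h hl)⟩
    choose K4 hK4 hT4 using hT
    obtain ⟨K5, hK5, hb5⟩ := sub_all hK4
    refine ⟨fun k => Lc d (K k) ^ M * K2 k + Lc d (K k) ^ M * K2 k + (K3 k + 2) * 2 * (K5 k * (K k + 1)), _,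
      ((hLc.mul hK2).add (hLc.mul hK2)).add (((hK3.add (S.Sub_const zero_le_two)).mul (S.Sub_const zero_le_two)).mul
        (hK5.mul (hK.add (S.Sub_const zero_le_one)))), typ_and hA (Pool.Agent.Helper63.MT.typ_all hT4), ?_⟩
    filter_upwards [near K2 hK2, hPm, hN, hpt, hseg, hb5, lf.fn, lf.eval_mem ((d + 1) ^ M), hK3.1, hK5.1] with
      k g1 g2 g3 g4 g5 g6 g7 g8 g9 g10 ω ω' hω hω' hAω hAω' hZ hV hr l hl
    have hsω := (L k).p.supp ω hω
    have hsω' := (L k).p.supp ω' hω'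
    have hZ' : (S.F k).Z ((L k).p.π ω) ((L k).p.π ω') := ((L k).p.hZ ω ω' hω hω').mp hZ
    have hPe : P k ω = P k ω' := g2 ω ω' hω hω' hZ hV
    have hFe : lf.F k ((L k).p.π ω) = lf.F k ((L k).p.π ω') := g7 _ _ hsω hsω' hZ' hr.1
    have hdc : 0 < S.dl c k := S.dl_pos c k
    have hdb : 0 < S.dl b k := S.dl_pos b k
    have hbc : S.dl b k ≤ S.dl c k := S.dl_anti (by linarith) k
    have hdc1 : S.dl c k ≤ 1 := by
      rw [← S.dl_zero k]
      exact S.dl_anti hc k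
    have a1 := g1 ω hω hAω.1 (lf.F k ((L k).p.π ω) (lf.Y.v k ((L k).p.π ω))) (g4 _ hsω) l hl
    have a2 := (g1 ω' hω' hAω'.1 (lf.F k ((L k).p.π ω') (lf.Y.v k ((L k).p.π ω'))) (g4 _ hsω') l hl).1
    have a3 := (g3 ω hω hAω.1 l hl).2
    have a4 : |co (2 ^ (S.F k).n) w c (P k ω) (lf.F k ((L k).p.π ω) (lf.Y.v k ((L k).p.π ω))) l| ≤ K k + 1 := by
      have h1 := abs_sub (co (2 ^ (S.F k).n) w c (P k ω) (s.Q.v k ((L k).p.π ω)) l)
        (co (2 ^ (S.F k).n) w c (P k ω) (s.Q.v k ((L k).p.π ω)) l -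
          co (2 ^ (S.F k).n) w c (P k ω) (lf.F k ((L k).p.π ω) (lf.Y.v k ((L k).p.π ω))) l)
      rw [sub_sub_cancel] at h1
      linarith [a1.2]
    have a5 := win_var (Y := lf.Y.v k ((L k).p.π ω)) (Y' := lf.Y.v k ((L k).p.π ω')) (W := S.dl c k) (w := S.dl b k)
      (K := K3 k) (A := K5 k * (K k + 1)) hdc1 hdb hbc g9
      (g := fun y => co (2 ^ (S.F k).n) w c (P k ω) (lf.F k ((L k).p.π ω) y) l)
      (fun y z hy hz => by
        obtain ⟨R, hR, hR'⟩ := co_mem (q := 2 ^ (S.F k).n) hw c (hP k ω) hd l hl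
        rw [one_mul] at hR
        have h1 := (g5 _ hsω _ (g8 _ hsω R hR) y z hy hz).2
        have h2 : ∀ p, co (2 ^ (S.F k).n) w c (P k ω) p l = MvPolynomial.eval p R := fun p => congrFun hR' p
        simp only [h2]
        exact h1) (fun y hy => by
        refine (hAω.2 l hl y hy).trans ?_
        exact mul_le_mul (g6 l) a4 (abs_nonneg _) g10) (fun i => by
        rw [abs_sub_comm]
        exact abs_sub_lt_of_floor_eq hdb (congrFun hr.2 i))
    have a6 : (K3 k + 2) * (2 * S.dl b k / S.dl c k) * (K5 k * (K k + 1)) ≤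
        (K3 k + 2) * 2 * (K5 k * (K k + 1)) * S.dl ε k := by
      have h1 : S.dl b k / S.dl c k ≤ S.dl ε k := by
        rw [div_le_iff₀ hdc, ← S.dl_add]
        exact S.dl_anti (by linarith) k
      have h2 : 0 ≤ (K3 k + 2) * 2 * (K5 k * (K k + 1)) := by
        have := hK1 k
        positivity
      have h3 := mul_le_mul_of_nonneg_left h1 h2
      calc _ = (K3 k + 2) * 2 * (K5 k * (K k + 1)) * (S.dl b k / S.dl c k) := by ring
        _ ≤ _ := h3
    have a7 := a1.1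
    rw [← hPe, ← hFe] at a2
    have a8 : |co (2 ^ (S.F k).n) w c (P k ω) (lf.F k ((L k).p.π ω) (lf.Y.v k ((L k).p.π ω))) l -
        co (2 ^ (S.F k).n) w c (P k ω) (lf.F k ((L k).p.π ω) (lf.Y.v k ((L k).p.π ω'))) l| ≤
        (K3 k + 2) * 2 * (K5 k * (K k + 1)) * S.dl ε k := a5.trans a6
    rw [← hPe]
    set X := co (2 ^ (S.F k).n) w c (P k ω) (s.Q.v k ((L k).p.π ω)) l with hX
    set X' := co (2 ^ (S.F k).n) w c (P k ω) (s.Q.v k ((L k).p.π ω')) l with hX'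
    set Y := co (2 ^ (S.F k).n) w c (P k ω) (lf.F k ((L k).p.π ω) (lf.Y.v k ((L k).p.π ω))) l with hY
    set Y' := co (2 ^ (S.F k).n) w c (P k ω) (lf.F k ((L k).p.π ω) (lf.Y.v k ((L k).p.π ω'))) l with hY'
    have e1 : X - X' = (X - Y) + (Y - Y') - (X' - Y') := by ring
    rw [e1]
    refine (abs_sub _ _).trans ?_
    have h9 := abs_add_le (X - Y) (Y - Y')
    nlinarith

end

end Pool.Agent.Helper85.FRM
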