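import Pool.Agent.Helper85.FRM.Lay

/-! FRT, step 4: the packaged layer step. Inputs of layer `j` are polynomials `G' k` (window `s k`) with increments small near the
point (Taylor coefficients at the point, with an `ε`-loss); output: the reduced frames of the layers `≤ j`. -/

set_option autoImplicit false

namespace Pool.Agent.Helper85.FRM

open MvPolynomial Finset

variable {M : ℕ}

/-- transitions on the grid -/
noncomputable def trg (q : ℝ) (w : Fin M → ℝ) (s : ℕ → ℝ) (P : ℕ → Fin M → MvPolynomial (Fin M) ℝ) (i k : ℕ) :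
    Fin M → MvPolynomial (Fin M) ℝ := tr q w (s i) (s k) (P i) (P k)

/-- the layer polynomial, re-expressed `r` windows later -/
noncomputable def shG (q : ℝ) (w : Fin M → ℝ) (s : ℕ → ℝ) (P : ℕ → Fin M → MvPolynomial (Fin M) ℝ) (r : ℕ)
    (G' : ℕ → MvPolynomial (Fin M) ℝ) (k : ℕ) : MvPolynomial (Fin M) ℝ := bind₁ (trg q w s P (k - r) k) (G' (k - r))

/-- the new frame at window `s k` -/
noncomputable def nxt (q : ℝ) (w : Fin M → ℝ) (s : ℕ → ℝ) (P : ℕ → Fin M → MvPolynomial (Fin M) ℝ) (r : ℕ)
    (G' : ℕ → MvPolynomial (Fin M) ℝ) (j : Fin M) (k : ℕ) : Fin M → MvPolynomial (Fin M) ℝ :=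
  Function.update (P k) j (lo w (w j) (shG q w s P r G' k))

/-- STATE after the layers `< J`: reduced frames at the windows `s 0 ≤ .. ≤ s m` with bound `B` at the point `x` -/
structure Sta (q : ℝ) (w : Fin M → ℝ) (s : ℕ → ℝ) (m J : ℕ) (B : ℝ) (P : ℕ → Fin M → MvPolynomial (Fin M) ℝ)
    (x : Fin M → ℝ) : Prop where
  fr : ∀ k, k ≤ m → Fr w J (P k)
  tn : ∀ i k, i ≤ k → k ≤ m → ∀ l : Fin M, l.val < J → N q w (s k - s i) (trg q w s P i k l) ≤ B
  pn : ∀ k, k ≤ m → ∀ l : Fin M, l.val < J → N q w (s k) (P k l) ≤ B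
  yn : ∀ k, k ≤ m → ∀ l : Fin M, l.val < J → |co q w (s k) (P k) x l| ≤ B

/-- INPUT of layer `j` -/
structure Inp (q : ℝ) (w : Fin M → ℝ) (s : ℕ → ℝ) (m : ℕ) (j : Fin M) (P : ℕ → Fin M → MvPolynomial (Fin M) ℝ)
    (x : Fin M → ℝ) (G' : ℕ → MvPolynomial (Fin M) ℝ) (e A0 : ℝ) : Prop where
  zero : G' 0 = 0
  vars : ∀ k, k ≤ m → ∀ a ∈ (G' k).vars, a < j
  pt : ∀ k, k ≤ m → |x j - eval (co q w (s k) (P k) x) (G' k)| ≤ A0 * q ^ (-(w j * s k))
  inc : ∀ i, i < m → N q w (-e) (rec' (co q w (s (i + 1)) (P (i + 1)) x) (inc (trg q w s P) G' i)) ≤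
    A0 * q ^ (-(w j * s i))

section
variable {q : ℝ} (hq : 1 ≤ q) {w : Fin M → ℝ} {s : ℕ → ℝ} {m : ℕ} {j : Fin M} {B : ℝ}
  {P : ℕ → Fin M → MvPolynomial (Fin M) ℝ} {x : Fin M → ℝ}

include hq

theorem Sta.trs (h : Sta q w s m j.val B P x) : Trs q w s m j B (trg q w s P) where
  id := fun i hi a ha => tr_self (s i) (h.fr i hi) a ha
  comp := fun i l k hil hlk hk a ha =>
    tr_comp hq (s i) (s l) (s k) (h.fr i (by omega)) (h.fr l (by omega)) a ha
  vars := fun i k hik hk a ha => tr_vars (s i) (s k) (h.fr i (by omega)) (h.fr k hk) a ha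
  wd := fun i k hik hk a ha => tr_WD (s i) (s k) (h.fr i (by omega)) (h.fr k hk) a ha
  nrm := fun i k hik hk a ha => h.tn i k hik hk a ha

theorem shG_vars (h : Sta q w s m j.val B P x) {G' : ℕ → MvPolynomial (Fin M) ℝ} {e A0 : ℝ}
    (hG : Inp q w s m j P x G' e A0) (r : ℕ) : ∀ k, k ≤ m → ∀ a ∈ (shG q w s P r G' k).vars, a < j := by
  intro k hk
  exact vars_bind_lt (h.trs hq) (Nat.sub_le k r) hk (hG.vars _ (by omega))

theorem nxt_fr (h : Sta q w s m j.val B P x) {G' : ℕ → MvPolynomial (Fin M) ℝ} {e A0 : ℝ}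
    (hG : Inp q w s m j P x G' e A0) (r : ℕ) {k : ℕ} (hk : k ≤ m) : Fr w (j.val + 1) (nxt q w s P r G' j k) where
  vars := by
    intro l hl i hi
    unfold nxt at hi
    by_cases hlj : l = j
    · subst hlj
      rw [Function.update_self] at hi
      exact shG_vars hq h hG r k hk i (lo_vars _ _ _ hi)
    · rw [Function.update_of_ne hlj] at hi
      have : l.val ≠ j.val := fun h' => hlj (Fin.ext h')
      exact (h.fr k hk).vars l (by omega) i hi
  wd := by
    intro l hl a ha
    unfold nxt at ha
    by_cases hlj : l = j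
    · subst hlj
      rw [Function.update_self] at ha
      exact (mem_lo ha).1
    · rw [Function.update_of_ne hlj] at ha
      have : l.val ≠ j.val := fun h' => hlj (Fin.ext h')
      exact (h.fr k hk).wd l (by omega) a ha

omit hq in
theorem nxt_lt {G' : ℕ → MvPolynomial (Fin M) ℝ} (r k : ℕ) {l : Fin M} (hl : l < j) :
    nxt q w s P r G' j k l = P k l := by
  unfold nxt
  exact Function.update_of_ne (ne_of_lt hl) _ _

omit hq in
theorem trg_nxt_lt {G' : ℕ → MvPolynomial (Fin M) ℝ} (r i k : ℕ) {l : Fin M} (hl : l < j) :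
    trg q w s (nxt q w s P r G' j) i k l = trg q w s P i k l := by
  unfold trg
  exact tr_congr _ _ l (fun a ha => nxt_lt r i (lt_of_le_of_lt ha hl)) fun a ha => nxt_lt r k (lt_of_le_of_lt ha hl)

omit hq in
theorem co_nxt_lt {G' : ℕ → MvPolynomial (Fin M) ℝ} (r k : ℕ) {l : Fin M} (hl : l < j) :
    co q w (s k) (nxt q w s P r G' j k) x l = co q w (s k) (P k) x l :=
  co_congr _ l (fun a ha => nxt_lt r k (lt_of_le_of_lt ha hl)) fun _ _ => rfl

/-- the increments of the shifted family -/
theorem inc_shG (h : Sta q w s m j.val B P x) {G' : ℕ → MvPolynomial (Fin M) ℝ} {e A0 : ℝ}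
    (hG : Inp q w s m j P x G' e A0) (r : ℕ) {k : ℕ} (hk : k < m) (hrk : r ≤ k) :
    inc (trg q w s P) (shG q w s P r G') k = bind₁ (trg q w s P (k - r + 1) (k + 1)) (inc (trg q w s P) G' (k - r)) := by
  have hT := h.trs hq
  unfold inc shG
  have e1 : k + 1 - r = k - r + 1 := by omega
  rw [e1, map_sub, bind₁_bind₁, bind₁_bind₁]
  congr 1
  have h1 : bind₁ (fun a => bind₁ (trg q w s P k (k + 1)) (trg q w s P (k - r) k a)) (G' (k - r)) =
      bind₁ (trg q w s P (k - r) (k + 1)) (G' (k - r)) :=
    bind_congr _ fun a ha => hT.comp (k - r) k (k + 1) (by omega) (by omega) (by omega) a (hG.vars _ (by omega) a ha)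
  have h2 : bind₁ (fun a => bind₁ (trg q w s P (k - r + 1) (k + 1)) (trg q w s P (k - r) (k - r + 1) a)) (G' (k - r)) =
      bind₁ (trg q w s P (k - r) (k + 1)) (G' (k - r)) :=
    bind_congr _ fun a ha => hT.comp (k - r) (k - r + 1) (k + 1) (by omega) (by omega) (by omega) a
      (hG.vars _ (by omega) a ha)
  rw [h1, h2]

omit hq in
theorem shG_zero {G' : ℕ → MvPolynomial (Fin M) ℝ} (h0 : G' 0 = 0) {r k : ℕ} (hk : k ≤ r) :
    shG q w s P r G' k = 0 := by
  unfold shG
  rw [Nat.sub_eq_zero_of_le hk, h0, map_zero]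

theorem step_sum {d : ℝ} (hd : ∀ i, s (i + 1) - s i ≤ d) (i r : ℕ) : s (i + r) - s i ≤ r * d := by
  induction r with
  | zero => simp
  | succ r ih =>
    have h1 := hd (i + r)
    have e1 : i + (r + 1) = i + r + 1 := by omega
    rw [e1]
    push_cast
    linarith

/-- LAYER STEP -/
theorem layer (hw : ∀ i, 1 ≤ w i) (hs : Monotone s) (hs0 : s 0 = 0) {d : ℝ} (hd : ∀ i, s (i + 1) - s i ≤ d)
    (h : Sta q w s m j.val B P x) {G' : ℕ → MvPolynomial (Fin M) ℝ} {e A0 : ℝ} (hG : Inp q w s m j P x G' e A0)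
    (r : ℕ) {b W : ℝ} (he : 0 ≤ e) (hb : 0 ≤ b) (hBb : B ≤ q ^ b) (hW : ∀ i, w i ≤ W) (hA0 : 0 ≤ A0)
    (hr : ∀ k, 2 * q ^ (-(s (k + r) - s k - 2 * b)) * B ≤ q ^ (-e * W)) {B' : ℝ} (hBB' : B ≤ B')
    (hB' : 1 + (m + 1) * (A0 * q ^ (w j * ((r + 1) * d))) ≤ B')
    (hsr : ∀ k, 2 * b ≤ s (k + r) - s k) :
    Sta q w s m (j.val + 1) B' (nxt q w s P r G' j) x := by
  have hq0 : (0 : ℝ) < q := by linarith
  have hwj : 0 ≤ w j := by linarith [hw j]
  have hT := h.trs hq
  have hGv := shG_vars hq h hG r
  have hnn : ∀ y : ℝ, 0 ≤ q ^ y := fun y => Real.rpow_nonneg hq0.le y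
  have hd0 : 0 ≤ d := le_trans (sub_nonneg.mpr (hs (Nat.le_succ 0))) (hd 0)
  have hB1 : B ≤ q ^ (2 * b - b) := by
    have : 2 * b - b = b := by ring
    rw [this]
    exact hBb
  have hA : 0 ≤ A0 * q ^ (w j * (r * d)) := mul_nonneg hA0 (hnn _)
  have hB0 : ∀ {k : ℕ}, k ≤ m → ∀ {l : Fin M}, l < j → |co q w (s k) (P k) x l| ≤ q ^ (b * w l) := by
    intro k hk l hl
    refine (h.yn k hk l hl).trans (hBb.trans (Real.rpow_le_rpow_of_exponent_le hq ?_))
    nlinarith [hw l]
  have hG0 : shG q w s P r G' 0 = 0 := shG_zero hG.zero (Nat.zero_le r)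
  -- increments
  have hf : ∀ k, k < m → N q w (2 * b) (inc (trg q w s P) (shG q w s P r G') k) ≤
      A0 * q ^ (w j * (r * d)) * q ^ (-(w j * s k)) := by
    intro k hk
    by_cases hrk : r ≤ k
    · rw [inc_shG hq h hG r hk hrk]
      have hvars : ∀ l ∈ (inc (trg q w s P) G' (k - r)).vars, l < j := inc_vars hT hG.vars (by omega)
      have h1 : ∀ l ∈ (inc (trg q w s P) G' (k - r)).vars,
          N q w (2 * b) (trg q w s P (k - r + 1) (k + 1) l - C (co q w (s (k - r + 1)) (P (k - r + 1)) x l)) ≤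
            q ^ (-e * w l) := by
        intro l hl
        have hlj := hvars l hl
        have h2 : co q w (s (k - r + 1)) (P (k - r + 1)) x l =
            eval (co q w (s (k + 1)) (P (k + 1)) x) (trg q w s P (k - r + 1) (k + 1) l) :=
          (co_tr hq _ _ (h.fr _ (by omega)) (h.fr _ (by omega)) x l hlj).symm
        rw [h2]
        have h3 := hsr (k - r + 1)
        have h4 := hr (k - r + 1)
        have e1 : k - r + 1 + r = k + 1 := by omega
        rw [e1] at h3 h4
        have h5 := N_pt hq w hw (s := s (k + 1) - s (k - r + 1)) (e := 2 * b) h3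
          (trg q w s P (k - r + 1) (k + 1) l) (co q w (s (k + 1)) (P (k + 1)) x) (by
            intro i hi
            have hil : i < j := lt_of_le_of_lt (hT.vars (k - r + 1) (k + 1) (by omega) (by omega) l hlj i hi) hlj
            refine (hB0 (k := k + 1) (by omega) hil).trans (Real.rpow_le_rpow_of_exponent_le hq ?_)
            nlinarith [hw i])
        refine h5.trans ?_
        have h6 := h.tn (k - r + 1) (k + 1) (by omega) (by omega) l hlj
        refine (mul_le_mul_of_nonneg_left h6 (mul_nonneg (by norm_num) (hnn _))).trans (h4.trans ?_)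
        refine Real.rpow_le_rpow_of_exponent_le hq ?_
        nlinarith [hW l]
      refine (N_rec hq w _ _ _ h1).trans ((hG.inc (k - r) (by omega)).trans ?_)
      rw [mul_assoc]
      refine mul_le_mul_of_nonneg_left ?_ hA0
      rw [← Real.rpow_add hq0]
      refine Real.rpow_le_rpow_of_exponent_le hq ?_
      have h7 := step_sum hq hd (k - r) r
      have e2 : k - r + r = k := by omega
      rw [e2] at h7
      nlinarith
    · have h1 : inc (trg q w s P) (shG q w s P r G') k = 0 := by
        unfold inc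
        rw [shG_zero hG.zero (by omega), shG_zero hG.zero (by omega), map_zero, sub_zero]
      rw [h1]
      have h2 : N q w (2 * b) (0 : MvPolynomial (Fin M) ℝ) = 0 := maj_zero _
      rw [h2]
      exact mul_nonneg hA (hnn _)
  have hb12 : b ≤ 2 * b := by linarith
  have eA : A0 * q ^ (w j * (r * d)) * q ^ (w j * d) = A0 * q ^ (w j * ((r + 1) * d)) := by
    rw [mul_assoc, ← Real.rpow_add hq0]
    congr 2
    ring
  have hAA : 0 ≤ A0 * q ^ (w j * ((r + 1) * d)) := mul_nonneg hA0 (hnn _)
  have hkm : ∀ {k : ℕ}, k ≤ m → (k : ℝ) * (A0 * q ^ (w j * ((r + 1) * d))) ≤ m * (A0 * q ^ (w j * ((r + 1) * d))) :=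
    fun hk => mul_le_mul_of_nonneg_right (by exact_mod_cast hk) hAA
  refine ⟨fun k hk => nxt_fr hq h hG r hk, ?_, ?_, ?_⟩
  · intro i k hik hk l hl
    by_cases hlj : l = j
    · subst hlj
      have h1 := lay_tr hq hw hT hGv hb hBb hB1 hb12 hA hs hs0 hd hG0 hf hik hk
      rw [eA] at h1
      have h2 : trg q w s (nxt q w s P r G' l) i k l =
          C (q ^ (w l * s i)) * (lo w (w l) (shG q w s P r G' k) -
            bind₁ (trg q w s P i k) (lo w (w l) (shG q w s P r G' i))) + C (q ^ (-(w l * (s k - s i)))) * X l := by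
        unfold trg
        rw [tr_eq _ _ ((nxt_fr hq h hG r (hik.trans hk)).vars l (Nat.lt_succ_self _))]
        have h3 : nxt q w s P r G' l k l = lo w (w l) (shG q w s P r G' k) := by
          unfold nxt
          exact Function.update_self _ _ _
        have h4 : nxt q w s P r G' l i l = lo w (w l) (shG q w s P r G' i) := by
          unfold nxt
          exact Function.update_self _ _ _
        rw [h3, h4]
        congr 3
        refine bind_congr _ fun a ha => ?_
        exact trg_nxt_lt r i k (hGv i (hik.trans hk) a (lo_vars _ _ _ ha))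
      rw [h2]
      refine h1.trans (le_trans ?_ hB')
      have := hkm hk
      linarith
    · have hlv : l.val ≠ j.val := fun h' => hlj (Fin.ext h')
      have hl' : l < j := by
        rw [Fin.lt_def]
        omega
      rw [trg_nxt_lt r i k hl']
      exact (h.tn i k hik hk l hl').trans hBB'
  · intro k hk l hl
    by_cases hlj : l = j
    · subst hlj
      have h1 := lay_tame hq hw hT hGv hb hB1 hb12 hA hs hs0 hd hG0 hf hk
      rw [eA] at h1
      have h3 : nxt q w s P r G' l k l = lo w (w l) (shG q w s P r G' k) := by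
        unfold nxt
        exact Function.update_self _ _ _
      rw [h3]
      refine h1.trans (le_trans ?_ hB')
      have := hkm hk
      linarith
    · have hlv : l.val ≠ j.val := fun h' => hlj (Fin.ext h')
      have hl' : l < j := by
        rw [Fin.lt_def]
        omega
      rw [nxt_lt r k hl']
      exact (h.pn k hk l hl').trans hBB'
  · intro k hk l hl
    by_cases hlj : l = j
    · subst hlj
      have h3 : nxt q w s P r G' l k l = lo w (w l) (shG q w s P r G' k) := by
        unfold nxt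
        exact Function.update_self _ _ _
      rw [co_eq (s k) x ((nxt_fr hq h hG r hk).vars l (Nat.lt_succ_self _)), h3]
      have h4 : eval (co q w (s k) (nxt q w s P r G' l k) x) (lo w (w l) (shG q w s P r G' k)) =
          eval (co q w (s k) (P k) x) (lo w (w l) (shG q w s P r G' k)) :=
        eval_congr _ fun a ha => co_nxt_lt r k (hGv k hk a (lo_vars _ _ _ ha))
      have h5 : eval (co q w (s k) (P k) x) (shG q w s P r G' k) =
          eval (co q w (s (k - r)) (P (k - r)) x) (G' (k - r)) := by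
        unfold shG trg
        rw [eval_bind]
        exact eval_congr _ fun a ha =>
          co_tr hq _ _ (h.fr _ (by omega)) (h.fr k hk) x a (hG.vars _ (by omega) a ha)
      have h6 := hG.pt (k - r) (by omega)
      rw [← h5] at h6
      have h7 := lay_hi hq hw hT hGv hb hB1 hb12 hA hs hs0 hd hG0 hf hk
      have h8 : |eval (co q w (s k) (P k) x) (shG q w s P r G' k - lo w (w l) (shG q w s P r G' k))| ≤
          N q w b (shG q w s P r G' k - lo w (w l) (shG q w s P r G' k)) :=
        eval_le_maj _ _ fun a ha => hB0 hk (hGv k hk a (hi_vars _ _ _ ha))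
      rw [eA] at h7
      have h9 : A0 * q ^ (-(w l * s (k - r))) ≤ A0 * q ^ (w l * ((r + 1) * d)) * q ^ (-(w l * s k)) := by
        rw [mul_assoc]
        refine mul_le_mul_of_nonneg_left ?_ hA0
        rw [← Real.rpow_add hq0]
        refine Real.rpow_le_rpow_of_exponent_le hq ?_
        have h10 : s k - s (k - r) ≤ (r + 1) * d := by
          by_cases hrk : r ≤ k
          · have h7 := step_sum hq hd (k - r) r
            have e2 : k - r + r = k := by omega
            rw [e2] at h7
            nlinarith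
          · have h11 := step_sum hq hd 0 k
            rw [Nat.sub_eq_zero_of_le (by omega)]
            rw [zero_add] at h11
            have h12 : (k : ℝ) ≤ r := by exact_mod_cast (by omega : k ≤ r)
            nlinarith
        nlinarith
      rw [h4, abs_mul, abs_of_nonneg (hnn _)]
      have h10 : |x l - eval (co q w (s k) (P k) x) (lo w (w l) (shG q w s P r G' k))| ≤
          (m + 1) * (A0 * q ^ (w l * ((r + 1) * d))) * q ^ (-(w l * s k)) := by
        have e3 : x l - eval (co q w (s k) (P k) x) (lo w (w l) (shG q w s P r G' k)) =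
            (x l - eval (co q w (s k) (P k) x) (shG q w s P r G' k)) +
              eval (co q w (s k) (P k) x) (shG q w s P r G' k - lo w (w l) (shG q w s P r G' k)) := by
          rw [map_sub]
          ring
        rw [e3]
        refine (abs_add_le _ _).trans ?_
        have h13 := mul_le_mul_of_nonneg_right (hkm hk) (hnn (-(w l * s k)))
        have h14 := (h6.trans h9)
        have h15 := (h8.trans h7)
        calc _ ≤ A0 * q ^ (w l * ((r + 1) * d)) * q ^ (-(w l * s k)) +
              m * (A0 * q ^ (w l * ((r + 1) * d))) * q ^ (-(w l * s k)) := add_le_add h14 (h15.trans h13)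
          _ = (m + 1) * (A0 * q ^ (w l * ((r + 1) * d))) * q ^ (-(w l * s k)) := by ring
      refine (mul_le_mul_of_nonneg_left h10 (hnn _)).trans ?_
      have h11 : q ^ (w l * s k) * q ^ (-(w l * s k)) = 1 := by
        rw [← Real.rpow_add hq0, add_neg_cancel, Real.rpow_zero]
      calc q ^ (w l * s k) * ((m + 1) * (A0 * q ^ (w l * ((r + 1) * d))) * q ^ (-(w l * s k)))
          = (m + 1) * (A0 * q ^ (w l * ((r + 1) * d))) * (q ^ (w l * s k) * q ^ (-(w l * s k))) := by ring
        _ ≤ B' := by
            rw [h11, mul_one]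
            linarith
    · have hlv : l.val ≠ j.val := fun h' => hlj (Fin.ext h')
      have hl' : l < j := by
        rw [Fin.lt_def]
        omega
      rw [co_nxt_lt r k hl']
      exact (h.yn k hk l hl').trans hBB'

end

end Pool.Agent.Helper85.FRM
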