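import Pool.Agent.Helper85.FRM.Maj

/-! FRT, step 2: reduced triangular frames, scaled coordinates, transitions between windows. -/

set_option autoImplicit false

namespace Pool.Agent.Helper85.FRM

open MvPolynomial Finset

theorem bind_congr {σ : Type*} [Fintype σ] {T T' : σ → MvPolynomial σ ℝ} (P : MvPolynomial σ ℝ)
    (h : ∀ i ∈ P.vars, T i = T' i) : bind₁ T P = bind₁ T' P := by
  rw [bind_eq, bind_eq]
  refine Finset.sum_congr rfl fun a ha => ?_
  congr 1
  refine Finset.prod_congr rfl fun i _ => ?_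
  by_cases hi : i ∈ P.vars
  · rw [h i hi]
  · rw [exp_zero_of_notMem ha hi, pow_zero, pow_zero]

theorem eval_congr {σ : Type*} [Fintype σ] {x y : σ → ℝ} (P : MvPolynomial σ ℝ) (h : ∀ i ∈ P.vars, x i = y i) :
    eval x P = eval y P := by
  rw [eval_eq', eval_eq']
  refine Finset.sum_congr rfl fun a ha => ?_
  congr 1
  refine Finset.prod_congr rfl fun i _ => ?_
  by_cases hi : i ∈ P.vars
  · rw [h i hi]
  · rw [exp_zero_of_notMem ha hi, pow_zero, pow_zero]

theorem eval_bind {σ : Type*} (T : σ → MvPolynomial σ ℝ) (P : MvPolynomial σ ℝ) (x : σ → ℝ) :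
    eval x (bind₁ T P) = eval (fun i => eval x (T i)) P := by
  change eval₂Hom (RingHom.id ℝ) x (bind₁ T P) = _
  rw [eval₂Hom_bind₁]
  rfl

theorem bind_X {σ : Type*} (P : MvPolynomial σ ℝ) : bind₁ (X : σ → MvPolynomial σ ℝ) P = P := by
  exact MvPolynomial.aeval_X_left_apply P

/-- recentring at the point `y` -/
noncomputable def rec' {σ : Type*} (y : σ → ℝ) (f : MvPolynomial σ ℝ) : MvPolynomial σ ℝ :=
  bind₁ (fun l => X l + C (y l)) f

theorem vars_rec {σ : Type*} (y : σ → ℝ) (f : MvPolynomial σ ℝ) : (rec' y f).vars ⊆ f.vars := by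
  classical
  refine (MvPolynomial.vars_bind₁ _ f).trans fun i hi => ?_
  obtain ⟨l, hl, hil⟩ := Finset.mem_biUnion.mp hi
  have h1 := MvPolynomial.vars_add_subset (X l : MvPolynomial σ ℝ) (C (y l)) hil
  rw [MvPolynomial.vars_X, MvPolynomial.vars_C, Finset.union_empty, Finset.mem_singleton] at h1
  rw [h1]
  exact hl

theorem bind_rec {σ : Type*} (y : σ → ℝ) (f : MvPolynomial σ ℝ) (T : σ → MvPolynomial σ ℝ) :
    bind₁ (fun l => T l - C (y l)) (rec' y f) = bind₁ T f := by
  unfold rec'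
  rw [bind₁_bind₁]
  congr 1
  congr 1
  funext l
  rw [map_add, bind₁_X_right, bind₁_C_right, sub_add_cancel]

section
variable {σ : Type*} [Fintype σ] {q : ℝ} (hq : 1 ≤ q) (w : σ → ℝ) (hw : ∀ i, 1 ≤ w i)
include hq

/-- a polynomial small near the point `y` (with `ε`-loss) is small in the coordinates of a later window -/
theorem N_rec {e e1 : ℝ} (y : σ → ℝ) (f : MvPolynomial σ ℝ) (T : σ → MvPolynomial σ ℝ)
    (hT : ∀ l ∈ f.vars, N q w e1 (T l - C (y l)) ≤ q ^ (-e * w l)) :
    N q w e1 (bind₁ T f) ≤ N q w (-e) (rec' y f) := by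
  rw [← bind_rec y f T]
  exact N_bind hq w _ _ fun i hi => hT i (vars_rec y f hi)

include hw

omit hq in
theorem one_le_wd {a : σ →₀ ℕ} (ha : a ≠ 0) : 1 ≤ wd w a := by
  classical
  have h1 : ∃ i, a i ≠ 0 := by
    by_contra h
    push Not at h
    exact ha (Finsupp.ext h)
  obtain ⟨i, hi⟩ := h1
  unfold wd
  have h2 : (a i : ℝ) * w i ≤ ∑ l, (a l : ℝ) * w l :=
    Finset.single_le_sum (f := fun l => (a l : ℝ) * w l)
      (fun l _ => mul_nonneg (Nat.cast_nonneg _) (by linarith [hw l])) (Finset.mem_univ i)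
  have h3 : (1 : ℝ) ≤ a i := by exact_mod_cast Nat.one_le_iff_ne_zero.mpr hi
  have h4 : (1 : ℝ) ≤ (a i : ℝ) * w i := by nlinarith [hw i]
  linarith

theorem N_pt {s e : ℝ} (hs : e ≤ s) (P : MvPolynomial σ ℝ) (x : σ → ℝ) (hx : ∀ i ∈ P.vars, |x i| ≤ q ^ (e * w i)) :
    N q w e (P - C (eval x P)) ≤ 2 * q ^ (-(s - e)) * N q w s P := by
  classical
  have hq0 : (0 : ℝ) < q := by linarith
  have e1 : P - C (eval x P) = ∑ a ∈ P.support, C (P.coeff a) * (monomial a 1 - C (∏ i, x i ^ a i)) := by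
    have e2 : ∑ a ∈ P.support, C (P.coeff a) * (monomial a 1 - C (∏ i, x i ^ a i)) =
        ∑ a ∈ P.support, (monomial a (P.coeff a) - C (P.coeff a * ∏ i, x i ^ a i)) := by
      refine Finset.sum_congr rfl fun a _ => ?_
      rw [mul_sub, C_mul_monomial, mul_one, C_mul]
    rw [e2, Finset.sum_sub_distrib, ← P.as_sum, ← map_sum, eval_eq' x P]
  rw [e1]
  refine (N_sum hq w e _ _).trans ?_
  rw [N_eq hq w s P, Finset.mul_sum]
  refine Finset.sum_le_sum fun a ha => ?_
  refine (N_C_mul hq w e _ _).trans ?_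
  rw [mul_left_comm]
  refine mul_le_mul_of_nonneg_left ?_ (abs_nonneg _)
  by_cases h0 : a = 0
  · subst h0
    have e2 : (monomial (0 : σ →₀ ℕ)) (1 : ℝ) - C (∏ i, x i ^ (0 : σ →₀ ℕ) i) = 0 := by
      simp
    rw [e2]
    have e3 : N q w e (0 : MvPolynomial σ ℝ) = 0 := maj_zero _
    rw [e3]
    positivity
  · have h1 := one_le_wd w hw h0
    have h2 : N q w e ((monomial a) (1 : ℝ)) = q ^ (e * wd w a) := by
      unfold N
      rw [maj_monomial, abs_one, one_mul, prod_pv hq]
    have h3 : N q w e (C (∏ i, x i ^ a i)) ≤ q ^ (e * wd w a) := by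
      unfold N
      rw [maj_C, ← prod_pv hq w e a, Finset.abs_prod]
      refine Finset.prod_le_prod (fun i _ => abs_nonneg _) fun i _ => ?_
      rw [abs_pow]
      by_cases hi : i ∈ P.vars
      · exact pow_le_pow_left₀ (abs_nonneg _) (hx i hi) _
      · rw [exp_zero_of_notMem ha hi, pow_zero, pow_zero]
    refine (N_sub hq w e _ _).trans ?_
    rw [h2]
    have h4 : q ^ (e * wd w a) ≤ q ^ (-(s - e)) * q ^ (s * wd w a) := by
      rw [← Real.rpow_add hq0]
      refine Real.rpow_le_rpow_of_exponent_le hq ?_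
      nlinarith
    calc q ^ (e * wd w a) + N q w e (C (∏ i, x i ^ a i)) ≤ 2 * q ^ (e * wd w a) := by linarith
      _ ≤ 2 * (q ^ (-(s - e)) * q ^ (s * wd w a)) := by linarith
      _ = 2 * q ^ (-(s - e)) * q ^ (s * wd w a) := by ring

end

/-! ### frames -/

variable {M : ℕ}

/-- a reduced triangular frame (layers below `J`): `x_l = P_l(U_<l) + U_l`, monomials of weighted degree `< w_l` -/
structure Fr (w : Fin M → ℝ) (J : ℕ) (P : Fin M → MvPolynomial (Fin M) ℝ) : Prop where
  vars : ∀ l : Fin M, l.val < J → ∀ i ∈ (P l).vars, i < l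
  wd : ∀ l : Fin M, l.val < J → ∀ a ∈ (P l).support, wd w a < w l

/-- TRANSITION: component `l` of the coordinates of window `a` (frame `Pa`) as a polynomial in those of window `b` (`Pb`) -/
noncomputable def tr (q : ℝ) (w : Fin M → ℝ) (a b : ℝ) (Pa Pb : Fin M → MvPolynomial (Fin M) ℝ) (l : Fin M) :
    MvPolynomial (Fin M) ℝ :=
  C (q ^ (w l * a)) * (Pb l - bind₁ (fun m => if _h : m < l then tr q w a b Pa Pb m else X m) (Pa l)) +
    C (q ^ (-(w l * (b - a)))) * X l
termination_by l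

/-- scaled COORDINATES of the point `x` in the frame `P` of window `a` -/
noncomputable def co (q : ℝ) (w : Fin M → ℝ) (a : ℝ) (P : Fin M → MvPolynomial (Fin M) ℝ) (x : Fin M → ℝ) (l : Fin M) : ℝ :=
  q ^ (w l * a) * (x l - eval (fun m => if _h : m < l then co q w a P x m else 0) (P l))
termination_by l

section
variable {q : ℝ} {w : Fin M → ℝ}

theorem tr_eq (a b : ℝ) {Pa Pb : Fin M → MvPolynomial (Fin M) ℝ} {l : Fin M} (hv : ∀ i ∈ (Pa l).vars, i < l) :
    tr q w a b Pa Pb l = C (q ^ (w l * a)) * (Pb l - bind₁ (tr q w a b Pa Pb) (Pa l)) +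
      C (q ^ (-(w l * (b - a)))) * X l := by
  rw [tr]
  congr 3
  refine bind_congr _ fun i hi => ?_
  rw [dif_pos (hv i hi)]

theorem co_eq (a : ℝ) {P : Fin M → MvPolynomial (Fin M) ℝ} (x : Fin M → ℝ) {l : Fin M} (hv : ∀ i ∈ (P l).vars, i < l) :
    co q w a P x l = q ^ (w l * a) * (x l - eval (co q w a P x) (P l)) := by
  rw [co]
  congr 2
  refine eval_congr _ fun i hi => ?_
  rw [dif_pos (hv i hi)]

theorem tr_congr (a b : ℝ) {Pa Pb Pa' Pb' : Fin M → MvPolynomial (Fin M) ℝ} (l : Fin M)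
    (ha : ∀ i ≤ l, Pa i = Pa' i) (hb : ∀ i ≤ l, Pb i = Pb' i) : tr q w a b Pa Pb l = tr q w a b Pa' Pb' l := by
  induction l using WellFoundedLT.induction with
  | ind l ih =>
    rw [tr, tr, ha l le_rfl, hb l le_rfl]
    congr 3
    refine bind_congr _ fun i _ => ?_
    by_cases hi : i < l
    · rw [dif_pos hi, dif_pos hi]
      exact ih i hi (fun i' h => ha i' (h.trans hi.le)) fun i' h => hb i' (h.trans hi.le)
    · rw [dif_neg hi, dif_neg hi]

theorem co_congr (a : ℝ) {P P' : Fin M → MvPolynomial (Fin M) ℝ} {x x' : Fin M → ℝ} (l : Fin M)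
    (hP : ∀ i ≤ l, P i = P' i) (hx : ∀ i ≤ l, x i = x' i) : co q w a P x l = co q w a P' x' l := by
  induction l using WellFoundedLT.induction with
  | ind l ih =>
    rw [co, co, hP l le_rfl, hx l le_rfl]
    congr 2
    refine eval_congr _ fun i _ => ?_
    by_cases hi : i < l
    · rw [dif_pos hi, dif_pos hi]
      exact ih i hi (fun i' h => hP i' (h.trans hi.le)) fun i' h => hx i' (h.trans hi.le)
    · rw [dif_neg hi, dif_neg hi]

theorem tr_vars (a b : ℝ) {J : ℕ} {Pa Pb : Fin M → MvPolynomial (Fin M) ℝ} (ha : Fr w J Pa) (hb : Fr w J Pb)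
    (l : Fin M) (hl : l.val < J) : ∀ i ∈ (tr q w a b Pa Pb l).vars, i ≤ l := by
  classical
  induction l using WellFoundedLT.induction with
  | ind l ih =>
    rw [tr_eq a b (ha.vars l hl)]
    intro i hi
    rcases Finset.mem_union.mp (MvPolynomial.vars_add_subset _ _ hi) with h | h
    · have h1 := MvPolynomial.vars_mul _ _ h
      rw [MvPolynomial.vars_C, Finset.empty_union] at h1
      rcases Finset.mem_union.mp (MvPolynomial.vars_sub_subset _ h1) with h2 | h2
      · exact (hb.vars l hl i h2).le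
      · obtain ⟨n, hn, hin⟩ := Finset.mem_biUnion.mp (MvPolynomial.vars_bind₁ _ _ h2)
        have hnl := ha.vars l hl n hn
        exact (ih n hnl (lt_trans hnl hl) i hin).trans hnl.le
    · have h1 := MvPolynomial.vars_mul _ _ h
      rw [MvPolynomial.vars_C, Finset.empty_union, MvPolynomial.vars_X, Finset.mem_singleton] at h1
      exact h1.le

theorem tr_WD (a b : ℝ) {J : ℕ} {Pa Pb : Fin M → MvPolynomial (Fin M) ℝ} (ha : Fr w J Pa) (hb : Fr w J Pb)
    (l : Fin M) (hl : l.val < J) : WD w (tr q w a b Pa Pb l) (w l) := by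
  induction l using WellFoundedLT.induction with
  | ind l ih =>
    rw [tr_eq a b (ha.vars l hl)]
    refine WD.add (WD.C_mul _ (WD.sub (fun c hc => (hb.wd l hl c hc).le) (WD.bind (fun c hc => (ha.wd l hl c hc).le)
      fun i hi => ?_))) (WD.C_mul _ (WD.X w l))
    have hil := ha.vars l hl i hi
    exact ih i hil (lt_trans hil hl)

theorem tr_self (a : ℝ) {J : ℕ} {P : Fin M → MvPolynomial (Fin M) ℝ} (hP : Fr w J P) (l : Fin M)
    (hl : l.val < J) : tr q w a a P P l = X l := by
  induction l using WellFoundedLT.induction with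
  | ind l ih =>
    rw [tr_eq a a (hP.vars l hl)]
    have h1 : bind₁ (tr q w a a P P) (P l) = P l := by
      rw [bind_congr (T' := X) (P l) fun i hi => ih i (hP.vars l hl i hi) (lt_trans (hP.vars l hl i hi) hl), bind_X]
    rw [h1, sub_self, mul_zero, zero_add, sub_self, mul_zero, neg_zero, Real.rpow_zero, C_1, one_mul]

theorem tr_comp (hq : 1 ≤ q) (a b c : ℝ) {J : ℕ} {Pa Pb Pc : Fin M → MvPolynomial (Fin M) ℝ} (ha : Fr w J Pa)
    (hb : Fr w J Pb) (l : Fin M) (hl : l.val < J) :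
    bind₁ (tr q w b c Pb Pc) (tr q w a b Pa Pb l) = tr q w a c Pa Pc l := by
  have hq0 : (0 : ℝ) < q := by linarith
  induction l using WellFoundedLT.induction with
  | ind l ih =>
    have h1 : bind₁ (tr q w b c Pb Pc) (bind₁ (tr q w a b Pa Pb) (Pa l)) = bind₁ (tr q w a c Pa Pc) (Pa l) := by
      rw [bind₁_bind₁]
      exact bind_congr _ fun i hi => ih i (ha.vars l hl i hi) (lt_trans (ha.vars l hl i hi) hl)
    rw [tr_eq a b (ha.vars l hl), map_add, map_mul, map_sub, map_mul, h1, bind₁_C_right, bind₁_C_right, bind₁_X_right,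
      tr_eq b c (hb.vars l hl), tr_eq a c (ha.vars l hl)]
    have h2 : (C (q ^ (-(w l * (b - a)))) : MvPolynomial (Fin M) ℝ) * C (q ^ (w l * b)) = C (q ^ (w l * a)) := by
      rw [← C_mul, ← Real.rpow_add hq0]
      congr 2
      ring
    have h3 : (C (q ^ (-(w l * (b - a)))) : MvPolynomial (Fin M) ℝ) * C (q ^ (-(w l * (c - b)))) =
        C (q ^ (-(w l * (c - a)))) := by
      rw [← C_mul, ← Real.rpow_add hq0]
      congr 2
      ring
    rw [mul_add, ← mul_assoc, ← mul_assoc, h2, h3]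
    ring

theorem co_tr (hq : 1 ≤ q) (a b : ℝ) {J : ℕ} {Pa Pb : Fin M → MvPolynomial (Fin M) ℝ} (ha : Fr w J Pa)
    (hb : Fr w J Pb) (x : Fin M → ℝ) (l : Fin M) (hl : l.val < J) :
    eval (co q w b Pb x) (tr q w a b Pa Pb l) = co q w a Pa x l := by
  have hq0 : (0 : ℝ) < q := by linarith
  induction l using WellFoundedLT.induction with
  | ind l ih =>
    rw [tr_eq a b (ha.vars l hl), map_add, map_mul, map_sub, map_mul, eval_C, eval_C, eval_X, eval_bind,
      co_eq a x (ha.vars l hl)]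
    have h1 : eval (fun i => eval (co q w b Pb x) (tr q w a b Pa Pb i)) (Pa l) = eval (co q w a Pa x) (Pa l) :=
      eval_congr _ fun i hi => ih i (ha.vars l hl i hi) (lt_trans (ha.vars l hl i hi) hl)
    rw [h1]
    have h2 : q ^ (-(w l * (b - a))) * co q w b Pb x l = q ^ (w l * a) * (x l - eval (co q w b Pb x) (Pb l)) := by
      rw [co_eq b x (hb.vars l hl), ← mul_assoc, ← Real.rpow_add hq0]
      congr 2
      ring
    rw [h2]
    ring

end

end Pool.Agent.Helper85.FRM
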