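import Pool.Agent.Helper85.FRM.St
import Pool.Agent.Helper3.LF.Adm
import Pool.Agent.Helper84.MT.Leaf0

/-! FRT, towers: monotonicity, subgrids, tame constants, structural towers, diagonal, amalgams of labels. -/

set_option autoImplicit false

namespace Pool.Agent.Helper85.FRM

open Finset Filter Topology Pool.Agent.Helper69.RK Pool.Agent.Helper31.EC Pool.Agent.Helper31.EC.Sp
open Pool.Agent.Helper40.EL Pool.Agent.Helper89.LX Pool.Agent.Helper3.LF Pool.Agent.Helper84.MT Pool.Agent.Helper36.AM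

noncomputable section

/-! ### states -/

section
variable {M : ℕ} {q : ℝ} {w : Fin M → ℝ} {s : ℕ → ℝ} {m J : ℕ} {B B' : ℝ}
  {P P' : ℕ → Fin M → MvPolynomial (Fin M) ℝ} {x : Fin M → ℝ}

theorem Sta.mono (h : Sta q w s m J B P x) (hB : B ≤ B') : Sta q w s m J B' P x :=
  ⟨h.fr, fun i k a b l c => (h.tn i k a b l c).trans hB, fun k a l b => (h.pn k a l b).trans hB,
    fun k a l b => (h.yn k a l b).trans hB⟩

theorem Sta.congr (h : Sta q w s m J B P x) (hP : ∀ i, i ≤ m → P i = P' i) : Sta q w s m J B P' x := by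
  refine ⟨fun k hk => ?_, fun i k a b l c => ?_, fun k a l b => ?_, fun k a l b => ?_⟩
  · rw [← hP k hk]
    exact h.fr k hk
  · have h1 := h.tn i k a b l c
    unfold trg at h1 ⊢
    rw [← hP i (a.trans b), ← hP k b]
    exact h1
  · rw [← hP k a]
    exact h.pn k a l b
  · rw [← hP k a]
    exact h.yn k a l b

theorem Sta.sub (h : Sta q w s m J B P x) {f : ℕ → ℕ} (hf : Monotone f) {m' : ℕ} (hm : f m' ≤ m) {s' : ℕ → ℝ}
    (hs : ∀ i, s' i = s (f i)) : Sta q w s' m' J B (fun i => P (f i)) x := by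
  have hle : ∀ i, i ≤ m' → f i ≤ m := fun i hi => (hf hi).trans hm
  refine ⟨fun k hk => h.fr _ (hle k hk), fun i k a b l c => ?_, fun k a l b => ?_, fun k a l b => ?_⟩
  · have h1 := h.tn (f i) (f k) (hf a) (hle k b) l c
    unfold trg at h1 ⊢
    rw [hs, hs]
    exact h1
  · rw [hs]
    exact h.pn (f k) (hle k a) l b
  · rw [hs]
    exact h.yn (f k) (hle k a) l b

theorem Fr_zero (w : Fin M → ℝ) (J : ℕ) : Fr w J (0 : Fin M → MvPolynomial (Fin M) ℝ) where
  vars := by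
    intro l _ i hi
    rw [Pi.zero_apply, MvPolynomial.vars_0] at hi
    exact absurd hi (Finset.notMem_empty _)
  wd := by
    intro l _ a ha
    rw [Pi.zero_apply, MvPolynomial.support_zero] at ha
    exact absurd ha (Finset.notMem_empty _)

theorem Fr.mono_J {J' : ℕ} {P : Fin M → MvPolynomial (Fin M) ℝ} (h : Fr w J P) (hJ : J' ≤ J) : Fr w J' P :=
  ⟨fun l hl => h.vars l (by omega), fun l hl => h.wd l (by omega)⟩

end

variable {S : Sp} {M : ℕ} {E : ℕ → ℕ} {ι : Type}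

/-! ### towers at a finite level -/

/-- the structural conditions of a tower -/
structure TwF.Str {F : FSp} (w : Fin M → ℝ) (m J : ℕ) (t : TwF F M) : Prop where
  anti : ∀ i, t.V (i + 1) ≤ t.V i
  fr : ∀ i ω, Fr w J (t.P i ω)
  zero : ∀ ω l, t.P 0 ω l = 0
  meas : ∀ i, i ≤ m → ∀ ω ω', t.T.μ ω ≠ 0 → t.T.μ ω' ≠ 0 → t.T.Z ω ω' → t.V i ω ω' → t.P i ω = t.P i ω'

theorem TwF.Ok.str [Countable ι] {s : MSys S M E ι} {w : Fin M → ℝ} {sg : ℕ → ℝ} {m J : ℕ} {η : ℝ} {k : ℕ}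
    {t : TwF (S.F k) M} (h : TwF.Ok s w sg m J η k t) : t.Str w m J := ⟨h.anti, h.fr, h.zero, h.meas⟩

/-- the trivial tower -/
def TwF.triv (F : FSp) (M : ℕ) : TwF F M where
  T := F
  p := (FLab.triv F).p
  hn := rfl
  V := fun _ => ⊤
  P := fun _ _ => 0
  A := fun _ => True

theorem TwF.triv_str (F : FSp) (w : Fin M → ℝ) (m J : ℕ) : (TwF.triv F M).Str w m J :=
  ⟨fun _ => le_rfl, fun _ _ => Fr_zero w J, fun _ _ => rfl, fun _ _ _ _ _ _ _ _ => rfl⟩

theorem V_anti {α : Type*} [Preorder α] {V : ℕ → α} (h : ∀ i, V (i + 1) ≤ V i) {i i' : ℕ} (hi : i ≤ i') :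
    V i' ≤ V i := antitone_nat_of_succ_le h hi

/-- restriction to a subgrid -/
def TwF.sub {F : FSp} (t : TwF F M) (f : ℕ → ℕ) : TwF F M where
  T := t.T
  p := t.p
  hn := t.hn
  V := fun i => t.V (f i)
  P := fun i => t.P (f i)
  A := t.A

section
variable [Countable ι] {s : MSys S M E ι} {w : Fin M → ℝ} {sg sg' : ℕ → ℝ} {m m' J : ℕ} {η η' : ℝ} {k : ℕ}

theorem TwF.Ok.mono {t : TwF (S.F k) M} (h : TwF.Ok s w sg m J η k t) (hη : η ≤ η') : TwF.Ok s w sg m J η' k t where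
  leak := fun i h1 h2 a => (h.leak i h1 h2 a).trans (mul_le_mul_of_nonneg_right hη (S.F k).pos.le)
  info := fun i h1 h2 => (by linarith [h.info i h1 h2])
  anti := h.anti
  fr := h.fr
  zero := h.zero
  meas := h.meas
  typ := h.typ.trans hη
  sta := fun ω h1 h2 => (h.sta ω h1 h2).mono (Real.rpow_le_rpow_of_exponent_le (by norm_num)
    (mul_le_mul_of_nonneg_right hη (S.F k).pos.le))

theorem TwF.Ok.sub {t : TwF (S.F k) M} (h : TwF.Ok s w sg m J η k t) {f : ℕ → ℕ} (hf : Monotone f) (hm : f m' ≤ m)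
    (hf0 : f 0 = 0) (hf1 : ∀ i, 1 ≤ i → 1 ≤ f i) (hs : ∀ i, sg' i = sg (f i)) : TwF.Ok s w sg' m' J η k (t.sub f) where
  leak := by
    intro i h1 h2 a
    rw [hs]
    exact h.leak (f i) (hf1 i h1) ((hf h2).trans hm) a
  info := by
    intro i h1 h2
    rw [hs]
    exact h.info (f i) (hf1 i h1) ((hf h2).trans hm)
  anti := fun i => V_anti h.anti (hf (Nat.le_succ i))
  fr := fun i ω => h.fr (f i) ω
  zero := by
    intro ω l
    show t.P (f 0) ω l = 0
    rw [hf0]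
    exact h.zero ω l
  meas := fun i hi => h.meas (f i) ((hf hi).trans hm)
  typ := h.typ
  sta := fun ω h1 h2 => (h.sta ω h1 h2).sub hf hm hs

/-! ### exact towers -/

theorem TwOk.sub {t : ∀ k, TwF (S.F k) M} (h : TwOk s w sg m J t) {f : ℕ → ℕ} (hf : Monotone f) (hm : f m' ≤ m)
    (hf0 : f 0 = 0) (hf1 : ∀ i, 1 ≤ i → 1 ≤ f i) (hs : ∀ i, sg' i = sg (f i)) :
    TwOk s w sg' m' J (fun k => (t k).sub f) := by
  intro η hη
  filter_upwards [h η hη] with k hk using hk.sub hf hm hf0 hf1 hs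

/-- the structural conditions may be assumed at all indices -/
theorem TwOk.clean {t : ∀ k, TwF (S.F k) M} (h : TwOk s w sg m J t) :
    ∃ t' : ∀ k, TwF (S.F k) M, TwOk s w sg m J t' ∧ ∀ k, (t' k).Str w m J := by
  classical
  refine ⟨fun k => if (t k).Str w m J then t k else TwF.triv (S.F k) M, fun η hη => ?_, fun k => ?_⟩
  · filter_upwards [h η hη] with k hk
    rw [if_pos hk.str]
    exact hk
  · show TwF.Str w m J (if (t k).Str w m J then t k else TwF.triv (S.F k) M)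
    by_cases h1 : (t k).Str w m J
    · rw [if_pos h1]
      exact h1
    · rw [if_neg h1]
      exact TwF.triv_str _ _ _ _

/-- from `eta` to one tame constant -/
theorem tame_of_eta (G : ℕ → ℝ → Prop) (h : ∀ η : ℝ, 0 < η → ∀ᶠ k in UF, G k (2 ^ (η * (S.F k).n))) :
    ∃ K : ℕ → ℝ, S.Sub K ∧ (∀ k, 1 ≤ K k) ∧ ∀ᶠ k in UF, G k (K k) := by
  obtain ⟨j, hj, hG⟩ := dia (fun i k => G k (2 ^ (1 / ((i : ℝ) + 1) * (S.F k).n))) fun i => h _ (by positivity)
  have h0 : Tendsto (fun k => 1 / ((j k : ℝ) + 1)) UF (𝓝 0) := tendsto_one_div_add_atTop_nhds_zero_nat.comp hj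
  refine ⟨fun k => 2 ^ (1 / ((j k : ℝ) + 1) * (S.F k).n), Sub_pow_two h0 (Eventually.of_forall fun k => by positivity),
    fun k => Real.one_le_rpow (by norm_num) (mul_nonneg (by positivity) (S.F k).pos.le), ?_⟩
  filter_upwards [hG] with k hk using hk (j k) le_rfl

theorem TwOk.tame {t : ∀ k, TwF (S.F k) M} (h : TwOk s w sg m J t) : ∃ K : ℕ → ℝ, S.Sub K ∧ (∀ k, 1 ≤ K k) ∧
    ∀ᶠ k in UF, ∀ ω, (t k).T.μ ω ≠ 0 → (t k).A ω → Sta (2 ^ (S.F k).n) w sg m J (K k) (fun i => (t k).P i ω)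
      (s.Q.v k ((t k).p.π ω)) := by
  apply tame_of_eta fun k B => ∀ ω, (t k).T.μ ω ≠ 0 → (t k).A ω → Sta (2 ^ (S.F k).n) w sg m J B
    (fun i => (t k).P i ω) (s.Q.v k ((t k).p.π ω))
  intro η hη
  filter_upwards [h η hη] with k hk using hk.sta

/-- DIAGONAL -/
theorem TwOk.diag (h : ∀ u : ℕ, ∃ t : ∀ k, TwF (S.F k) M, ∀ᶠ k in UF, TwF.Ok s w sg m J (1 / ((u : ℝ) + 1)) k (t k)) :
    ∃ t : ∀ k, TwF (S.F k) M, TwOk s w sg m J t := by
  choose t ht using h
  obtain ⟨y, j, hj, hy, hG⟩ := dia' (X := fun k => TwF (S.F k) M) t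
    (fun i k x => TwF.Ok s w sg m J (1 / ((i : ℝ) + 1)) k x) ht
  have h0 : Tendsto (fun k => 1 / ((j k : ℝ) + 1)) UF (𝓝 0) := tendsto_one_div_add_atTop_nhds_zero_nat.comp hj
  refine ⟨y, fun η hη => ?_⟩
  filter_upwards [hG, h0.eventually (gt_mem_nhds hη)] with k h1 h2 using h1.mono h2.le

theorem TwOk.typA {t : ∀ k, TwF (S.F k) M} (h : TwOk s w sg m J t) :
    Tendsto (fun k => (t k).T.pb (fun ω => ¬ (t k).A ω)) UF (𝓝 0) := by
  rw [Metric.tendsto_nhds]
  intro ε hε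
  filter_upwards [h (ε / 2) (by linarith)] with k hk
  rw [Real.dist_eq, sub_zero, abs_of_nonneg (FSp.pb_nonneg _ _)]
  linarith [hk.typ]

end

/-! ### amalgams of finitely many labels -/

/-- a common extension of finitely many labels -/
structure Ama {N : ℕ} (L : Fin N → Lab S) where
  U : ∀ k, FSp
  p : ∀ k, FPj (U k) (S.F k)
  hn : ∀ k, (U k).n = (S.F k).n
  q : ∀ k a, FPj (U k) (L a k).T
  cm : ∀ k a w, (U k).μ w ≠ 0 → (L a k).p.π ((q k a).π w) = (p k).π w
  fam : ∀ k, ∀ (W : ∀ a, Setoid (L a k).T.Ω) (V : Setoid (U k).Ω),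
    (∀ w w', V w w' ↔ ∀ a, W a ((q k a).π w) ((q k a).π w')) →
      (∀ x : FL (S.F k), (FLab.mk (U k) (p k) (hn k) V).leak x ≤
        ∑ a, (FLab.mk (L a k).T (L a k).p (L a k).hn (W a)).leak x) ∧
      ∀ a, (FLab.mk (L a k).T (L a k).p (L a k).hn (W a)).info ≤ (FLab.mk (U k) (p k) (hn k) V).info

theorem exists_ama (hF : FAMP) {N : ℕ} (L : Fin N → Lab S) : Nonempty (Ama L) := by
  have h1 : ∀ k, _ := fun k => hF (S.F k) N (fun a => L a k)
  choose U p hn q cm fam using h1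
  exact ⟨⟨U, p, hn, q, cm, fam⟩⟩

/-- leak of the trivial partition -/
theorem leak_top {F : FSp} (T : FSp) (p : FPj T F) (hn : T.n = F.n) (x : FL F) :
    (FLab.mk T p hn ⊤).leak x = 0 := by
  unfold FLab.leak
  apply I_zero_of_le_left
  exact bot_le

namespace Ama

variable {N : ℕ} {L : Fin N → Lab S} (Am : Ama L)

/-- joins of the labels with the numbers in `c` -/
def J (W : ∀ a k, Setoid (L a k).T.Ω) (c : Fin N → Prop) (k : ℕ) : Setoid (Am.U k).Ω where
  r := fun w w' => ∀ a, c a → W a k ((Am.q k a).π w) ((Am.q k a).π w')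
  iseqv := ⟨fun _ a _ => (W a k).refl _, fun h a ha => (W a k).symm (h a ha),
    fun h h' a ha => (W a k).trans (h a ha) (h' a ha)⟩

theorem J_le (W : ∀ a k, Setoid (L a k).T.Ω) {c : Fin N → Prop} {a : Fin N} (ha : c a) (k : ℕ) :
    Am.J W c k ≤ Setoid.comap (Am.q k a).π (W a k) := fun _ _ h => h a ha

/-- the label of a partition -/
def lab (V : ∀ k, Setoid (Am.U k).Ω) : Lab S := fun k => ⟨Am.U k, Am.p k, Am.hn k, V k⟩

theorem leak_J (W : ∀ a k, Setoid (L a k).T.Ω) (c : Fin N → Prop) (k : ℕ) (x : FL (S.F k)) (b : Fin N → ℝ)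
    (hb : ∀ a, 0 ≤ b a)
    (h : ∀ a, c a → (FLab.mk (L a k).T (L a k).p (L a k).hn (W a k)).leak x ≤ b a) :
    (Am.lab (Am.J W c) k).leak x ≤ ∑ a, b a := by
  classical
  have h1 := (Am.fam k (fun a => if c a then W a k else ⊤) (Am.J W c k) (fun w w' => by
    constructor
    · intro h2 a
      by_cases ha : c a
      · rw [if_pos ha]
        exact h2 a ha
      · rw [if_neg ha]
        trivial
    · intro h2 a ha
      have h3 := h2 a
      rw [if_pos ha] at h3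
      exact h3)).1 x
  refine h1.trans (Finset.sum_le_sum fun a _ => ?_)
  by_cases ha : c a
  · rw [if_pos ha]
    exact h a ha
  · rw [if_neg ha, leak_top]
    exact hb a

theorem info_J (W : ∀ a k, Setoid (L a k).T.Ω) {c : Fin N → Prop} {a : Fin N} (ha : c a) (k : ℕ) :
    (FLab.mk (L a k).T (L a k).p (L a k).hn (W a k)).info ≤ (Am.lab (Am.J W c) k).info := by
  classical
  have h1 := (Am.fam k (fun a => if c a then W a k else ⊤) (Am.J W c k) (fun w w' => by
    constructor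
    · intro h2 a
      by_cases ha : c a
      · rw [if_pos ha]
        exact h2 a ha
      · rw [if_neg ha]
        trivial
    · intro h2 a ha
      have h3 := h2 a
      rw [if_pos ha] at h3
      exact h3)).2 a
  rw [if_pos ha] at h1
  exact h1

end Ama

end

end Pool.Agent.Helper85.FRM
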